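import Pool.Agent.P.MP_a0f0ad_al.Fi.Z.Bp

/-! Toolbox: the bridge to polynomials. -/

namespace Pool.Agent.P.MP_a0f0ad_al.Fi

open Finset Polynomial

variable {d : ℕ}

/-- the polynomial with coefficient vector `q` -/
noncomputable def pol (q : Fin d → ℝ) : ℝ[X] := ∑ j : Fin d, monomial (j : ℕ) (q j)
/-- the first `d` coefficients -/
def cf (d : ℕ) (P : ℝ[X]) : Fin d → ℝ := fun j => P.coeff j

theorem ev_eq_eval (q : Fin d → ℝ) (k : ℕ) (x : ℝ) :
    ev q k x = (derivative^[k] (pol q)).eval x := by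
  simp only [ev, dot, Vd, pol, iterate_derivative_sum, eval_finsetSum, ← C_mul_X_pow_eq_monomial,
    iterate_derivative_C_mul, iterate_derivative_X_pow_eq_C_mul, eval_mul, eval_C, eval_pow, eval_X]

theorem coeff_pol (q : Fin d → ℝ) (n : ℕ) : (pol q).coeff n = co q n := by
  simp only [pol, finsetSum_coeff, coeff_monomial, co]
  split_ifs with h
  · rw [sum_eq_single ⟨n, h⟩ (fun j _ hj => if_neg fun e => hj (Fin.ext e)) (by simp), if_pos rfl]
  · exact sum_eq_zero fun j _ => if_neg fun e : (j : ℕ) = n => h (e ▸ j.2)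

theorem degree_pol_lt (q : Fin d → ℝ) : (pol q).degree < d :=
  (degree_lt_iff_coeff_zero _ _).2 fun n hn => by rw [coeff_pol, co, dif_neg (not_lt.2 hn)]

theorem cf_pol (q : Fin d → ℝ) : cf d (pol q) = q :=
  funext fun j => by rw [cf, coeff_pol, co, dif_pos j.2]

theorem pol_cf {P : ℝ[X]} (h : P.degree < d) : pol (cf d P) = P := by
  ext n
  rw [coeff_pol, co]
  split_ifs with hn
  · rfl
  · exact ((degree_lt_iff_coeff_zero _ _).1 h n (not_lt.1 hn)).symm

theorem ev_cf {P : ℝ[X]} (h : P.degree < d) (k : ℕ) (x : ℝ) :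
    ev (cf d P) k x = (derivative^[k] P).eval x := by rw [ev_eq_eval, pol_cf h]

theorem pol_eq_zero {q : Fin d → ℝ} : pol q = 0 ↔ q = 0 :=
  ⟨fun h => by rw [← cf_pol q, h]; rfl, fun h => by simp [h, pol]⟩

theorem nonconst_iff (q : Fin d → ℝ) : Nonconst q ↔ derivative (pol q) ≠ 0 := by
  constructor
  · rintro ⟨⟨j, hj⟩, h1, h2⟩ h
    obtain ⟨j, rfl⟩ := Nat.exists_eq_add_of_le' h1
    have := congrArg (coeff · j) h
    simp only [coeff_derivative, coeff_pol, co, dif_pos hj, coeff_zero, mul_eq_zero] at this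
    exact this.elim h2 (by positivity)
  · intro h
    by_contra hn
    refine h (Polynomial.ext fun n => ?_)
    rw [coeff_derivative, coeff_pol, co, coeff_zero]
    split_ifs with hj
    · by_contra h0
      exact hn ⟨⟨n + 1, hj⟩, by simp, left_ne_zero_of_mul h0⟩
    · exact zero_mul _

theorem not_nonconst {q : Fin d → ℝ} (h : ¬ Nonconst q) (x : ℝ) :
    ev q 0 x = co q 0 ∧ ∀ k, ev q (k + 1) x = 0 := by
  rw [nonconst_iff, not_not] at h
  refine ⟨?_, fun k => ?_⟩
  · rw [ev_eq_eval, Function.iterate_zero_apply, eq_C_of_derivative_eq_zero h, eval_C, coeff_pol]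
  · rw [ev_eq_eval, Function.iterate_succ_apply, h, iterate_derivative_zero, eval_zero]

theorem zeros_card {P : ℝ[X]} (h : P ≠ 0) :
    {x | P.eval x = 0}.Finite ∧ {x | P.eval x = 0}.ncard ≤ P.natDegree := by
  have e : {x | P.eval x = 0} = P.roots.toFinset := by
    ext x; simp [h]
  rw [e, Set.ncard_coe_finset]
  exact ⟨finite_toSet _, (Multiset.toFinset_card_le _).trans (card_roots' P)⟩

theorem Nonconst.natDegree {q : Fin d → ℝ} (h : Nonconst q) :
    (pol q).natDegree ≠ 0 ∧ (pol q).natDegree < d := by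
  have h1 := (nonconst_iff q).1 h
  refine ⟨fun e => h1 (by rw [eq_C_of_natDegree_eq_zero e, derivative_C]), ?_⟩
  exact (natDegree_lt_iff_degree_lt fun e => h1 (by rw [e, derivative_zero])).2 (degree_pol_lt q)

theorem Nonconst.finite_level {q : Fin d → ℝ} (h : Nonconst q) (w : ℝ) :
    {x | ev q 0 x = w}.Finite ∧ {x | ev q 0 x = w}.ncard + 1 ≤ d := by
  have h0 : pol q - C w ≠ 0 := fun e => h.natDegree.1 (by rw [sub_eq_zero.1 e, natDegree_C])
  have := zeros_card h0
  rw [natDegree_sub_C] at this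
  simp only [eval_sub, eval_C, sub_eq_zero] at this
  simp only [ev_eq_eval, Function.iterate_zero_apply]
  exact ⟨this.1, this.2.trans_lt h.natDegree.2⟩

theorem Nonconst.finite_crit {q : Fin d → ℝ} (h : Nonconst q) :
    {x | ev q 1 x = 0}.Finite ∧ {x | ev q 1 x = 0}.ncard + 2 ≤ d := by
  have := zeros_card ((nonconst_iff q).1 h)
  have h1 := natDegree_derivative_lt h.natDegree.1
  have h2 := h.natDegree.2
  simp only [ev_eq_eval, Function.iterate_one]
  exact ⟨this.1, by omega⟩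

/-- zero count: simple zeros on `A`, double zeros on `B` -/
theorem eq_zero_of_zeros {P : ℝ[X]} {n : ℕ} (h : P.degree < n) (A B : Finset ℝ) (hAB : B ⊆ A)
    (hA : ∀ x ∈ A, P.eval x = 0) (hB : ∀ x ∈ B, (derivative P).eval x = 0)
    (hn : n ≤ A.card + B.card) : P = 0 := by
  by_contra h0
  have h1 : A.val + B.val ≤ P.roots := Multiset.le_iff_count.2 fun x => by
    rw [Multiset.count_add, count_roots, Multiset.count_eq_of_nodup A.nodup,
      Multiset.count_eq_of_nodup B.nodup]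
    simp only [mem_val]
    by_cases hb : x ∈ B
    · rw [if_pos hb, if_pos (hAB hb)]
      exact (one_lt_rootMultiplicity_iff_isRoot h0).2 ⟨hA x (hAB hb), hB x hb⟩
    · rw [if_neg hb]
      split_ifs with ha
      · exact (rootMultiplicity_pos h0).2 (hA x ha)
      · exact Nat.zero_le _
  have h2 := (Multiset.card_le_card h1).trans (card_roots' P)
  have h3 := (natDegree_lt_iff_degree_lt h0).2 h
  simp only [Multiset.card_add, card_val] at h2
  omega

/-- weak alternation at `n + 1` points -/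
theorem eq_zero_of_alternate {P : ℝ[X]} {n : ℕ} (h : P.degree < n) (x : Fin (n + 1) → ℝ)
    (hx : StrictMono x) (hs : ∀ i : Fin (n + 1), 0 ≤ (-1) ^ (i : ℕ) * P.eval (x i)) : P = 0 := by
  have hd : P.degree < #(univ : Finset (Fin (n + 1))) :=
    h.trans (by rw [card_univ, Fintype.card_fin]; exact_mod_cast n.lt_succ_self)
  have e := Lagrange.coeff_eq_sum hx.injective.injOn hd
  rw [card_univ, Fintype.card_fin, Nat.add_sub_cancel, coeff_eq_zero_of_degree_lt h] at e
  have sg : ∀ i : Fin (n + 1), ∃ c : ℝ, 0 < c ∧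
      ∏ j ∈ univ.erase i, (x i - x j) = (-1) ^ n * (-1) ^ (i : ℕ) * c := fun i => by
    have u : univ.erase i = Iio i ∪ Ioi i := by
      ext j; simp [lt_or_lt_iff_ne]
    refine ⟨(∏ j ∈ Iio i, (x i - x j)) * ∏ j ∈ Ioi i, (x j - x i), mul_pos
      (prod_pos fun j hj => sub_pos.2 (hx (mem_Iio.1 hj)))
      (prod_pos fun j hj => sub_pos.2 (hx (mem_Ioi.1 hj))), ?_⟩
    have v : ∏ j ∈ Ioi i, (x i - x j) = (-1) ^ (n - i) * ∏ j ∈ Ioi i, (x j - x i) := by
      rw [show n - i = #(Ioi i) by simp, ← prod_const, ← prod_mul_distrib]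
      exact prod_congr rfl fun j _ => by ring
    have t : ((-1 : ℝ)) ^ n * (-1) ^ (i : ℕ) = (-1) ^ (n - i) := by
      obtain ⟨m, hm⟩ := Nat.exists_eq_add_of_le (Nat.lt_succ_iff.1 i.2)
      rw [show n - i = m by omega, ← pow_add, show n + i = 2 * i + m by omega, pow_add, pow_mul]
      simp
    rw [u, prod_union (disjoint_left.2 fun j a b => (mem_Iio.1 a).not_gt (mem_Ioi.1 b)), v, t]
    ring
  choose c hc hp using sg
  have e2 : ∑ i : Fin (n + 1), (-1) ^ (i : ℕ) * P.eval (x i) / c i = 0 := by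
    rw [← mul_zero ((-1 : ℝ) ^ n), e, mul_sum]
    refine sum_congr rfl fun i _ => ?_
    rw [hp]
    rcases neg_one_pow_eq_or ℝ n with a | a <;> rcases neg_one_pow_eq_or ℝ i with b | b <;>
      rw [a, b] <;> ring
  have := (sum_eq_zero_iff_of_nonneg fun i _ => div_nonneg (hs i) (hc i).le).1 e2
  refine eq_zero_of_degree_lt_of_eval_index_eq_zero _ hx.injective.injOn hd fun i hi => ?_
  simpa [(hc i).ne'] using this i hi

theorem abs_coeff_le_of_lt (P : ℝ[X]) {j : ℕ} (h : j < d) : |P.coeff j| ≤ ‖cf d P‖ :=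
  norm_le_pi_norm (cf d P) ⟨j, h⟩

theorem abs_coeff_le {P : ℝ[X]} (h : P.degree < d) (j : ℕ) : |P.coeff j| ≤ ‖cf d P‖ := by
  rcases lt_or_ge j d with hj | hj
  · exact abs_coeff_le_of_lt P hj
  · rw [(degree_lt_iff_coeff_zero _ _).1 h j hj, abs_zero]; exact norm_nonneg _

theorem norm_cf_le {P : ℝ[X]} {c : ℝ} (hc : 0 ≤ c) (h : ∀ j < d, |P.coeff j| ≤ c) : ‖cf d P‖ ≤ c :=
  (pi_norm_le_iff_of_nonneg hc).2 fun j => h j j.2

theorem norm_cf_mul (P R : ℝ[X]) : ‖cf d (P * R)‖ ≤ d * ‖cf d P‖ * ‖cf d R‖ := by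
  refine norm_cf_le (by positivity) fun j hj => ?_
  rw [coeff_mul]
  refine (abs_sum_le_sum_abs _ _).trans ((sum_le_card_nsmul _ _ (‖cf d P‖ * ‖cf d R‖)
    fun a ha => ?_).trans ?_)
  · have := mem_antidiagonal.1 ha
    rw [abs_mul]
    exact mul_le_mul (abs_coeff_le_of_lt P (by omega)) (abs_coeff_le_of_lt R (by omega))
      (abs_nonneg _) (norm_nonneg _)
  · rw [Nat.card_antidiagonal, nsmul_eq_mul, mul_assoc]
    gcongr
    exact hj

theorem norm_cf_derivative {P : ℝ[X]} (h : P.degree < d) :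
    ‖cf d (derivative P)‖ ≤ d * ‖cf d P‖ := by
  refine norm_cf_le (by positivity) fun j hj => ?_
  rw [coeff_derivative, abs_mul, mul_comm, abs_of_nonneg (by positivity)]
  exact mul_le_mul (by exact_mod_cast hj) (abs_coeff_le h _) (abs_nonneg _) (by positivity)

theorem norm_cf_step {P : ℝ[X]} {a L : ℝ} (ha : |a| ≤ L)
    (h : (P * (X - C a)).degree < (d : WithBot ℕ)) :
    P.degree < d ∧ ‖cf d P‖ ≤ (1 + L) ^ (d + 1) * ‖cf d (P * (X - C a))‖ ∧
      ‖cf d (P * (X - C a))‖ ≤ (1 + L) ^ (d + 1) * ‖cf d P‖ := by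
  have hL := (abs_nonneg a).trans ha
  have h1 : 1 ≤ 1 + L := by linarith
  have hP : P.degree < d := (degree_le_mul_left P (X_sub_C_ne_zero a)).trans_lt h
  refine ⟨hP, norm_cf_le (by positivity) fun j hj => ?_, norm_cf_le (by positivity) fun j hj => ?_⟩
  · have : ∀ m j, d ≤ j + m → |P.coeff j| ≤ (1 + L) ^ m * ‖cf d (P * (X - C a))‖ := by
      intro m
      induction m with
      | zero =>
        intro j hj
        rw [(degree_lt_iff_coeff_zero _ _).1 hP j hj, abs_zero]; positivity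
      | succ m ih =>
        intro j hj
        have a1 := ih (j + 1) (by omega)
        have a2 := abs_coeff_le h (j + 1)
        have a3 : P.coeff j = (P * (X - C a)).coeff (j + 1) + P.coeff (j + 1) * a := by
          rw [coeff_mul_X_sub_C]; ring
        have a4 : |P.coeff (j + 1) * a| ≤ (1 + L) ^ m * ‖cf d (P * (X - C a))‖ * L := by
          rw [abs_mul]; gcongr
        have a5 := le_mul_of_one_le_left (norm_nonneg (cf d (P * (X - C a)))) (one_le_pow₀ (n := m) h1)
        have a6 := abs_add_le ((P * (X - C a)).coeff (j + 1)) (P.coeff (j + 1) * a)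
        rw [a3, pow_succ]
        linarith
    exact this _ _ (by omega)
  · have b1 : (1 + L) * ‖cf d P‖ ≤ (1 + L) ^ (d + 1) * ‖cf d P‖ := by
      gcongr; exact le_self_pow₀ h1 d.succ_ne_zero
    have b2 : ∀ i, |P.coeff i * a| ≤ ‖cf d P‖ * L := fun i => by
      rw [abs_mul]; gcongr; exact abs_coeff_le hP i
    have b3 := norm_nonneg (cf d P)
    refine le_trans ?_ b1
    rcases j with _ | j
    · have := b2 0
      simp only [mul_coeff_zero, coeff_sub, coeff_X_zero, coeff_C_zero, zero_sub, mul_neg, abs_neg]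
      linarith
    · have := abs_sub (P.coeff j) (P.coeff (j + 1) * a)
      rw [coeff_mul_X_sub_C]
      linarith [b2 (j + 1), abs_coeff_le hP j]

theorem norm_cf_prod {L : ℝ} (P : ℝ[X]) (s : Multiset ℝ) (hs : ∀ x ∈ s, |x| ≤ L) (hL : 0 ≤ L)
    (h : (P * (s.map fun x => X - C x).prod).degree < d) :
    ‖cf d P‖ ≤ ((1 + L) ^ (d + 1)) ^ s.card * ‖cf d (P * (s.map fun x => X - C x).prod)‖ ∧
      ‖cf d (P * (s.map fun x => X - C x).prod)‖ ≤ ((1 + L) ^ (d + 1)) ^ s.card * ‖cf d P‖ := by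
  induction s using Multiset.induction_on with
  | empty => simp
  | cons a t ih =>
    rw [Multiset.map_cons, Multiset.prod_cons, mul_comm (X - C a), ← mul_assoc] at h ⊢
    obtain ⟨h0, h1, h2⟩ := norm_cf_step (hs a (Multiset.mem_cons_self ..)) h
    obtain ⟨h3, h4⟩ := ih (fun x hx => hs x (Multiset.mem_cons_of_mem hx)) h0
    rw [Multiset.card_cons, pow_succ _ t.card]
    constructor
    · rw [mul_assoc _ ((1 + L) ^ (d + 1))]
      exact h3.trans (by gcongr)
    · rw [mul_comm _ ((1 + L) ^ (d + 1)), mul_assoc ((1 + L) ^ (d + 1))]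
      exact h2.trans (by gcongr)

/-- products, and division by a monic polynomial with bounded roots, do not blow up the norm -/
theorem exists_cf_mul_bound (d : ℕ) (L : ℝ) : ∃ C : ℝ, 1 ≤ C ∧
    (∀ P R : ℝ[X], (P * R).degree < d → ‖cf d (P * R)‖ ≤ C * ‖cf d P‖ * ‖cf d R‖) ∧
    (∀ (P : ℝ[X]) (s : Multiset ℝ), (∀ x ∈ s, |x| ≤ L) →
      (P * (s.map fun x => X - Polynomial.C x).prod).degree < d →
      ‖cf d P‖ ≤ C * ‖cf d (P * (s.map fun x => X - Polynomial.C x).prod)‖ ∧
      ‖cf d (P * (s.map fun x => X - Polynomial.C x).prod)‖ ≤ C * ‖cf d P‖) ∧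
    ∀ P : ℝ[X], P.degree < d → ‖cf d (derivative P)‖ ≤ C * ‖cf d P‖ := by
  have hK : 1 ≤ (1 + |L|) ^ (d + 1) := one_le_pow₀ (by linarith [abs_nonneg L])
  have h1 := one_le_pow₀ (n := d) hK
  have h0 : (0 : ℝ) ≤ d := d.cast_nonneg
  have hd : (d : ℝ) ≤ d + ((1 + |L|) ^ (d + 1)) ^ d := by linarith
  refine ⟨d + ((1 + |L|) ^ (d + 1)) ^ d, by linarith, fun P R _ => (norm_cf_mul P R).trans
    (by gcongr), fun P s hs h => ?_, fun P h => (norm_cf_derivative h).trans (by gcongr)⟩
  rcases eq_or_ne P 0 with rfl | hP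
  · have : cf d 0 = 0 := rfl
    simp [this]
  have hm := monic_multiset_prod_of_monic s (fun x => X - C x) fun x _ => monic_X_sub_C x
  have hc : s.card ≤ d := by
    have := (natDegree_lt_iff_degree_lt (mul_ne_zero hP hm.ne_zero)).2 h
    rw [natDegree_mul hP hm.ne_zero, natDegree_multiset_prod_X_sub_C_eq_card] at this
    omega
  have h2 : ((1 + |L|) ^ (d + 1)) ^ s.card ≤ d + ((1 + |L|) ^ (d + 1)) ^ d :=
    (pow_le_pow_right₀ hK hc).trans (by linarith)
  obtain ⟨h3, h4⟩ := norm_cf_prod P s (fun x hx => (hs x hx).trans (le_abs_self L)) (abs_nonneg L) h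
  exact ⟨h3.trans (by gcongr), h4.trans (by gcongr)⟩

end Pool.Agent.P.MP_a0f0ad_al.Fi
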