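import Pool.Agent.P.MP_a0f0ad_al.Fi.Z.Grp

/-! Toolbox: the group, words, word length. -/

namespace Pool.Agent.P.MP_a0f0ad_al.Fi

open Finset

variable {d : ℕ}

theorem co_add {R : Type} [AddMonoid R] (y z : Fin d → R) (i : ℕ) :
    co (y + z) i = co y i + co z i := by
  unfold co; split_ifs <;> simp
theorem co_neg {R : Type} [AddGroup R] (y : Fin d → R) (i : ℕ) : co (-y) i = -co y i := by
  unfold co; split_ifs <;> simp
theorem co_sub {R : Type} [AddGroup R] (y z : Fin d → R) (i : ℕ) :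
    co (y - z) i = co y i - co z i := by
  unfold co; split_ifs <;> simp
theorem co_smul (c : ℝ) (y : Fin d → ℝ) (i : ℕ) : co (c • y) i = c * co y i := by
  unfold co; split_ifs <;> simp
theorem co_sum {R ι : Type} [AddCommMonoid R] (s : Finset ι) (y : ι → Fin d → R) (i : ℕ) :
    co (∑ l ∈ s, y l) i = ∑ l ∈ s, co (y l) i := by
  unfold co; split_ifs <;> simp
theorem co_coe {R : Type} [Zero R] (y : Fin d → R) (j : Fin d) : co y j = y j := by
  unfold co; rw [dif_pos j.2]
theorem co_zero {R : Type} [Zero R] (i : ℕ) : co (0 : Fin d → R) i = 0 := by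
  unfold co; split_ifs <;> simp
theorem abs_co_le (y : Fin d → ℝ) (i : ℕ) : |co y i| ≤ ‖y‖ := by
  unfold co; split_ifs with h
  · exact norm_le_pi_norm y ⟨i, h⟩
  · simp
theorem co_sh_zero (x : ℤ) (y : Fin d → ℤ) : co (sh x y) 0 = co y 0 := by
  unfold co; split_ifs with h
  · simp only [sh]
    rw [Finset.sum_eq_single ⟨0, h⟩]
    · simp
    · intro i _ hi
      have : 0 < (i : ℕ) := Nat.pos_of_ne_zero fun h0 => hi (Fin.ext h0)
      simp [Nat.choose_eq_zero_of_lt this]
    · simp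
  · rfl
theorem co_sh_one (hd : 2 ≤ d) (x : ℤ) (y : Fin d → ℤ) :
    co (sh x y) 1 = co y 1 + x * co y 0 := by
  unfold co
  rw [dif_pos (by omega : 1 < d), dif_pos (by omega : 1 < d), dif_pos (by omega : 0 < d)]
  simp only [sh]
  rw [Finset.sum_eq_add (⟨1, by omega⟩ : Fin d) ⟨0, by omega⟩]
  · simp
  · simp [Fin.ext_iff]
  · intro i _ hi
    have h1 : (i : ℕ) ≠ 1 := fun h => hi.1 (Fin.ext h)
    have h0 : (i : ℕ) ≠ 0 := fun h => hi.2 (Fin.ext h)
    simp [Nat.choose_eq_zero_of_lt (by omega : 1 < (i : ℕ))]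
  · simp
  · simp
@[simp] theorem G.one_b : (1 : G d).b = 0 := by
  simp [G.b, co_zero]
@[simp] theorem G.mul_b (g h : G d) : (g * h).b = g.b + h.b := by
  simp [G.b, co_add, co_sh_zero]
@[simp] theorem G.inv_b (g : G d) : g⁻¹.b = -g.b := by
  simp [G.b, co_neg, co_sh_zero]
@[simp] theorem G.pow_a (g : G d) (n : ℕ) : (g ^ n).a = n * g.a := by
  induction n with
  | zero => simp
  | succ n ih => rw [pow_succ, G.mul_a, ih]; push_cast; ring
@[simp] theorem G.pow_b (g : G d) (n : ℕ) : (g ^ n).b = n * g.b := by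
  induction n with
  | zero => simp
  | succ n ih => rw [pow_succ, G.mul_b, ih]; push_cast; ring
theorem G.mul_c (hd : 2 ≤ d) (g h : G d) : (g * h).c = g.c + h.c + g.a * h.b := by
  simp only [G.c, G.b, G.mul_y, co_add, co_sh_one hd]; ring
theorem G.one_c : (1 : G d).c = 0 := by
  simp [G.c, co_zero]
theorem G.one_ct : (1 : G d).ct = 0 := by
  simp [G.ct, G.one_c]
theorem G.mul_ct (hd : 2 ≤ d) (g h : G d) :
    (g * h).ct = g.ct + h.ct + ((g.a : ℝ) * h.b - (g.b : ℝ) * h.a) / 2 := by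
  simp only [G.ct, G.mul_c hd, G.mul_a, G.mul_b]; push_cast; ring
theorem G.inv_ct (hd : 2 ≤ d) (g : G d) : g⁻¹.ct = -g.ct := by
  have h := G.mul_ct hd g g⁻¹
  rw [mul_inv_cancel, G.one_ct, G.inv_a, G.inv_b] at h
  push_cast at h
  linarith
theorem G.pow_ct (hd : 2 ≤ d) (g : G d) (n : ℕ) : (g ^ n).ct = n * g.ct := by
  induction n with
  | zero => simp [G.one_ct]
  | succ n ih => rw [pow_succ, G.mul_ct hd, ih, G.pow_a, G.pow_b]; push_cast; ring
theorem G.pow_y (g : G d) (n : ℕ) : (g ^ n).y = ∑ s ∈ range n, sh (s * g.a) g.y := by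
  induction n with
  | zero => simp
  | succ n ih => rw [pow_succ, G.mul_y, ih, G.pow_a, Finset.sum_range_succ]
@[simp] theorem ht_zero (w : List (G d)) : ht w 0 = 0 := by
  simp [ht]
theorem take_prod_succ (w : List (G d)) (k : ℕ) :
    (w.take (k + 1)).prod = (w.take k).prod * lt w k := by
  unfold lt
  rw [List.take_add_one, List.prod_append, List.getD_eq_getElem?_getD]
  cases w[k]? <;> simp
theorem ht_succ (w : List (G d)) (k : ℕ) : ht w (k + 1) = ht w k + (lt w k).a := by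
  unfold ht; rw [take_prod_succ, G.mul_a]
theorem ht_length (w : List (G d)) : ht w w.length = w.prod.a := by
  simp [ht]
theorem ht_eq_sum (w : List (G d)) (k : ℕ) : ht w k = ∑ l ∈ range k, (lt w l).a := by
  induction k with
  | zero => simp
  | succ k ih => rw [ht_succ, ih, Finset.sum_range_succ]
theorem G.prod_a (w : List (G d)) : w.prod.a = ∑ k ∈ range w.length, (lt w k).a := by
  rw [← ht_length, ht_eq_sum]
theorem take_prod_b (w : List (G d)) (k : ℕ) :
    (w.take k).prod.b = ∑ l ∈ range k, (lt w l).b := by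
  induction k with
  | zero => simp
  | succ k ih => rw [take_prod_succ, G.mul_b, ih, Finset.sum_range_succ]
theorem take_prod_y (w : List (G d)) (k : ℕ) :
    (w.take k).prod.y = ∑ l ∈ range k, sh (ht w l) (lt w l).y := by
  induction k with
  | zero => simp
  | succ k ih => rw [take_prod_succ, G.mul_y, ih, Finset.sum_range_succ]; rfl
theorem G.prod_b (w : List (G d)) : w.prod.b = ∑ k ∈ range w.length, (lt w k).b := by
  rw [← take_prod_b, List.take_length]
theorem G.prod_y (w : List (G d)) :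
    w.prod.y = ∑ k ∈ range w.length, sh (ht w k) (lt w k).y := by
  rw [← take_prod_y, List.take_length]
theorem Wd.lt_mem {S : Finset (G d)} {w : List (G d)} (h : Wd S w) {k : ℕ} (hk : k < w.length) :
    lt w k ∈ S := by
  unfold lt
  rw [List.getD_eq_getElem _ _ hk]
  exact h _ (List.getElem_mem hk)
theorem Wd.append {S : Finset (G d)} {w w' : List (G d)} (h : Wd S w) (h' : Wd S w') :
    Wd S (w ++ w') := by
  intro s hs
  rcases List.mem_append.1 hs with hs | hs
  · exact h s hs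
  · exact h' s hs
theorem len_le_of_wd {S : Finset (G d)} {w : List (G d)} (h : Wd S w) :
    len S w.prod ≤ w.length := Nat.sInf_le ⟨w, h, rfl, rfl⟩
theorem Wd.nil (S : Finset (G d)) : Wd S [] := by
  intro s hs; simp at hs
theorem Wd.single {S : Finset (G d)} {s : G d} (h : s ∈ S) : Wd S [s] := by
  intro t ht; rw [List.mem_singleton.1 ht]; exact h
theorem Sym.wd_inv {S : Finset (G d)} (hS : Sym S) {w : List (G d)} (h : Wd S w) :
    Wd S (w.map fun s => s⁻¹).reverse := by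
  intro s hs
  rw [List.mem_reverse, List.mem_map] at hs
  obtain ⟨t, ht, rfl⟩ := hs
  exact hS.2.1 t (h t ht)
theorem Sym.exists_wd {S : Finset (G d)} (hS : Sym S) (g : G d) :
    ∃ w, Wd S w ∧ w.prod = g := by
  have hg : g ∈ Subgroup.closure (S : Set (G d)) := by rw [hS.2.2]; trivial
  induction hg using Subgroup.closure_induction with
  | mem x hx => exact ⟨[x], Wd.single hx, by simp⟩
  | one => exact ⟨[], Wd.nil S, rfl⟩
  | mul x y _ _ hx hy =>
    obtain ⟨w, hw, rfl⟩ := hx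
    obtain ⟨w', hw', rfl⟩ := hy
    exact ⟨w ++ w', hw.append hw', List.prod_append⟩
  | inv x _ hx =>
    obtain ⟨w, hw, rfl⟩ := hx
    exact ⟨_, hS.wd_inv hw, (List.prod_inv_reverse w).symm⟩
theorem Sym.exists_geo {S : Finset (G d)} (hS : Sym S) (g : G d) :
    ∃ w, Geo S w ∧ w.prod = g := by
  obtain ⟨w, hw, hg⟩ := hS.exists_wd g
  have hne : ({n | ∃ w : List (G d), Wd S w ∧ w.length = n ∧ w.prod = g} : Set ℕ).Nonempty :=
    ⟨w.length, w, hw, rfl, hg⟩
  obtain ⟨w', hw', hl, hp⟩ := Nat.sInf_mem hne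
  exact ⟨w', ⟨hw', by rw [hp]; exact hl⟩, hp⟩
theorem len_one (S : Finset (G d)) : len S 1 = 0 :=
  Nat.le_zero.1 (len_le_of_wd (Wd.nil S))
theorem len_mem {S : Finset (G d)} {s : G d} (h : s ∈ S) : len S s ≤ 1 := by
  simpa using len_le_of_wd (Wd.single h)
theorem Sym.len_mul {S : Finset (G d)} (hS : Sym S) (g h : G d) :
    len S (g * h) ≤ len S g + len S h := by
  obtain ⟨w, hw, rfl⟩ := hS.exists_geo g
  obtain ⟨w', hw', rfl⟩ := hS.exists_geo h
  have := len_le_of_wd (hw.1.append hw'.1)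
  rw [List.prod_append, List.length_append, hw.2, hw'.2] at this
  exact this
theorem Sym.len_inv_le {S : Finset (G d)} (hS : Sym S) (g : G d) : len S g⁻¹ ≤ len S g := by
  obtain ⟨w, hw, rfl⟩ := hS.exists_geo g
  have := len_le_of_wd (hS.wd_inv hw.1)
  rw [← List.prod_inv_reverse, List.length_reverse, List.length_map, hw.2] at this
  exact this
theorem Sym.len_inv {S : Finset (G d)} (hS : Sym S) (g : G d) : len S g⁻¹ = len S g :=
  le_antisymm (hS.len_inv_le g) (by simpa using hS.len_inv_le g⁻¹)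
theorem Sym.len_pow {S : Finset (G d)} (hS : Sym S) (g : G d) (n : ℕ) :
    len S (g ^ n) ≤ n * len S g := by
  induction n with
  | zero => simp [len_one]
  | succ n ih =>
    rw [pow_succ, Nat.succ_mul]
    exact (hS.len_mul _ _).trans (Nat.add_le_add_right ih _)
theorem Sym.len_prod {S : Finset (G d)} (hS : Sym S) (w : List (G d)) :
    len S w.prod ≤ (w.map (len S)).sum := by
  induction w with
  | nil => simp [len_one]
  | cons s w ih =>
    rw [List.prod_cons, List.map_cons, List.sum_cons]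
    exact (hS.len_mul _ _).trans (Nat.add_le_add_left ih _)
theorem sh_modEq {K x x' : ℤ} {y y' : Fin d → ℤ} (hx : x ≡ x' [ZMOD K])
    (hy : ∀ j, y j ≡ y' j [ZMOD K]) (j : Fin d) : sh x y j ≡ sh x' y' j [ZMOD K] := by
  unfold sh
  exact Int.ModEq.sum fun i _ => ((Int.ModEq.refl _).mul (hx.pow _)).mul (hy i)
theorem Cong.refl (K : ℕ) (g : G d) : Cong K g g :=
  ⟨Int.ModEq.refl _, fun _ => Int.ModEq.refl _⟩
theorem Cong.symm {K : ℕ} {g h : G d} (H : Cong K g h) : Cong K h g :=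
  ⟨H.1.symm, fun j => (H.2 j).symm⟩
theorem Cong.trans {K : ℕ} {g h k : G d} (H : Cong K g h) (H' : Cong K h k) : Cong K g k :=
  ⟨H.1.trans H'.1, fun j => (H.2 j).trans (H'.2 j)⟩
theorem Cong.mul {K : ℕ} {g h g' h' : G d} (H : Cong K g h) (H' : Cong K g' h') :
    Cong K (g * g') (h * h') :=
  ⟨H.1.add H'.1, fun j => (H.2 j).add (sh_modEq H.1 H'.2 j)⟩
theorem cong_pow_sq (K : ℕ) (g : G d) (n : ℕ) : Cong K (g ^ (K ^ 2 * n)) 1 := by
  have e : g ^ (K ^ 2 * n) = (g ^ K) ^ (K * n) := by rw [← pow_mul]; congr 1; ring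
  rw [e]
  refine ⟨?_, fun j => ?_⟩
  · rw [G.pow_a, G.pow_a, G.one_a]
    exact Int.modEq_zero_iff_dvd.2 ⟨(K * n : ℕ) * g.a, by ring⟩
  · rw [G.pow_y, Finset.sum_apply]
    have h1 : ∑ s ∈ range (K * n), sh (s * (g ^ K).a) (g ^ K).y j ≡
        ∑ _s ∈ range (K * n), (g ^ K).y j [ZMOD (K : ℤ)] := by
      refine Int.ModEq.sum fun s _ => ?_
      have h2 : (s : ℤ) * (g ^ K).a ≡ 0 [ZMOD (K : ℤ)] := by
        rw [G.pow_a]
        exact Int.modEq_zero_iff_dvd.2 ⟨s * g.a, by ring⟩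
      have := sh_modEq h2 (fun j => Int.ModEq.refl ((g ^ K).y j)) j
      rwa [sh_zero] at this
    refine h1.trans ?_
    rw [Finset.sum_const, Finset.card_range, nsmul_eq_mul]
    exact Int.modEq_zero_iff_dvd.2 ⟨n * (g ^ K).y j, by push_cast; ring⟩
theorem co_nx_zero (T : ℝ) (g : G d) : co (nx T g).2 0 = (g.b : ℝ) := by
  unfold G.b co nx
  split_ifs <;> simp
theorem abs_floor_sub_le (x : ℝ) : |((⌊x⌋ : ℤ) : ℝ) - x| ≤ 1 := by
  rw [abs_le]
  constructor <;> linarith [Int.floor_le x, Int.lt_floor_add_one x]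
theorem norm_nx_gam {T : ℝ} (hT : 1 ≤ T) (u : E d) : ‖nx T (gam T u) - T • u‖ ≤ 1 := by
  rw [Prod.norm_def]
  refine max_le ?_ ?_
  · simpa [nx, gam, Real.norm_eq_abs] using abs_floor_sub_le (T * u.1)
  · refine (pi_norm_le_iff_of_nonneg zero_le_one).2 fun j => ?_
    have hp : 1 ≤ T ^ (j : ℕ) := one_le_pow₀ hT
    have hp0 : 0 < T ^ (j : ℕ) := by linarith
    have e : (nx T (gam T u) - T • u).2 j =
        (((⌊T ^ ((j : ℕ) + 1) * u.2 j⌋ : ℤ) : ℝ) - T ^ ((j : ℕ) + 1) * u.2 j) / T ^ (j : ℕ) := by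
      simp only [nx, gam, Prod.snd_sub, Prod.smul_snd, Pi.sub_apply, Pi.smul_apply, smul_eq_mul]
      field_simp
      ring
    rw [e, Real.norm_eq_abs, abs_div, abs_of_pos hp0, div_le_one hp0]
    exact (abs_floor_sub_le _).trans hp

end Pool.Agent.P.MP_a0f0ad_al.Fi
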