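import Pool.Agent.P.MP_a0f0ad_al.Fi.Z.Bp
import Pool.Agent.P.MP_a0f0ad_al.Fi.Z.Bg

/-! Toolbox: frames. -/

namespace Pool.Agent.P.MP_a0f0ad_al.Fi

open Finset MeasureTheory

variable {d : ℕ}

theorem clamp_of_nonpos {x : ℝ} (h : x ≤ 0) : clamp x = 0 :=
  max_eq_left ((min_le_right _ _).trans h)

theorem clamp_of_one_le {x : ℝ} (h : 1 ≤ x) : clamp x = 1 := by
  rw [clamp, min_eq_left h, max_eq_right zero_le_one]

theorem clamp_of_mem {x : ℝ} (h0 : 0 ≤ x) (h1 : x ≤ 1) : clamp x = x := by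
  rw [clamp, min_eq_right h1, max_eq_right h0]

theorem clamp_mem (x : ℝ) : 0 ≤ clamp x ∧ clamp x ≤ 1 :=
  ⟨le_max_left _ _, max_le zero_le_one (min_le_left _ _)⟩

theorem continuous_clamp : Continuous clamp := by
  unfold clamp
  fun_prop

theorem sum_clamp_nat {A : Type} [AddCommMonoid A] {i m : ℕ} (hi : i ≤ m) (φ : ℕ → ℝ → A) :
    ∑ l ∈ range m, φ l (clamp ((i : ℝ) - l)) = ∑ l ∈ range i, φ l 1 + ∑ l ∈ Ico i m, φ l 0 := by
  rw [← sum_range_add_sum_Ico _ hi]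
  congr 1
  · refine sum_congr rfl fun l hl => ?_
    have : (l : ℝ) + 1 ≤ i := by exact_mod_cast mem_range.1 hl
    rw [clamp_of_one_le (by linarith)]
  · refine sum_congr rfl fun l hl => ?_
    have : (i : ℝ) ≤ l := by exact_mod_cast (mem_Ico.1 hl).1
    rw [clamp_of_nonpos (by linarith)]

theorem sum_clamp {A : Type} [AddCommMonoid A] {i m : ℕ} (hi : i < m) {s : ℝ} (h0 : 0 ≤ s)
    (h1 : s ≤ 1) (φ : ℕ → ℝ → A) : ∑ l ∈ range m, φ l (clamp ((i : ℝ) + s - l)) =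
      ∑ l ∈ range i, φ l 1 + φ i s + ∑ l ∈ Ico (i + 1) m, φ l 0 := by
  rw [← sum_range_add_sum_Ico _ (show i + 1 ≤ m from hi), sum_range_succ, add_sub_cancel_left,
    clamp_of_mem h0 h1]
  refine congrArg₂ _ (congrArg₂ _ (sum_congr rfl fun l hl => ?_) rfl) (sum_congr rfl fun l hl => ?_)
  · have : (l : ℝ) + 1 ≤ i := by exact_mod_cast mem_range.1 hl
    rw [clamp_of_one_le (by linarith)]
  · have : (i : ℝ) + 1 ≤ l := by exact_mod_cast (mem_Ico.1 hl).1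
    rw [clamp_of_nonpos (by linarith)]

namespace Frame

variable (F : Frame d)

@[fun_prop] theorem continuous_pt (l : ℕ) : Continuous (F.pt l) := by
  unfold pt
  fun_prop

theorem ii (l k : ℕ) (j : Fin d) (c s t : ℝ) :
    IntervalIntegrable (fun r => c * Vd k (F.pt l r) j) volume s t :=
  Continuous.intervalIntegrable (by fun_prop) _ _

theorem hasDerivAt_pt (l k : ℕ) (j : Fin d) (r : ℝ) : HasDerivAt (fun r => Vd k (F.pt l r) j)
    (F.nu l * ((F.Y l).a : ℝ) * Vd (k + 1) (F.pt l r) j) r := by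
  have h : HasDerivAt (F.pt l) (F.nu l * ((F.Y l).a : ℝ)) r := by
    have := ((hasDerivAt_id' r).mul_const (F.nu l * ((F.Y l).a : ℝ))).const_add (F.pos l)
    rwa [one_mul] at this
  rw [mul_comm]
  exact (hasDerivAt_Vd k j _).comp r h

theorem pt_zero (l : ℕ) : F.pt l 0 = F.pos l := by simp [pt]

@[simp] theorem pos_zero : F.pos 0 = 0 := by
  simp [pos]

theorem pos_succ (i : ℕ) : F.pos (i + 1) = F.pos i + F.nu i * ((F.Y i).a : ℝ) := by
  rw [pos, sum_range_succ, pos]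

theorem pt_one (l : ℕ) : F.pt l 1 = F.pos (l + 1) := by rw [pt, one_mul, pos_succ]

theorem posT_item {i : ℕ} (hi : i < F.m) {s : ℝ} (h0 : 0 ≤ s) (h1 : s ≤ 1) :
    F.posT (i + s) = F.pt i s := by
  rw [posT, sum_clamp hi h0 h1 fun l x => F.nu l * ((F.Y l).a : ℝ) * x]
  simp [pt, pos, mul_comm]

theorem posT_nat {i : ℕ} (hi : i ≤ F.m) : F.posT i = F.pos i := by
  rw [posT, sum_clamp_nat hi fun l x => F.nu l * ((F.Y l).a : ℝ) * x]
  simp [pos]

theorem continuous_posT : Continuous F.posT := by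
  unfold posT
  have := continuous_clamp
  fun_prop

theorem continuous_Gam : Continuous F.Gam := by
  refine continuous_pi fun j => continuous_finsetSum _ fun l _ => ?_
  simp only [intervalIntegral.integral_symm 1]
  exact ((intervalIntegral.continuous_primitive (fun a b => F.ii l 1 j _ a b) 1).comp
    (continuous_clamp.comp (continuous_sub_right _))).neg

theorem Gam_last : F.Gam F.m = 0 := by
  funext j
  rw [Gam, sum_clamp_nat le_rfl fun l x => ∫ s in x..1, F.nu l * ((F.Y l).b : ℝ) * Vd 1 (F.pt l s) j]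
  simp

theorem Gam_item {i : ℕ} (hi : i < F.m) {s : ℝ} (h0 : 0 ≤ s) (h1 : s ≤ 1) (j : Fin d) :
    F.Gam (i + s) j = F.Gam (i + 1 : ℕ) j +
      ∫ r in s..1, F.nu i * ((F.Y i).b : ℝ) * Vd 1 (F.pt i r) j := by
  rw [Gam, Gam,
    sum_clamp hi h0 h1 fun l x => ∫ s in x..1, F.nu l * ((F.Y l).b : ℝ) * Vd 1 (F.pt l s) j,
    sum_clamp_nat hi fun l x => ∫ s in x..1, F.nu l * ((F.Y l).b : ℝ) * Vd 1 (F.pt l s) j]
  simp [add_comm]

/-- on an atom -/
theorem Gam_atom {i : ℕ} (hi : i < F.m) (ha : (F.Y i).a = 0) {s : ℝ} (h0 : 0 ≤ s) (h1 : s ≤ 1) :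
    F.Gam (i + s) = F.Gam (i + 1 : ℕ) + ((1 - s) * (F.nu i * ((F.Y i).b : ℝ))) • Vd 1 (F.pos i) := by
  funext j
  rw [F.Gam_item hi h0 h1]
  simp [pt, ha]
  ring

/-- on any item -/
theorem Gam_sea {i : ℕ} (hi : i < F.m) {s : ℝ} (h0 : 0 ≤ s) (h1 : s ≤ 1) :
    ((F.Y i).a : ℝ) • F.Gam (i + s) + ((F.Y i).b : ℝ) • Vd 0 (F.pt i s) = F.DvI i := by
  have key : ∀ s : ℝ, 0 ≤ s → s ≤ 1 →
      ((F.Y i).a : ℝ) • F.Gam (i + s) + ((F.Y i).b : ℝ) • Vd 0 (F.pt i s) =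
      ((F.Y i).a : ℝ) • F.Gam (i + 1 : ℕ) + ((F.Y i).b : ℝ) • Vd 0 (F.pt i 1) := by
    intro s h0 h1
    funext j
    have e := intervalIntegral.integral_eq_sub_of_hasDerivAt (a := s) (b := 1)
      (fun r _ => (F.hasDerivAt_pt i 0 j r).const_mul ((F.Y i).b : ℝ))
      (by simpa only [mul_assoc] using F.ii i 1 j (((F.Y i).b : ℝ) * (F.nu i * (F.Y i).a)) s 1)
    simp only [Pi.add_apply, Pi.smul_apply, smul_eq_mul, F.Gam_item hi h0 h1, mul_add]
    rw [← intervalIntegral.integral_const_mul, add_assoc, ← eq_sub_iff_add_eq.1 e.symm.symm]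
    congr 3
    funext r
    ring
  rw [key s h0 h1, ← key 0 le_rfl zero_le_one, DvI, Dv, add_zero, F.posT_nat hi.le, add_comm]
  simp [pt]

theorem Dv_item {i : ℕ} (hi : i < F.m) {s : ℝ} (h0 : 0 ≤ s) (h1 : s ≤ 1) :
    F.Dv (F.Y i) (i + s) = F.DvI i := by
  rw [Dv, F.posT_item hi h0 h1, add_comm, F.Gam_sea hi h0 h1]

/-- the excess mass form of the effect of a letter inserted in a sea -/
theorem Dv_sea {i : ℕ} (hi : i < F.m) (ha : (F.Y i).a ≠ 0) (g : G d) {s : ℝ} (h0 : 0 ≤ s)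
    (h1 : s ≤ 1) : F.Dv g (i + s) =
      ((g.b : ℝ) - ((F.Y i).b : ℝ) / ((F.Y i).a : ℝ) * g.a) • Vd 0 (F.pt i s) +
        ((g.a : ℝ) / ((F.Y i).a : ℝ)) • F.DvI i := by
  have ha' : ((F.Y i).a : ℝ) ≠ 0 := by exact_mod_cast ha
  rw [Dv, F.posT_item hi h0 h1, ← F.Gam_sea hi h0 h1]
  funext j
  simp only [Pi.add_apply, Pi.smul_apply, smul_eq_mul]
  field_simp
  ring

theorem Dv_mul (g h : G d) (τ : ℝ) : F.Dv (g * h) τ = F.Dv g τ + F.Dv h τ := by
  simp only [Dv, G.mul_a, G.mul_b, Int.cast_add, add_smul]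
  abel

theorem Dv_pow (g : G d) (n : ℕ) (τ : ℝ) : F.Dv (g ^ n) τ = (n : ℝ) • F.Dv g τ := by
  simp only [Dv, G.pow_a, G.pow_b, Int.cast_mul, Int.cast_natCast, mul_smul, smul_add]

theorem co_Gam (τ : ℝ) : co (F.Gam τ) 0 = 0 := by
  unfold co
  split_ifs <;> simp [Gam, Vd]

theorem co_X (χ : ℕ → ℝ → ℝ) : co (F.X χ) 0 = 0 := by
  unfold co
  split_ifs <;> simp [X, Vd]

theorem co_Dv (hd : 1 ≤ d) (g : G d) (τ : ℝ) : co (F.Dv g τ) 0 = g.b := by
  rw [Dv, co_add, co_smul, co_smul, co_Gam, co_Vd_zero hd, mul_zero, mul_one, add_zero]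

theorem co_yF (hd : 1 ≤ d) : co F.yF 0 = ∑ i ∈ range F.m, F.nu i * ((F.Y i).b : ℝ) := by
  rw [co, dif_pos (show 0 < d from hd)]
  simp [yF, Vd]

theorem co_Del (hd : 1 ≤ d) (T : ℝ) (w : List (G d)) (τ : ℕ → ℝ) (χ : ℕ → ℝ → ℝ) :
    co (F.Del T w τ χ) 0 = 0 := by
  have : co (jy F.yF) 0 = 0 := by
    rw [co, dif_pos (show 0 < d from hd)]
    simp [jy]
  rw [Del, co_sub, co_sub, co_add, co_smul, this, co_X, co_sum, co_nx_zero, G.prod_b]
  simp [F.co_Dv hd]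

theorem sum_DvI : ∑ i ∈ range F.m, F.nu i • F.DvI i = F.yF + jy F.yF := by
  funext j
  have key : ∀ i ∈ range F.m, F.nu i * F.DvI i j =
      (1 + (j : ℕ)) * (∫ s in (0 : ℝ)..1, F.nu i * ((F.Y i).b : ℝ) * Vd 0 (F.pt i s) j) +
        (F.pos (i + 1) * F.Gam (i + 1 : ℕ) j - F.pos i * F.Gam i j) := by
    intro i hi
    have hi := mem_range.1 hi
    have e1 := congrFun (F.Gam_sea hi zero_le_one le_rfl) j
    have e2 := F.Gam_item hi le_rfl zero_le_one j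
    have e3 := intervalIntegral.integral_eq_sub_of_hasDerivAt (a := 0) (b := 1)
      (f := fun s => F.nu i * ((F.Y i).b : ℝ) * (s * Vd 0 (F.pt i s) j))
      (f' := fun s => (1 + (j : ℕ)) * (F.nu i * ((F.Y i).b : ℝ) * Vd 0 (F.pt i s) j) -
        F.pos i * (F.nu i * ((F.Y i).b : ℝ) * Vd 1 (F.pt i s) j))
      (fun r _ => by
        refine (((hasDerivAt_id' r).mul (F.hasDerivAt_pt i 0 j r)).const_mul
          (F.nu i * ((F.Y i).b : ℝ))).congr_deriv ?_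
        have := congrFun (smul_Vd_one (d := d) (F.pt i r)) j
        simp only [Pi.smul_apply, smul_eq_mul, jy, pt] at this ⊢
        linear_combination (F.nu i * ((F.Y i).b : ℝ)) * this)
      (((F.ii i 0 j _ 0 1).const_mul _).sub ((F.ii i 1 j _ 0 1).const_mul _))
    rw [intervalIntegral.integral_sub ((F.ii i 0 j _ 0 1).const_mul _)
      ((F.ii i 1 j _ 0 1).const_mul _), intervalIntegral.integral_const_mul,
      intervalIntegral.integral_const_mul (F.pos i)] at e3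
    simp only [Pi.add_apply, Pi.smul_apply, smul_eq_mul] at e1
    rw [add_zero] at e2
    rw [← e1, e2, pos_succ]
    push_cast
    linear_combination -e3
  simp only [Finset.sum_apply, Pi.smul_apply, smul_eq_mul, Pi.add_apply]
  rw [sum_congr rfl key, sum_add_distrib, ← mul_sum,
    sum_range_sub fun i => F.pos i * F.Gam i j, Gam_last]
  simp [jy, yF, add_mul]

theorem co_cone {S : Finset (G d)} {K0 : ℕ} {e : Fin d → ℝ} (he : e ∈ F.Cone S K0) :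
    co e 0 = 0 := by
  obtain ⟨γ, α, γ', -, -, -, rfl⟩ := he
  simp [co_add, co_sum, co_smul, co_Vd_succ 0, co_Vd_succ 1]

theorem zero_mem_cone (S : Finset (G d)) (K0 : ℕ) : 0 ∈ F.Cone S K0 := by
  exact ⟨0, 0, 0, fun _ => le_rfl, fun _ => le_rfl, fun _ _ => ⟨rfl, rfl⟩, by simp⟩

theorem add_mem_cone {S : Finset (G d)} {K0 : ℕ} {e e' : Fin d → ℝ} (he : e ∈ F.Cone S K0)
    (he' : e' ∈ F.Cone S K0) : e + e' ∈ F.Cone S K0 := by
  obtain ⟨γ, α, γ', h1, h2, h3, rfl⟩ := he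
  obtain ⟨δ, β, δ', k1, k2, k3, rfl⟩ := he'
  refine ⟨γ + δ, α + β, γ' + δ', fun i => add_nonneg (h1 i) (k1 i),
    fun i => add_nonneg (h2 i) (k2 i), fun i hi => by simp [h3 i hi, k3 i hi], ?_⟩
  simp only [Pi.add_apply, add_mul, add_smul, sum_add_distrib]
  abel

theorem smul_mem_cone {S : Finset (G d)} {K0 : ℕ} {e : Fin d → ℝ} (he : e ∈ F.Cone S K0) {c : ℝ}
    (hc : 0 ≤ c) : c • e ∈ F.Cone S K0 := by
  obtain ⟨γ, α, γ', h1, h2, h3, rfl⟩ := he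
  refine ⟨c • γ, c • α, c • γ', fun i => mul_nonneg hc (h1 i), fun i => mul_nonneg hc (h2 i),
    fun i hi => by simp [h3 i hi], ?_⟩
  simp only [Pi.smul_apply, smul_eq_mul, smul_add, smul_sum, smul_smul, mul_assoc]

theorem junction_mem_cone (S : Finset (G d)) (K0 : ℕ) {j : ℕ} (h1 : 1 ≤ j) (hj : j < F.m) :
    (F.om j : ℝ) • Vd 1 (F.pos j) ∈ F.Cone S K0 := by
  refine ⟨Pi.single j 1, 0, 0, fun i => ?_, fun _ => le_rfl, fun _ _ => ⟨rfl, rfl⟩, ?_⟩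
  · rw [Pi.single_apply]
    split_ifs <;> norm_num
  · rw [sum_eq_single_of_mem j (mem_Ico.2 ⟨h1, hj⟩) fun l _ hl => by simp [hl]]
    simp

theorem free_mem_cone {S : Finset (G d)} {K0 i : ℕ} (h : F.Free S K0 i) (α : ℝ) :
    α • Vd 1 (F.pos i) ∈ F.Cone S K0 ∧ ((F.Y i).b : ℝ) • Vd 2 (F.pos i) ∈ F.Cone S K0 := by
  have hi := mem_range.2 h.1
  constructor
  · refine ⟨0, Pi.single i α, 0, fun _ => le_rfl, fun _ => le_rfl,
      fun l hl => ⟨Pi.single_eq_of_ne (fun e : l = i => hl (e ▸ h)) _, rfl⟩, ?_⟩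
    rw [sum_eq_single_of_mem i hi fun l _ hl => by simp [hl]]
    simp
  · refine ⟨0, 0, Pi.single i 1, fun _ => le_rfl, fun l => ?_,
      fun l hl => ⟨rfl, Pi.single_eq_of_ne (fun e : l = i => hl (e ▸ h)) _⟩, ?_⟩
    · rw [Pi.single_apply]
      split_ifs <;> norm_num
    · rw [sum_eq_single_of_mem i hi fun l _ hl => by simp [hl]]
      simp

theorem FP.mono {F : Frame d} {S YY YY' : Finset (G d)} {K0 : ℕ} {C C' Nu : ℝ} {u p : E d}
    (h : F.FP S K0 YY C u p Nu) (hY : YY ⊆ YY') (hC : C ≤ C') : F.FP S K0 YY' C' u p Nu := by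
  obtain ⟨h1, h2, h3, h4, h5, h6, h7⟩ := h
  exact ⟨h1, h2, h3, h4, h5, h6.trans hC, fun i hi =>
    ⟨hY (h7 i hi).1, (h7 i hi).2.1.trans hC, (h7 i hi).2.2.1.trans hC, (h7 i hi).2.2.2⟩⟩

/-- the cost identity -/
theorem FP.cost {F : Frame d} {S YY : Finset (G d)} {K0 : ℕ} {C Nu : ℝ} {u p : E d}
    (h : F.FP S K0 YY C u p Nu) (T : ℝ) (w : List (G d)) (τ : ℕ → ℝ) (χ : ℕ → ℝ → ℝ) :
    Fb T Nu u p w.length w.prod + dot p.2 (F.Del T w τ χ) =
      ∑ k ∈ range w.length, (1 - dot p.2 (F.Dv (lt w k) (τ k)) - p.1 * ((lt w k).a : ℝ)) -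
        dot p.2 (F.X χ) := by
  obtain ⟨-, -, h3, h4, h5, -, h7⟩ := h
  have e : Nu = dot p.2 u.2 + dot p.2 (jy F.yF) + p.1 * u.1 := by
    rw [← h5, ← h3, ← h4, ← dot_add_right, ← sum_DvI, dot_sum_right, pos, mul_sum,
      ← sum_add_distrib]
    refine sum_congr rfl fun i hi => ?_
    rw [(h7 i (mem_range.1 hi)).2.2.2, dot_smul_right]
    ring
  have e2 : (nx T w.prod).1 = ∑ k ∈ range w.length, ((lt w k).a : ℝ) := by
    simp [nx, G.prod_a]
  simp only [Fb, Del, pair, dot_sub_right, dot_add_right, dot_smul_right, dot_sum_right,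
    Prod.fst_sub, Prod.snd_sub, Prod.smul_fst, Prod.smul_snd, smul_eq_mul, sum_sub_distrib,
    ← mul_sum, e2, sum_const, card_range, nsmul_eq_mul]
  rw [e]
  ring

end Frame

theorem PT.mono {S : Finset (G d)} {K : ℕ} {T Nu Ct Ct' δ δ' Rw Rw' KK KK' : ℝ} {u p : E d}
    {X : Set (G d)} (h : PT S K T u p Nu Ct δ Rw KK X) (h1 : Ct ≤ Ct') (h2 : δ ≤ δ')
    (h3 : Rw' ≤ Rw) (h4 : KK ≤ KK') : PT S K T u p Nu Ct' δ' Rw' KK' X := by
  obtain ⟨τ, n, a1, a2, a3, a4⟩ := h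
  refine ⟨τ, n, a1, fun N => (a2 N).trans h1, fun N => (a3 N).trans (by linarith),
    fun g hg => (a4 g (hg.trans h3)).mono fun N hN h hc hn => (hN h hc hn).trans ?_⟩
  split_ifs <;> linarith

end Pool.Agent.P.MP_a0f0ad_al.Fi
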