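import Pool.Agent.P.MP_a0f0ad_al.Fi.Z.Bl
import Pool.Agent.P.MP_a0f0ad_al.Fi.Z.Bq

/-! Toolbox: slack bounds and integrals. -/

namespace Pool.Agent.P.MP_a0f0ad_al.Fi

open Finset MeasureTheory Filter Topology

variable {d : ℕ} {S : Finset (G d)} {D : LD d}

namespace Bm

theorem ev_small (x : ℝ) : ∀ᶠ c in 𝓝[>] (0 : ℝ), x ≠ 0 → c ≤ |x| := by
  by_cases hx : x = 0
  · exact Eventually.of_forall fun _ h => absurd hx h
  · filter_upwards [Ioo_mem_nhdsGT (abs_pos.2 hx)] with c hc _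
    exact hc.2.le

theorem ii_bdd {F φ g : ℝ → ℝ} {C : ℝ} (hF : Measurable F) (hC : ∀ u, |F u| ≤ C)
    (hφ : Continuous φ) (hg : Continuous g) (s t : ℝ) :
    IntervalIntegrable (fun x => F (φ x) * g x) volume s t :=
  ⟨(hg.intervalIntegrable s t).1.bdd_mul (hF.comp hφ.measurable).aestronglyMeasurable
      (Eventually.of_forall fun x => hC (φ x)),
    (hg.intervalIntegrable s t).2.bdd_mul (hF.comp hφ.measurable).aestronglyMeasurable
      (Eventually.of_forall fun x => hC (φ x))⟩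

theorem three {F₁ F₂ : ℝ → ℝ} (h₁ : ∀ s t, IntervalIntegrable F₁ volume s t)
    (h₂ : ∀ s t, IntervalIntegrable F₂ volume s t) (m M m' M' a : ℝ) :
    ((∫ x in m'..M', F₁ x) + (∫ x in m'..0, F₂ x) + ∫ x in a..M', F₂ x) -
      ((∫ x in m..M, F₁ x) + (∫ x in m..0, F₂ x) + ∫ x in a..M, F₂ x) =
      (∫ x in M..M', (F₁ x + F₂ x)) + ∫ x in m'..m, (F₁ x + F₂ x) := by
  have e₁ := fun s t => (intervalIntegral.integral_interval_sub_left (h₁ 0 t) (h₁ 0 s)).symm
  have e₂ := fun s t => (intervalIntegral.integral_interval_sub_left (h₂ 0 t) (h₂ 0 s)).symm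
  rw [intervalIntegral.integral_add (h₁ _ _) (h₂ _ _),
    intervalIntegral.integral_add (h₁ _ _) (h₂ _ _), e₁ m' M', e₁ m M, e₁ M M', e₁ m' m,
    e₂ m' 0, e₂ a M', e₂ m 0, e₂ a M, e₂ M M', e₂ m' m]
  ring

theorem idx_near (D : LD d) {u η x : ℝ} (hk : ∀ k < D.n, η ≤ |u - D.th k|) (hx : |x - u| < η) :
    D.idx x = D.idx u := by
  unfold LD.idx
  refine congrArg card (filter_congr fun k hk' => ?_)
  have h1 := hk k (mem_range.1 hk')
  have h2 := abs_lt.1 hx
  rcases abs_cases (u - D.th k) with h | h <;> constructor <;> intro h3 <;> linarith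

theorem slk_eq (D : LD d) (s : G d) (x : ℝ) : D.slk true s x =
    (1 - (s.a : ℝ) * (((D.A (D.idx x)).a : ℝ))⁻¹) - ((s.b : ℝ) - s.a * D.kap (D.idx x)) * x := by
  simp only [LD.slk, LD.lam, if_true, LD.lp_eq, LD.kp]
  ring

theorem om_concave (h : D.Spec S) {a b x y : ℝ} (ha : 0 ≤ a) (hb : 0 ≤ b) (hab : a + b = 1) :
    a * D.om x + b * D.om y ≤ D.om (a * x + b * y) := by
  have h1 := h.lp_concave.2 (Set.mem_univ x) (Set.mem_univ y) ha hb hab
  have h2 := h.lp_concave.2 (Set.mem_univ (-x)) (Set.mem_univ (-y)) ha hb hab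
  simp only [smul_eq_mul] at h1 h2
  rw [show a * -x + b * -y = -(a * x + b * y) by ring] at h2
  unfold LD.om
  linarith

theorem om_abs (D : LD d) (u : ℝ) : D.om |u| = D.om u := by
  rcases abs_cases u with h | h <;> rw [h.1]
  exact D.om_neg u

theorem abs_ThA (h : D.Spec S) {w : ℝ} (hw : w ∈ D.ThA) : |w| ≤ D.Q := by
  have hQ := h.Qpos
  rcases hw with rfl | rfl | ⟨k, hk, rfl | rfl⟩
  · exact (abs_of_pos hQ).le
  · rw [abs_neg]
    exact (abs_of_pos hQ).le
  · exact (abs_lt.2 (h.thQ k hk)).le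
  · rw [abs_neg]
    exact (abs_lt.2 (h.thQ k hk)).le

theorem deriv_lp (h : D.Spec S) (q : Fin d → ℝ) (σ : ℝ) : ∃ T : Set ℝ, T.Countable ∧ ∀ x ∉ T,
    HasDerivAt (fun x => D.lp (σ * ev q 0 x)) (-D.kp (σ * ev q 0 x) * (σ * ev q 1 x)) x := by
  by_cases hq : σ ≠ 0 ∧ Nonconst q
  · refine ⟨⋃ k, {x | ev q 0 x = D.th k / σ},
      Set.countable_iUnion fun k => (hq.2.finite_level _).1.countable, fun x hx => ?_⟩
    refine (h.hasDerivAt_lp fun k _ e => hx (Set.mem_iUnion.2 ⟨k, ?_⟩)).comp x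
      ((hasDerivAt_ev q 0 x).const_mul σ)
    show ev q 0 x = D.th k / σ
    rw [← e, mul_div_cancel_left₀ _ hq.1]
  · have key : ∃ c, ∀ x, σ * ev q 0 x = c ∧ σ * ev q 1 x = 0 := by
      by_cases h0 : σ = 0
      · exact ⟨0, fun x => by simp [h0]⟩
      · have h1 : ¬ Nonconst q := fun h1 => hq ⟨h0, h1⟩
        exact ⟨σ * co q 0, fun x => by
          rw [(not_nonconst h1 x).1, (not_nonconst h1 x).2 0, mul_zero]
          exact ⟨rfl, rfl⟩⟩
    obtain ⟨c, hc⟩ := key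
    refine ⟨∅, Set.countable_empty, fun x _ => ?_⟩
    simp only [fun x => (hc x).1, (hc x).2, mul_zero]
    exact hasDerivAt_const x _

end Bm

namespace LD

namespace Spec

/-- quantitative slack -/
theorem exists_slack (h : D.Spec S) : ∃ c : ℝ, 0 < c ∧ c ≤ 1 ∧
    (∀ u, |u| ≤ D.Q → c * (D.Q - |u|) ≤ D.om u) ∧
    (0 < D.om D.Q → ∀ u, |u| ≤ D.Q → c ≤ D.om u) ∧
    (∀ w ∈ D.ThA, ∀ w' ∈ D.ThA, w ≠ w' → c ≤ |w - w'|) ∧
    (∀ k < D.n, c ≤ D.kap (k + 1) - D.kap k) ∧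
    (∀ up, ∀ s ∈ S, ∀ w ∈ D.ThA, D.slk up s w = 0 ∨ c ≤ D.slk up s w) ∧
    ∀ s ∈ S, ∀ u η, |u| ≤ D.Q → 0 ≤ η → η ≤ D.Q - |u| → (∀ k < D.n, η ≤ |u - D.th k|) →
      ¬ (s.a = (D.A (D.idx u)).a ∧ s.b = (D.A (D.idx u)).b) → c * η ≤ D.slk true s u := by
  have hQ := h.Qpos
  have h0 : 0 < D.om 0 := by
    have := h.lp_zero_pos
    unfold LD.om
    rw [neg_zero]
    linarith
  have e3 : ∀ᶠ c in 𝓝[>] (0 : ℝ), ∀ w ∈ D.ThA, ∀ w' ∈ D.ThA, w - w' ≠ 0 → c ≤ |w - w'| :=
    (eventually_all_finite D.finite_ThA).2 fun w _ =>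
      (eventually_all_finite D.finite_ThA).2 fun w' _ => Bm.ev_small _
  have e4 : ∀ᶠ c in 𝓝[>] (0 : ℝ), ∀ k ∈ range D.n,
      D.kap (k + 1) - D.kap k ≠ 0 → c ≤ |D.kap (k + 1) - D.kap k| :=
    (eventually_all_finset _).2 fun k _ => Bm.ev_small _
  have e5 : ∀ᶠ c in 𝓝[>] (0 : ℝ), ∀ up, ∀ s ∈ S, ∀ w ∈ D.ThA,
      D.slk up s w ≠ 0 → c ≤ |D.slk up s w| :=
    eventually_all.2 fun up => (eventually_all_finset _).2 fun s _ =>
      (eventually_all_finite D.finite_ThA).2 fun w _ => Bm.ev_small _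
  have e6 : ∀ᶠ c in 𝓝[>] (0 : ℝ), ∀ s ∈ S, ∀ k ∈ range (D.n + 1),
      (((s.b : ℝ) - s.a * D.kap k) / 2 ≠ 0 → c ≤ |((s.b : ℝ) - s.a * D.kap k) / 2|) ∧
      ((1 - (s.a : ℝ) * (((D.A k).a : ℝ))⁻¹) / D.Q ≠ 0 →
        c ≤ |(1 - (s.a : ℝ) * (((D.A k).a : ℝ))⁻¹) / D.Q|) :=
    (eventually_all_finset _).2 fun s _ => (eventually_all_finset _).2 fun k _ =>
      (Bm.ev_small _).and (Bm.ev_small _)
  have e0 : ∀ᶠ c in 𝓝[>] (0 : ℝ), c ∈ Set.Ioo (0 : ℝ) 1 := Ioo_mem_nhdsGT zero_lt_one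
  obtain ⟨c, ⟨hc, h1, h2⟩, h3, h4, h5, h6⟩ := ((e0.and ((Bm.ev_small (D.om 0 / D.Q)).and
      (Bm.ev_small (D.om D.Q)))).and (e3.and (e4.and (e5.and e6)))).exists
  have h1' := h1 (div_pos h0 hQ).ne'
  rw [abs_of_pos (div_pos h0 hQ)] at h1'
  refine ⟨c, hc.1, hc.2.le, fun u hu => ?_, fun hp u hu => ?_,
    fun w hw w' hw' hne => h3 w hw w' hw' (sub_ne_zero.2 hne), fun k hk => ?_,
    fun up s hs w hw => ?_, fun s hs u η hu hη hηQ hk hne => ?_⟩
  · have k1 := Bm.om_concave h (x := D.Q) (y := 0) (a := |u| / D.Q) (b := (D.Q - |u|) / D.Q)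
      (by positivity) (div_nonneg (by linarith) hQ.le) (by field_simp; ring)
    rw [mul_zero, add_zero, div_mul_cancel₀ _ hQ.ne', Bm.om_abs] at k1
    have k2 : 0 ≤ |u| / D.Q * D.om D.Q := mul_nonneg (by positivity) h.om_Q_nonneg
    have k3 := mul_le_mul_of_nonneg_right h1' (sub_nonneg.2 hu)
    have k4 : D.om 0 / D.Q * (D.Q - |u|) = (D.Q - |u|) / D.Q * D.om 0 := by ring
    linarith
  · have hu' := abs_le.1 hu
    have k1 := Bm.om_concave h (x := D.Q) (y := -D.Q) (a := (D.Q + u) / (2 * D.Q))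
      (b := (D.Q - u) / (2 * D.Q)) (div_nonneg (by linarith) (by linarith))
      (div_nonneg (by linarith) (by linarith)) (by field_simp; ring)
    rw [D.om_neg, ← add_mul, show (D.Q + u) / (2 * D.Q) + (D.Q - u) / (2 * D.Q) = 1 by
      field_simp; ring, show (D.Q + u) / (2 * D.Q) * D.Q + (D.Q - u) / (2 * D.Q) * -D.Q = u by
      field_simp; ring, one_mul] at k1
    have k2 := h2 hp.ne'
    rw [abs_of_pos hp] at k2
    linarith
  · have k1 := sub_pos.2 (h.kapmono k hk)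
    have k2 := h4 k (mem_range.2 hk) k1.ne'
    rwa [abs_of_pos k1] at k2
  · by_cases e : D.slk up s w = 0
    · exact Or.inl e
    · have k1 := h5 up s hs w hw e
      rw [abs_of_nonneg (h.slk_nn up hs (Bm.abs_ThA h hw))] at k1
      exact Or.inr k1
  · have hn := h.slk_nonneg s hs u hu
    rcases hη.eq_or_lt with rfl | hη'
    · rwa [mul_zero]
    obtain ⟨k1, k2⟩ := h6 s hs (D.idx u) (mem_range.2 (Nat.lt_succ_of_le (D.idx_le u)))
    have hu0 := abs_nonneg u
    by_cases e : ((s.b : ℝ) - s.a * D.kap (D.idx u)) / 2 = 0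
    · have e' : (s.b : ℝ) - s.a * D.kap (D.idx u) = 0 := by linarith
      have k3 : D.slk true s u ≠ 0 := fun e0 => hne (h.slk_zero s hs u (by linarith)
        (fun k hk' e1 => by
          have := hk k hk'
          rw [e1, sub_self, abs_zero] at this
          linarith) e0)
      have k4 := Bm.slk_eq D s u
      rw [e', zero_mul, sub_zero] at k4
      rw [← k4] at k2
      have k5 := k2 (div_ne_zero k3 hQ.ne')
      rw [abs_of_nonneg (div_nonneg hn hQ.le), le_div_iff₀ hQ] at k5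
      have k6 := mul_le_mul_of_nonneg_left (show η ≤ D.Q by linarith) hc.1.le
      linarith
    · have k3 := mul_le_mul_of_nonneg_right (k1 e) hη
      have k4 : ∀ x, |x - u| = η / 2 → 0 ≤ (1 - (s.a : ℝ) * (((D.A (D.idx u)).a : ℝ))⁻¹) -
          ((s.b : ℝ) - s.a * D.kap (D.idx u)) * x := fun x hx => by
        have k5 := h.slk_nonneg s hs x (by
          have := abs_sub_abs_le_abs_sub x u
          linarith)
        rwa [Bm.slk_eq, Bm.idx_near D hk (x := x) (by linarith)] at k5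
      have k5 := k4 (u + η / 2) (by rw [add_sub_cancel_left, abs_of_pos (by linarith)])
      have k6 := k4 (u - η / 2) (by rw [sub_sub_cancel_left, abs_neg, abs_of_pos (by linarith)])
      rw [Bm.slk_eq]
      rcases abs_cases (((s.b : ℝ) - s.a * D.kap (D.idx u)) / 2) with k7 | k7 <;>
        rw [k7.1] at k3 <;> linarith

theorem ii_kp (h : D.Spec S) {φ g : ℝ → ℝ} (hφ : Continuous φ) (hg : Continuous g) (s t : ℝ) :
    IntervalIntegrable (fun x => D.kp (φ x) * g x) volume s t :=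
  let ⟨_, hC⟩ := h.exists_bound
  Bm.ii_bdd h.measurable_kp hC.2.1 hφ hg s t

theorem ii_be (h : D.Spec S) {φ g : ℝ → ℝ} (hφ : Continuous φ) (hg : Continuous g) (s t : ℝ) :
    IntervalIntegrable (fun x => D.be (φ x) * g x) volume s t :=
  let ⟨_, hC⟩ := h.exists_bound
  Bm.ii_bdd h.measurable_be hC.2.2.1 hφ hg s t

theorem ii_inv_a (h : D.Spec S) {φ : ℝ → ℝ} (hφ : Continuous φ) (s t : ℝ) :
    IntervalIntegrable (fun x => (((D.A (D.idx (φ x))).a : ℝ))⁻¹) volume s t := by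
  have k := Bm.ii_bdd (F := fun u => (((D.A (D.idx u)).a : ℝ))⁻¹) (C := 1) (g := fun _ => 1)
    ((measurable_from_nat (f := fun k => (((D.A k).a : ℝ))⁻¹)).comp D.measurable_idx)
    (fun u => by
      have h1 : (1 : ℝ) ≤ (D.A (D.idx u)).a := by
        exact_mod_cast (h.memA _ (D.idx_le u)).2
      rw [abs_of_nonneg (by positivity)]
      exact inv_le_one_of_one_le₀ h1) hφ continuous_const s t
  simpa only [mul_one] using k

/-- integration by parts along a polynomial -/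
theorem int_kp (h : D.Spec S) (q : Fin d → ℝ) (σ : ℝ) {g g' : ℝ → ℝ}
    (hg : ∀ x, HasDerivAt g (g' x) x) (hg' : Continuous g') (s t : ℝ) :
    ∫ x in s..t, D.kp (σ * ev q 0 x) * (σ * ev q 1 x * g x) =
      D.lp (σ * ev q 0 s) * g s - D.lp (σ * ev q 0 t) * g t +
        ∫ x in s..t, D.lp (σ * ev q 0 x) * g' x := by
  obtain ⟨T, hT, hd⟩ := Bm.deriv_lp h q σ
  have cg : Continuous g := continuous_iff_continuousAt.2 fun x => (hg x).continuousAt
  have cφ : Continuous fun x => σ * ev q 0 x := by fun_prop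
  have cl : Continuous fun x => D.lp (σ * ev q 0 x) := h.continuous_lp.comp cφ
  have i1 : IntervalIntegrable (fun x => D.kp (σ * ev q 0 x) * (σ * ev q 1 x * g x)) volume s t :=
    h.ii_kp cφ (by fun_prop) s t
  have i2 : IntervalIntegrable (fun x => D.lp (σ * ev q 0 x) * g' x) volume s t :=
    (cl.mul hg').intervalIntegrable s t
  have k := integral_eq_of_hasDerivAt_off_countable (fun x => D.lp (σ * ev q 0 x) * g x)
    (fun x => D.lp (σ * ev q 0 x) * g' x - D.kp (σ * ev q 0 x) * (σ * ev q 1 x * g x)) hT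
    (cl.mul cg).continuousOn (fun x hx => ((hd x hx.2).mul (hg x)).congr_deriv (by ring))
    (i2.sub i1)
  rw [intervalIntegral.integral_sub i2 i1] at k
  linarith

theorem int_be (h : D.Spec S) (q : Fin d → ℝ) {g g' : ℝ → ℝ}
    (hg : ∀ x, HasDerivAt g (g' x) x) (hg' : Continuous g') (s t : ℝ) :
    ∫ x in s..t, D.be (ev q 0 x) * (ev q 1 x * g x) =
      D.om (ev q 0 s) * g s - D.om (ev q 0 t) * g t +
        ∫ x in s..t, D.om (ev q 0 x) * g' x := by
  have cg : Continuous g := continuous_iff_continuousAt.2 fun x => (hg x).continuousAt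
  have c1 : Continuous (ev q 0) := continuous_ev q 0
  have c2 : Continuous fun x => -ev q 0 x := c1.neg
  have k1 := h.int_kp q 1 hg hg' s t
  have k2 := h.int_kp q (-1) hg hg' s t
  simp only [one_mul, neg_mul, mul_neg, intervalIntegral.integral_neg] at k1 k2
  simp only [LD.be, LD.om, sub_mul, add_mul]
  have cl := h.continuous_lp
  rw [intervalIntegral.integral_sub (h.ii_kp c1 (by fun_prop) s t) (h.ii_kp c2 (by fun_prop) s t),
    intervalIntegral.integral_add (Continuous.intervalIntegrable (by fun_prop) s t)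
      (Continuous.intervalIntegrable (by fun_prop) s t)]
  linarith

theorem dot_Yq (h : D.Spec S) (q f : Fin d → ℝ) (m M a : ℝ) :
    dot f (D.Yq q m M a) = (∫ x in m..M, D.kp (ev q 0 x) * ev f 0 x) -
      (∫ x in m..0, D.kp (-ev q 0 x) * ev f 0 x) - ∫ x in a..M, D.kp (-ev q 0 x) * ev f 0 x := by
  have i : ∀ {φ : ℝ → ℝ}, Continuous φ → ∀ s t,
      IntervalIntegrable (fun x => D.kp (φ x)) volume s t := fun hφ s t => by
    simpa only [mul_one] using h.ii_kp (g := fun _ => 1) hφ continuous_const s t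
  have c1 : Continuous (ev q 0) := continuous_ev q 0
  have c2 : Continuous fun x => -ev q 0 x := c1.neg
  rw [← dot_integral f _ 0 m M (i c1 _ _), ← dot_integral f _ 0 m 0 (i c2 _ _),
    ← dot_integral f _ 0 a M (i c2 _ _), ← dot_sub_right, ← dot_sub_right]
  rfl

theorem Bf_sub (h : D.Spec S) (q : Fin d → ℝ) (m M m' M' : ℝ) (u : E d) :
    D.Bf q m' M' u - D.Bf q m M u =
      (∫ x in M..M', D.om (ev q 0 x)) + ∫ x in m'..m, D.om (ev q 0 x) := by
  have c1 : Continuous (ev q 0) := continuous_ev q 0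
  have k := Bm.three (F₁ := fun x => D.lp (ev q 0 x)) (F₂ := fun x => D.lp (-ev q 0 x))
    (h.continuous_lp.comp c1).intervalIntegrable (h.continuous_lp.comp c1.neg).intervalIntegrable
    m M m' M' u.1
  simp only [LD.Bf, LD.om]
  linarith

theorem dot_Yq_sub (h : D.Spec S) (q f : Fin d → ℝ) (m M m' M' a : ℝ) :
    dot f (D.Yq q m' M' a) - dot f (D.Yq q m M a) = D.Ib q f M M' + D.Ib q f m' m := by
  have c1 : Continuous (ev q 0) := continuous_ev q 0
  have k := Bm.three (F₁ := fun x => D.kp (ev q 0 x) * ev f 0 x)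
    (F₂ := fun x => -(D.kp (-ev q 0 x) * ev f 0 x)) (h.ii_kp c1 (continuous_ev f 0))
    (fun s t => (h.ii_kp c1.neg (continuous_ev f 0) s t).neg) m M m' M' a
  simp only [intervalIntegral.integral_neg, ← sub_eq_add_neg] at k
  simp only [h.dot_Yq, LD.Ib, LD.be, sub_mul]
  linarith

end Spec

end LD

end Pool.Agent.P.MP_a0f0ad_al.Fi
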