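import Pool.Agent.P.MP_a0f0ad_al.Fi.Z.Grp

/-! Toolbox: coefficient vectors and polynomials. -/

namespace Pool.Agent.P.MP_a0f0ad_al.Fi

open Finset

variable {d : ℕ}

theorem dot_comm (q y : Fin d → ℝ) : dot q y = dot y q := by
  simp only [dot, mul_comm]
theorem dot_add_left (q q' y : Fin d → ℝ) : dot (q + q') y = dot q y + dot q' y := by
  simp only [dot, Pi.add_apply, add_mul, Finset.sum_add_distrib]
theorem dot_add_right (q y y' : Fin d → ℝ) : dot q (y + y') = dot q y + dot q y' := by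
  simp only [dot, Pi.add_apply, mul_add, Finset.sum_add_distrib]
theorem dot_sub_left (q q' y : Fin d → ℝ) : dot (q - q') y = dot q y - dot q' y := by
  simp only [dot, Pi.sub_apply, sub_mul, Finset.sum_sub_distrib]
theorem dot_sub_right (q y y' : Fin d → ℝ) : dot q (y - y') = dot q y - dot q y' := by
  simp only [dot, Pi.sub_apply, mul_sub, Finset.sum_sub_distrib]
theorem dot_smul_left (c : ℝ) (q y : Fin d → ℝ) : dot (c • q) y = c * dot q y := by
  simp only [dot, Pi.smul_apply, smul_eq_mul, Finset.mul_sum, mul_assoc]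
theorem dot_smul_right (c : ℝ) (q y : Fin d → ℝ) : dot q (c • y) = c * dot q y := by
  rw [dot_comm, dot_smul_left, dot_comm]
theorem dot_neg_left (q y : Fin d → ℝ) : dot (-q) y = -dot q y := by
  simp only [dot, Pi.neg_apply, neg_mul, Finset.sum_neg_distrib]
theorem dot_neg_right (q y : Fin d → ℝ) : dot q (-y) = -dot q y := by
  simp only [dot, Pi.neg_apply, mul_neg, Finset.sum_neg_distrib]
@[simp] theorem dot_zero_left (y : Fin d → ℝ) : dot 0 y = 0 := by
  simp [dot]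
@[simp] theorem dot_zero_right (q : Fin d → ℝ) : dot q 0 = 0 := by
  simp [dot]
theorem dot_sum_right {ι : Type} (s : Finset ι) (q : Fin d → ℝ) (y : ι → Fin d → ℝ) :
    dot q (∑ l ∈ s, y l) = ∑ l ∈ s, dot q (y l) := by
  simp only [dot, Finset.sum_apply, Finset.mul_sum]
  exact Finset.sum_comm
theorem abs_dot_le (q y : Fin d → ℝ) : |dot q y| ≤ d * ‖q‖ * ‖y‖ := by
  calc |dot q y| ≤ ∑ j, |q j * y j| := Finset.abs_sum_le_sum_abs _ _
    _ ≤ ∑ _j : Fin d, ‖q‖ * ‖y‖ := by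
      refine Finset.sum_le_sum fun j _ => ?_
      rw [abs_mul]
      exact mul_le_mul (norm_le_pi_norm q j) (norm_le_pi_norm y j) (abs_nonneg _) (norm_nonneg _)
    _ = d * ‖q‖ * ‖y‖ := by simp [mul_assoc]
theorem abs_pair_le (p u : E d) : |pair p u| ≤ (d + 1) * ‖p‖ * ‖u‖ := by
  have h1 : |p.1 * u.1| ≤ ‖p‖ * ‖u‖ := by
    rw [abs_mul]
    exact mul_le_mul (norm_fst_le p) (norm_fst_le u) (abs_nonneg _) (norm_nonneg _)
  have h2 : |dot p.2 u.2| ≤ d * (‖p‖ * ‖u‖) := by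
    refine (abs_dot_le _ _).trans ?_
    rw [mul_assoc]
    exact mul_le_mul_of_nonneg_left
      (mul_le_mul (norm_snd_le p) (norm_snd_le u) (norm_nonneg _) (norm_nonneg _))
      (Nat.cast_nonneg d)
  have h3 := abs_add_le (p.1 * u.1) (dot p.2 u.2)
  unfold pair
  linarith
theorem pair_add (p u u' : E d) : pair p (u + u') = pair p u + pair p u' := by
  simp only [pair, Prod.fst_add, Prod.snd_add, dot_add_right]; ring
theorem pair_sub (p u u' : E d) : pair p (u - u') = pair p u - pair p u' := by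
  simp only [pair, Prod.fst_sub, Prod.snd_sub, dot_sub_right]; ring
theorem pair_smul (c : ℝ) (p u : E d) : pair p (c • u) = c * pair p u := by
  simp only [pair, Prod.smul_fst, Prod.smul_snd, dot_smul_right, smul_eq_mul]; ring
theorem dot_single_left (j : Fin d) (y : Fin d → ℝ) : dot (Pi.single j 1) y = y j := by
  simp [dot, Pi.single_apply]
theorem eq_of_dot_eq {y y' : Fin d → ℝ} (h : ∀ f, dot f y = dot f y') : y = y' := by
  funext j
  rw [← dot_single_left j y, h, dot_single_left]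
theorem norm_le_of_dot_le {y : Fin d → ℝ} {c : ℝ} (hc : 0 ≤ c)
    (h : ∀ f, ‖f‖ ≤ 1 → |dot f y| ≤ c) : ‖y‖ ≤ c := by
  refine (pi_norm_le_iff_of_nonneg hc).2 fun j => ?_
  have := h (Pi.single j 1) (by simp [Pi.norm_single])
  rwa [dot_single_left] at this
theorem dot_integral (q : Fin d → ℝ) (g : ℝ → ℝ) (k : ℕ) (s t : ℝ)
    (hg : IntervalIntegrable g MeasureTheory.volume s t) :
    dot q (fun j => ∫ x in s..t, g x * Vd k x j) = ∫ x in s..t, g x * ev q k x := by
  have h1 : ∀ j : Fin d, IntervalIntegrable (fun x => q j * (g x * Vd k x j))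
      MeasureTheory.volume s t := fun j => by
    refine IntervalIntegrable.const_mul ?_ _
    refine hg.mul_continuousOn ?_
    unfold Vd
    fun_prop
  have h2 : (fun x => g x * ev q k x) = fun x => ∑ j, q j * (g x * Vd k x j) := by
    funext x
    simp only [ev, dot, Finset.mul_sum]
    exact Finset.sum_congr rfl fun j _ => by ring
  rw [h2, intervalIntegral.integral_finsetSum fun j _ => h1 j]
  simp only [dot, intervalIntegral.integral_const_mul]
theorem ev_add (q q' : Fin d → ℝ) (k : ℕ) (x : ℝ) : ev (q + q') k x = ev q k x + ev q' k x :=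
  dot_add_left _ _ _
theorem ev_sub (q q' : Fin d → ℝ) (k : ℕ) (x : ℝ) : ev (q - q') k x = ev q k x - ev q' k x :=
  dot_sub_left _ _ _
theorem ev_smul (c : ℝ) (q : Fin d → ℝ) (k : ℕ) (x : ℝ) : ev (c • q) k x = c * ev q k x :=
  dot_smul_left _ _ _
theorem ev_neg (q : Fin d → ℝ) (k : ℕ) (x : ℝ) : ev (-q) k x = -ev q k x :=
  dot_neg_left _ _
@[simp] theorem ev_zero (k : ℕ) (x : ℝ) : ev (0 : Fin d → ℝ) k x = 0 :=
  dot_zero_left _
theorem hasDerivAt_Vd (k : ℕ) (j : Fin d) (x : ℝ) :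
    HasDerivAt (fun x => Vd k x j) (Vd (k + 1) x j) x := by
  have h := (hasDerivAt_pow ((j : ℕ) - k) x).const_mul ((((j : ℕ).descFactorial k : ℕ)) : ℝ)
  have e : Vd (k + 1) x j = (((j : ℕ).descFactorial k : ℕ) : ℝ) *
      ((((j : ℕ) - k : ℕ) : ℝ) * x ^ ((j : ℕ) - k - 1)) := by
    simp only [Vd, Nat.descFactorial_succ, Nat.cast_mul, Nat.sub_sub]
    ring
  rw [e]
  exact h
theorem hasDerivAt_Vd' (k : ℕ) (x : ℝ) :
    HasDerivAt (fun x => (Vd k x : Fin d → ℝ)) (Vd (k + 1) x) x :=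
  hasDerivAt_pi.2 fun j => hasDerivAt_Vd k j x
theorem hasDerivAt_ev (q : Fin d → ℝ) (k : ℕ) (x : ℝ) :
    HasDerivAt (ev q k) (ev q (k + 1) x) x := by
  have h := HasDerivAt.fun_sum (u := (Finset.univ : Finset (Fin d)))
    (A := fun j x => q j * Vd k x j) (A' := fun j => q j * Vd (k + 1) x j) (x := x)
    fun j _ => (hasDerivAt_Vd k j x).const_mul (q j)
  exact h
@[fun_prop] theorem continuous_Vd (k : ℕ) : Continuous fun x => (Vd k x : Fin d → ℝ) :=
  continuous_iff_continuousAt.2 fun x => (hasDerivAt_Vd' k x).continuousAt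
@[fun_prop] theorem continuous_ev (q : Fin d → ℝ) (k : ℕ) : Continuous (ev q k) :=
  continuous_iff_continuousAt.2 fun x => (hasDerivAt_ev q k x).continuousAt
theorem continuous_ev_uncurry (k : ℕ) :
    Continuous fun z : (Fin d → ℝ) × ℝ => ev z.1 k z.2 := by
  unfold ev dot Vd
  fun_prop
theorem co_Vd_zero (hd : 1 ≤ d) (x : ℝ) : co (Vd 0 x : Fin d → ℝ) 0 = 1 := by
  have h : 0 < d := hd
  simp [co, h, Vd]
theorem co_Vd_succ (k : ℕ) (x : ℝ) : co (Vd (k + 1) x : Fin d → ℝ) 0 = 0 := by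
  unfold co
  split_ifs with h
  · simp [Vd]
  · rfl
theorem smul_Vd_one (x : ℝ) : x • (Vd 1 x : Fin d → ℝ) = jy (Vd 0 x) := by
  funext j
  simp only [Pi.smul_apply, smul_eq_mul, Vd, jy, Nat.descFactorial_one, Nat.descFactorial_zero,
    Nat.cast_one, one_mul, Nat.sub_zero]
  rcases Nat.eq_zero_or_pos (j : ℕ) with h | h
  · simp [h]
  · obtain ⟨n, hn⟩ := Nat.exists_eq_add_of_le' h
    rw [hn, Nat.add_sub_cancel, pow_succ]
    ring
theorem descFactorial_le_fact (j k : ℕ) : j.descFactorial k ≤ j.factorial := by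
  rcases le_or_gt k j with h | h
  · rw [← Nat.factorial_mul_descFactorial h]
    exact Nat.le_mul_of_pos_left _ (Nat.factorial_pos _)
  · rw [Nat.descFactorial_eq_zero_iff_lt.2 h]
    exact Nat.zero_le _
/-- one constant for all derivatives on a bounded set -/
theorem exists_Vd_bound (d : ℕ) (L : ℝ) : ∃ C : ℝ, 1 ≤ C ∧ ∀ (k : ℕ) (x : ℝ), |x| ≤ L →
    ‖(Vd k x : Fin d → ℝ)‖ ≤ C ∧ ∀ q : Fin d → ℝ, |ev q k x| ≤ C * ‖q‖ := by
  have hM : (1 : ℝ) ≤ max 1 L := le_max_left _ _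
  have hf : (1 : ℝ) ≤ (d.factorial : ℝ) := by exact_mod_cast Nat.factorial_pos d
  have hp : (1 : ℝ) ≤ (max 1 L) ^ d := one_le_pow₀ hM
  have h0 : (1 : ℝ) ≤ (d.factorial : ℝ) * (max 1 L) ^ d := one_le_mul_of_one_le_of_one_le hf hp
  have hd : (0 : ℝ) ≤ d := Nat.cast_nonneg d
  have hV : ∀ (k : ℕ) (x : ℝ), |x| ≤ L →
      ‖(Vd k x : Fin d → ℝ)‖ ≤ (d.factorial : ℝ) * (max 1 L) ^ d := fun k x hx => by
    refine (pi_norm_le_iff_of_nonneg (by linarith)).2 fun j => ?_
    rw [Real.norm_eq_abs, Vd, abs_mul, abs_pow, Nat.abs_cast]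
    refine mul_le_mul ?_ ?_ (by positivity) (by positivity)
    · exact_mod_cast (descFactorial_le_fact j k).trans (Nat.factorial_le j.2.le)
    · refine (pow_le_pow_left₀ (abs_nonneg x) (hx.trans (le_max_right 1 L)) _).trans ?_
      exact pow_le_pow_right₀ hM (by have := j.2; omega)
  refine ⟨(d + 1) * ((d.factorial : ℝ) * (max 1 L) ^ d), by nlinarith, fun k x hx => ⟨?_, ?_⟩⟩
  · have := hV k x hx
    nlinarith
  · intro q
    have h1 := abs_dot_le q (Vd k x)
    have h2 := mul_le_mul_of_nonneg_left (hV k x hx) (mul_nonneg hd (norm_nonneg q))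
    have h3 := mul_nonneg (zero_le_one.trans h0) (norm_nonneg q)
    unfold ev
    nlinarith
theorem norm_le_of_deriv_seg {f f' : ℝ → Fin d → ℝ} {x y B : ℝ}
    (hf : ∀ z, HasDerivAt f (f' z) z) (hB : ∀ z ∈ Set.uIcc x y, ‖f' z‖ ≤ B) :
    ‖f y - f x‖ ≤ B * |y - x| :=
  (convex_uIcc x y).norm_image_sub_le_of_norm_hasDerivWithin_le
    (fun z _ => (hf z).hasDerivWithinAt) hB Set.left_mem_uIcc Set.right_mem_uIcc
/-- Taylor formulas of order one, two and three on a bounded set -/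
theorem exists_Vd_taylor (d : ℕ) (L : ℝ) : ∃ C : ℝ, 1 ≤ C ∧ ∀ (k : ℕ) (x y : ℝ), |x| ≤ L → |y| ≤ L →
    ‖(Vd k y - Vd k x : Fin d → ℝ)‖ ≤ C * |y - x| ∧
    ‖(Vd k y - Vd k x - (y - x) • Vd (k + 1) x : Fin d → ℝ)‖ ≤ C * |y - x| ^ 2 ∧
    ‖(Vd k y - Vd k x - (y - x) • Vd (k + 1) x - ((y - x) ^ 2 / 2) • Vd (k + 2) x : Fin d → ℝ)‖ ≤
      C * |y - x| ^ 3 := by
  obtain ⟨C, hC, hb⟩ := exists_Vd_bound d L
  have hC0 : 0 ≤ C := zero_le_one.trans hC
  have hseg : ∀ x y z : ℝ, |x| ≤ L → |y| ≤ L → z ∈ Set.uIcc x y → |z| ≤ L ∧ |z - x| ≤ |y - x| := by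
    intro x y z hx hy hz
    refine ⟨?_, Set.abs_sub_left_of_mem_uIcc hz⟩
    rw [abs_le] at hx hy ⊢
    rcases Set.mem_uIcc.1 hz with h | h <;> constructor <;> linarith [h.1, h.2, hx.1, hx.2]
  have h1 : ∀ (k : ℕ) (x y : ℝ), |x| ≤ L → |y| ≤ L →
      ‖(Vd k y - Vd k x : Fin d → ℝ)‖ ≤ C * |y - x| := fun k x y hx hy =>
    norm_le_of_deriv_seg (hasDerivAt_Vd' k) fun z hz => (hb (k + 1) z (hseg x y z hx hy hz).1).1
  have h2 : ∀ (k : ℕ) (x y : ℝ), |x| ≤ L → |y| ≤ L →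
      ‖(Vd k y - Vd k x - (y - x) • Vd (k + 1) x : Fin d → ℝ)‖ ≤ C * |y - x| ^ 2 := by
    intro k x y hx hy
    have h := norm_le_of_deriv_seg (d := d) (x := x) (y := y) (B := C * |y - x|)
      (f := fun z => Vd k z - (z - x) • Vd (k + 1) x)
      (f' := fun z => Vd (k + 1) z - Vd (k + 1) x)
      (fun z => by
        have := (hasDerivAt_Vd' (d := d) k z).sub
          (((hasDerivAt_id z).sub_const x).smul_const (Vd (k + 1) x : Fin d → ℝ))
        rw [one_smul] at this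
        exact this)
      (fun z hz => (h1 (k + 1) x z hx (hseg x y z hx hy hz).1).trans
        (mul_le_mul_of_nonneg_left (hseg x y z hx hy hz).2 hC0))
    have e : (Vd k y - Vd k x - (y - x) • Vd (k + 1) x : Fin d → ℝ) =
        (Vd k y - (y - x) • Vd (k + 1) x) - (Vd k x - (x - x) • Vd (k + 1) x) := by
      rw [sub_self, zero_smul]; abel
    rw [e, pow_two, ← mul_assoc]
    exact h
  refine ⟨C, hC, fun k x y hx hy => ⟨h1 k x y hx hy, h2 k x y hx hy, ?_⟩⟩
  have h := norm_le_of_deriv_seg (d := d) (x := x) (y := y) (B := C * |y - x| ^ 2)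
    (f := fun z => Vd k z - (z - x) • Vd (k + 1) x - ((z - x) ^ 2 / 2) • Vd (k + 2) x)
    (f' := fun z => Vd (k + 1) z - Vd (k + 1) x - (z - x) • Vd (k + 1 + 1) x)
    (fun z => by
      have a1 : HasDerivAt (fun z : ℝ => (z - x) ^ 2 / 2) (z - x) z := by
        have := (((hasDerivAt_id z).sub_const x).pow 2).div_const 2
        refine this.congr_deriv ?_
        simp
      have := ((hasDerivAt_Vd' (d := d) k z).sub
        (((hasDerivAt_id z).sub_const x).smul_const (Vd (k + 1) x : Fin d → ℝ))).sub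
        (a1.smul_const (Vd (k + 2) x : Fin d → ℝ))
      rw [one_smul] at this
      exact this)
    (fun z hz => (h2 (k + 1) x z hx (hseg x y z hx hy hz).1).trans
      (mul_le_mul_of_nonneg_left
        (pow_le_pow_left₀ (abs_nonneg _) (hseg x y z hx hy hz).2 2) hC0))
  have e : (Vd k y - Vd k x - (y - x) • Vd (k + 1) x - ((y - x) ^ 2 / 2) • Vd (k + 2) x :
      Fin d → ℝ) =
      (Vd k y - (y - x) • Vd (k + 1) x - ((y - x) ^ 2 / 2) • Vd (k + 2) x) -
        (Vd k x - (x - x) • Vd (k + 1) x - ((x - x) ^ 2 / 2) • Vd (k + 2) x) := by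
    simp only [sub_self, zero_smul, ne_eq, OfNat.ofNat_ne_zero, not_false_eq_true, zero_pow,
      zero_div]
    abel
  rw [e, pow_succ |y - x| 2, ← mul_assoc]
  exact h

end Pool.Agent.P.MP_a0f0ad_al.Fi
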