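import Pool.Agent.P.MP_a0f0ad_al.Fi.Z.Defs
import Pool.Agent.P.MP_a0f0ad_al.Fi.Z.Bp
import Pool.Agent.P.MP_a0f0ad_al.Fi.Z.Bg

/-! Toolbox: letter data. -/

namespace Pool.Agent.P.MP_a0f0ad_al.Fi

open Finset MeasureTheory

variable {d : ℕ} {S : Finset (G d)} {D : LD d}

namespace LD

theorem idx_le (D : LD d) (u : ℝ) : D.idx u ≤ D.n :=
  (card_filter_le _ _).trans (card_range _).le

theorem idx_mono (D : LD d) : Monotone D.idx := fun u v huv =>
  card_le_card fun k hk => by
    rw [mem_filter] at hk ⊢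
    exact ⟨hk.1, hk.2.trans_le huv⟩

theorem measurable_idx (D : LD d) : Measurable D.idx := D.idx_mono.measurable

theorem om_neg (D : LD d) (u : ℝ) : D.om (-u) = D.om u := by
  simp only [om, neg_neg, add_comm]

theorem be_neg (D : LD d) (u : ℝ) : D.be (-u) = -D.be u := by
  simp only [be, neg_neg, neg_sub]

theorem finite_ThA (D : LD d) : D.ThA.Finite := by
  refine ((((Set.finite_Iio D.n).image D.th).union
    ((Set.finite_Iio D.n).image fun k => -D.th k)).insert (-D.Q) |>.insert D.Q).subset ?_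
  rintro w (h | h | ⟨k, hk, h | h⟩)
  · exact Or.inl h
  · exact Or.inr (Or.inl h)
  · exact Or.inr (Or.inr (Or.inl ⟨k, hk, h.symm⟩))
  · exact Or.inr (Or.inr (Or.inr ⟨k, hk, h.symm⟩))

theorem neg_mem_ThA (D : LD d) {w : ℝ} (h : w ∈ D.ThA) : -w ∈ D.ThA := by
  rcases h with h | h | ⟨k, hk, h | h⟩
  · exact Or.inr (Or.inl (by rw [h]))
  · exact Or.inl (by rw [h, neg_neg])
  · exact Or.inr (Or.inr ⟨k, hk, Or.inr (by rw [h])⟩)
  · exact Or.inr (Or.inr ⟨k, hk, Or.inl (by rw [h, neg_neg])⟩)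

theorem lp_eq (D : LD d) (u : ℝ) :
    D.lp u = (((D.A (D.idx u)).a : ℝ))⁻¹ - D.kp u * u := by
  simp only [lp, kp, kap]
  ring

/-- the affine map of a vertex -/
noncomputable def aff (D : LD d) (k : ℕ) (u : ℝ) : ℝ := (((D.A k).a : ℝ))⁻¹ - D.kap k * u

theorem lp_eq_aff (D : LD d) (u : ℝ) : D.lp u = D.aff (D.idx u) u := D.lp_eq u

namespace Spec

theorem th_lt (h : D.Spec S) {k l : ℕ} (hkl : k < l) (hl : l < D.n) : D.th k < D.th l := by
  induction l with
  | zero => exact absurd hkl (Nat.not_lt_zero _)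
  | succ l ih =>
    rcases Nat.lt_succ_iff_lt_or_eq.1 hkl with a | a
    · exact (ih a (by omega)).trans (h.thmono l hl)
    · rw [a]; exact h.thmono l hl

theorem kap_lt (h : D.Spec S) {k l : ℕ} (hkl : k < l) (hl : l ≤ D.n) : D.kap k < D.kap l := by
  induction l with
  | zero => exact absurd hkl (Nat.not_lt_zero _)
  | succ l ih =>
    rcases Nat.lt_succ_iff_lt_or_eq.1 hkl with a | a
    · exact (ih a (by omega)).trans (h.kapmono l hl)
    · rw [a]; exact h.kapmono l hl

theorem th_lt_iff (h : D.Spec S) {l : ℕ} (hl : l < D.n) (u : ℝ) : D.th l < u ↔ l < D.idx u := by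
  constructor
  · intro a
    have : range (l + 1) ⊆ (range D.n).filter fun k => D.th k < u := by
      intro k hk
      rw [mem_range] at hk
      rw [mem_filter, mem_range]
      refine ⟨by omega, ?_⟩
      rcases Nat.lt_succ_iff_lt_or_eq.1 hk with b | b
      · exact (h.th_lt b hl).trans a
      · rw [b]; exact a
    have := card_le_card this
    rw [card_range] at this
    exact this
  · intro a
    by_contra b
    have : ((range D.n).filter fun k => D.th k < u) ⊆ range l := by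
      intro k hk
      rw [mem_filter, mem_range] at hk
      rw [mem_range]
      by_contra c
      rcases (not_lt.1 c).lt_or_eq with e | e
      · exact b ((h.th_lt e hk.1).trans hk.2)
      · exact b (e ▸ hk.2)
    have := card_le_card this
    rw [card_range] at this
    exact absurd a (not_lt.2 this)

theorem idx_eq_iff (h : D.Spec S) {k : ℕ} (hk : k ≤ D.n) (u : ℝ) :
    D.idx u = k ↔ (∀ l, l < k → D.th l < u) ∧ (k < D.n → u ≤ D.th k) := by
  constructor
  · rintro rfl
    exact ⟨fun l hl => (h.th_lt_iff (hl.trans_le hk) u).2 hl,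
      fun a => not_lt.1 fun b => lt_irrefl _ ((h.th_lt_iff a u).1 b)⟩
  · rintro ⟨a, b⟩
    refine le_antisymm (not_lt.1 fun c => ?_) (not_lt.1 fun c => ?_)
    · have e : k < D.n := c.trans_le (D.idx_le u)
      exact absurd ((h.th_lt_iff e u).2 c) (not_lt.2 (b e))
    · exact lt_irrefl _ ((h.th_lt_iff (c.trans_le hk) u).1 (a _ c))

theorem idx_th (h : D.Spec S) {k : ℕ} (hk : k < D.n) : D.idx (D.th k) = k :=
  (h.idx_eq_iff hk.le _).2 ⟨fun _ hl => h.th_lt hl hk, fun _ => le_rfl⟩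

theorem idx_Q (h : D.Spec S) {u : ℝ} (hu : D.Q ≤ u) : D.idx u = D.n :=
  (h.idx_eq_iff le_rfl _).2 ⟨fun l hl => (h.thQ l hl).2.trans_le hu,
    fun a => absurd a (lt_irrefl _)⟩

theorem idx_negQ (h : D.Spec S) {u : ℝ} (hu : u ≤ -D.Q) : D.idx u = 0 :=
  (h.idx_eq_iff (Nat.zero_le _) _).2 ⟨fun _ hl => absurd hl (Nat.not_lt_zero _),
    fun a => hu.trans (h.thQ 0 a).1.le⟩

theorem idx_eventually (h : D.Spec S) {u : ℝ} (hu : ∀ k < D.n, u ≠ D.th k) :
    ∀ᶠ u' in nhds u, D.idx u' = D.idx u := by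
  have _ := h
  have : ∀ᶠ u' in nhds u, ∀ k ∈ range D.n, (D.th k < u' ↔ D.th k < u) := by
    refine (Filter.eventually_all_finset _).2 fun k hk => ?_
    rcases lt_or_gt_of_ne (hu k (mem_range.1 hk)) with a | a
    · filter_upwards [gt_mem_nhds a] with u' b
      exact iff_of_false (not_lt.2 b.le) (not_lt.2 a.le)
    · filter_upwards [lt_mem_nhds a] with u' b
      exact iff_of_true b a
  filter_upwards [this] with u' a
  unfold idx
  rw [filter_congr a]

theorem a_pos (h : D.Spec S) {k : ℕ} (hk : k ≤ D.n) : (0 : ℝ) < ((D.A k).a : ℝ) := by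
  exact_mod_cast (h.memA k hk).2

theorem K0_pos (h : D.Spec S) : 0 < D.K0 :=
  prod_pos fun k hk => by
    have := (h.memA k (Nat.lt_succ_iff.1 (mem_range.1 hk))).2
    omega

theorem dvd_K0 (h : D.Spec S) {k : ℕ} (hk : k ≤ D.n) :
    ∃ t : ℕ, 0 < t ∧ (t : ℤ) * (D.A k).a = D.K0 := by
  have e := prod_erase_mul (range (D.n + 1)) (fun k => (D.A k).a.toNat)
    (mem_range.2 (Nat.lt_succ_of_le hk))
  refine ⟨∏ l ∈ (range (D.n + 1)).erase k, (D.A l).a.toNat, ?_, ?_⟩
  · refine prod_pos fun l hl => ?_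
    have := (h.memA l (Nat.lt_succ_iff.1 (mem_range.1 (mem_of_mem_erase hl)))).2
    omega
  · rw [K0, ← e, Nat.cast_mul, Int.toNat_of_nonneg (h.memA k hk).2.le]

theorem aff_succ (h : D.Spec S) {k : ℕ} (hk : k < D.n) (u : ℝ) :
    D.aff (k + 1) u - D.aff k u = (D.kap (k + 1) - D.kap k) * (D.th k - u) := by
  have e := h.cont k hk
  have e1 : (1 - ((D.A k).b : ℝ) * D.th k) / ((D.A k).a : ℝ) = D.aff k (D.th k) := by
    simp only [aff, kap]; ring
  have e2 : (1 - ((D.A (k + 1)).b : ℝ) * D.th k) / ((D.A (k + 1)).a : ℝ) =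
      D.aff (k + 1) (D.th k) := by
    simp only [aff, kap]; ring
  rw [e1, e2] at e
  simp only [aff] at e ⊢
  linear_combination -e

theorem lp_le (h : D.Spec S) {k : ℕ} (hk : k ≤ D.n) (u : ℝ) :
    D.lp u ≤ (((D.A k).a : ℝ))⁻¹ - D.kap k * u := by
  change D.lp u ≤ D.aff k u
  rw [lp_eq_aff]
  have hi := D.idx_le u
  rcases le_total k (D.idx u) with a | a
  · have : ∀ m, k + m ≤ D.idx u → D.aff (k + m) u ≤ D.aff k u := by
      intro m
      induction m with
      | zero => exact fun _ => le_rfl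
      | succ m ih =>
        intro b
        have c : k + m < D.n := by omega
        have e := h.aff_succ c u
        have e1 := (h.th_lt_iff c u).2 (by omega)
        have e2 := h.kapmono _ c
        have e3 := ih (by omega)
        have e4 := mul_nonpos_of_nonneg_of_nonpos (sub_nonneg.2 e2.le) (sub_nonpos.2 e1.le)
        rw [← add_assoc]
        linarith
    obtain ⟨m, hm⟩ := Nat.exists_eq_add_of_le a
    rw [hm]
    exact this m hm.ge
  · have : ∀ m, D.idx u + m ≤ D.n → D.aff (D.idx u) u ≤ D.aff (D.idx u + m) u := by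
      intro m
      induction m with
      | zero => exact fun _ => le_rfl
      | succ m ih =>
        intro b
        have c : D.idx u + m < D.n := by omega
        have e := h.aff_succ c u
        have e1 : u ≤ D.th (D.idx u + m) :=
          not_lt.1 fun z => by have := (h.th_lt_iff c u).1 z; omega
        have e2 := h.kapmono _ c
        have e3 := ih (by omega)
        have e4 := mul_nonneg (sub_nonneg.2 e2.le) (sub_nonneg.2 e1)
        rw [← add_assoc]
        linarith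
    obtain ⟨m, hm⟩ := Nat.exists_eq_add_of_le a
    rw [hm] at hk ⊢
    exact this m hk

theorem lp_concave (h : D.Spec S) : ConcaveOn ℝ Set.univ D.lp := by
  refine ⟨convex_univ, fun x _ y _ a b ha hb hab => ?_⟩
  have e1 := mul_le_mul_of_nonneg_left (h.lp_le (D.idx_le (a • x + b • y)) x) ha
  have e2 := mul_le_mul_of_nonneg_left (h.lp_le (D.idx_le (a • x + b • y)) y) hb
  rw [D.lp_eq (a • x + b • y), kp]
  simp only [smul_eq_mul] at e1 e2 ⊢
  have e3 : (((D.A (D.idx (a * x + b * y))).a : ℝ))⁻¹ =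
      (a + b) * (((D.A (D.idx (a * x + b * y))).a : ℝ))⁻¹ := by rw [hab, one_mul]
  linarith

theorem kp_mono (h : D.Spec S) : Monotone D.kp := fun u v huv => by
  rcases (D.idx_mono huv).lt_or_eq with a | a
  · exact (h.kap_lt a (D.idx_le v)).le
  · unfold kp; rw [a]

theorem be_mono (h : D.Spec S) : Monotone D.be := fun _ _ huv =>
  sub_le_sub (h.kp_mono huv) (h.kp_mono (neg_le_neg huv))

theorem be_nonneg (h : D.Spec S) {u : ℝ} (hu : 0 ≤ u) : 0 ≤ D.be u :=
  sub_nonneg.2 (h.kp_mono (by linarith))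

theorem lp_lip (h : D.Spec S) {C : ℝ} (hC : ∀ u, |D.kp u| ≤ C) (u u' : ℝ) :
    |D.lp u - D.lp u'| ≤ C * |u - u'| := by
  have key : ∀ u u', D.lp u - D.lp u' ≤ C * |u - u'| := by
    intro u u'
    have e1 := h.lp_le (D.idx_le u') u
    have e2 := D.lp_eq u'
    have e3 : |D.kp u' * (u - u')| ≤ C * |u - u'| := by
      rw [abs_mul]; exact mul_le_mul_of_nonneg_right (hC u') (abs_nonneg _)
    have e4 := neg_abs_le (D.kp u' * (u - u'))
    change D.lp u ≤ _ - D.kp u' * u at e1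
    linarith
  refine abs_le.2 ⟨?_, key u u'⟩
  have := key u' u
  rw [abs_sub_comm] at this
  linarith

theorem exists_bound (h : D.Spec S) : ∃ C : ℝ, 1 ≤ C ∧ (∀ u, |D.kp u| ≤ C) ∧
    (∀ u, |D.be u| ≤ C) ∧ (∀ u u', |D.lp u - D.lp u'| ≤ C * |u - u'|) ∧
    (∀ u u', |D.om u - D.om u'| ≤ C * |u - u'|) ∧ (∀ u, |u| ≤ D.Q + 1 → |D.lp u| ≤ C) ∧
    (∀ s ∈ S, |(s.a : ℝ)| ≤ C ∧ |(s.b : ℝ)| ≤ C ∧ |s.ct| ≤ C) ∧
    ∀ up, ∀ s ∈ S, ∀ u u', |D.slk up s u - D.slk up s u'| ≤ C * |u - u'| := by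
  obtain ⟨C1, p1, h1⟩ : ∃ C1 : ℝ, 0 ≤ C1 ∧ ∀ u, |D.kp u| ≤ C1 :=
    ⟨∑ k ∈ range (D.n + 1), |D.kap k|, sum_nonneg fun _ _ => abs_nonneg _, fun u =>
      single_le_sum (f := fun k => |D.kap k|) (fun _ _ => abs_nonneg _)
        (mem_range.2 (Nat.lt_succ_of_le (D.idx_le u)))⟩
  obtain ⟨C2, p2, h2⟩ : ∃ C2 : ℝ, 0 ≤ C2 ∧
      ∀ s ∈ S, |(s.a : ℝ)| ≤ C2 ∧ |(s.b : ℝ)| ≤ C2 ∧ |s.ct| ≤ C2 := by
    refine ⟨∑ s ∈ S, (|(s.a : ℝ)| + |(s.b : ℝ)| + |s.ct|), sum_nonneg fun _ _ => by positivity,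
      fun s hs => ?_⟩
    have := single_le_sum (f := fun s : G d => |(s.a : ℝ)| + |(s.b : ℝ)| + |s.ct|)
      (fun _ _ => by positivity) hs
    have a1 := abs_nonneg (s.a : ℝ)
    have a2 := abs_nonneg (s.b : ℝ)
    have a3 := abs_nonneg s.ct
    exact ⟨by linarith, by linarith, by linarith⟩
  have hl := h.lp_lip h1
  have hl' : ∀ u u', |D.lp (-u) - D.lp (-u')| ≤ C1 * |u - u'| := fun u u' => by
    have := hl (-u) (-u')
    rwa [show -u - -u' = -(u - u') by ring, abs_neg] at this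
  have p3 : 0 ≤ C1 * (D.Q + 1) := mul_nonneg p1 (by linarith [h.Qpos])
  have p4 : 0 ≤ C2 * C1 := mul_nonneg p2 p1
  have p5 := abs_nonneg (D.lp 0)
  have up : ∀ {x c : ℝ} {u u' : ℝ}, x ≤ c * |u - u'| →
      c ≤ 1 + 2 * C1 + |D.lp 0| + C1 * (D.Q + 1) + C2 + C2 * C1 →
      x ≤ (1 + 2 * C1 + |D.lp 0| + C1 * (D.Q + 1) + C2 + C2 * C1) * |u - u'| :=
    fun a b => a.trans (mul_le_mul_of_nonneg_right b (abs_nonneg _))
  refine ⟨1 + 2 * C1 + |D.lp 0| + C1 * (D.Q + 1) + C2 + C2 * C1, by linarith,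
    fun u => by linarith [h1 u], fun u => ?_, fun u u' => up (hl u u') (by linarith),
    fun u u' => up (c := 2 * C1) ?_ (by linarith), fun u hu => ?_, fun s hs => ?_,
    fun b s hs u u' => up (c := C2 + C2 * C1) ?_ (by linarith)⟩
  · have := abs_sub (D.kp u) (D.kp (-u))
    have a1 := h1 u
    have a2 := h1 (-u)
    unfold be
    linarith
  · have := abs_add_le (D.lp u - D.lp u') (D.lp (-u) - D.lp (-u'))
    have a1 := hl u u'
    have a2 := hl' u u'
    rw [show D.om u - D.om u' = D.lp u - D.lp u' + (D.lp (-u) - D.lp (-u')) by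
      simp only [om]; ring]
    linarith
  · have a1 := hl u 0
    rw [sub_zero] at a1
    have a2 := mul_le_mul_of_nonneg_left hu p1
    have a3 := abs_add_le (D.lp u - D.lp 0) (D.lp 0)
    rw [sub_add_cancel] at a3
    linarith
  · obtain ⟨a1, a2, a3⟩ := h2 s hs
    exact ⟨by linarith, by linarith, by linarith⟩
  · obtain ⟨a1, a2, -⟩ := h2 s hs
    have a3 : |D.lam b u - D.lam b u'| ≤ C1 * |u - u'| := by
      cases b
      · simp only [lam, Bool.false_eq_true, if_false]
        rw [show -D.lp (-u) - -D.lp (-u') = -(D.lp (-u) - D.lp (-u')) by ring, abs_neg]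
        exact hl' u u'
      · simp only [lam, if_true]
        exact hl u u'
    rw [show D.slk b s u - D.slk b s u' =
      -((s.b : ℝ) * (u - u') + (s.a : ℝ) * (D.lam b u - D.lam b u')) by simp only [slk]; ring,
      abs_neg]
    refine (abs_add_le _ _).trans ?_
    rw [abs_mul, abs_mul]
    have a4 := mul_le_mul_of_nonneg_right a2 (abs_nonneg (u - u'))
    have a5 := mul_le_mul a1 a3 (abs_nonneg _) p2
    linarith

theorem continuous_lp (h : D.Spec S) : Continuous D.lp := by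
  obtain ⟨C, -, -, -, a, -⟩ := h.exists_bound
  exact (LipschitzWith.of_dist_le' (K := C) fun u u' => by
    rw [Real.dist_eq, Real.dist_eq]; exact a u u').continuous

theorem continuous_om (h : D.Spec S) : Continuous D.om :=
  h.continuous_lp.add (h.continuous_lp.comp continuous_neg)

theorem continuous_lam (h : D.Spec S) (up : Bool) : Continuous (D.lam up) := by
  cases up
  · exact (h.continuous_lp.comp continuous_neg).neg
  · exact h.continuous_lp

theorem continuous_slk (h : D.Spec S) (up : Bool) (s : G d) : Continuous (D.slk up s) :=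
  (continuous_const.sub (continuous_const.mul continuous_id)).sub
    (continuous_const.mul (h.continuous_lam up))

theorem measurable_kp (h : D.Spec S) : Measurable D.kp := h.kp_mono.measurable

theorem measurable_be (h : D.Spec S) : Measurable D.be := h.be_mono.measurable

theorem hasDerivAt_lp (h : D.Spec S) {u : ℝ} (hu : ∀ k < D.n, u ≠ D.th k) :
    HasDerivAt D.lp (-D.kp u) u := by
  have a : HasDerivAt (D.aff (D.idx u)) (-D.kp u) u := by
    have := ((hasDerivAt_id u).const_mul (D.kp u)).const_sub (((D.A (D.idx u)).a : ℝ))⁻¹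
    rw [mul_one] at this
    exact this
  refine a.congr_of_eventuallyEq ?_
  filter_upwards [h.idx_eventually hu] with u' b
  rw [lp_eq_aff, b]

theorem lp_zero_pos (h : D.Spec S) : 0 < D.lp 0 := by
  rw [lp_eq, mul_zero, sub_zero]
  exact inv_pos.2 (h.a_pos (D.idx_le 0))

theorem Lam_pos (h : D.Spec S) : 0 < D.Lam := div_pos (by norm_num) h.lp_zero_pos

theorem slk_false (h : D.Spec S) (s : G d) (u : ℝ) :
    D.slk false s u = D.slk true s⁻¹ (-u) := by
  have _ := h
  simp only [slk, lam, Bool.false_eq_true, if_false, if_true, G.inv_a, G.inv_b]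
  push_cast
  ring

theorem slk_nn (h : D.Spec S) (up : Bool) {s : G d} (hs : s ∈ S) {u : ℝ} (hu : |u| ≤ D.Q) :
    0 ≤ D.slk up s u := by
  cases up
  · rw [h.slk_false]
    exact h.slk_nonneg _ (h.sym.2.1 s hs) _ (by rwa [abs_neg])
  · exact h.slk_nonneg s hs u hu

theorem slk_vertex (h : D.Spec S) {s : G d} {u : ℝ} (ha : s.a = (D.A (D.idx u)).a)
    (hb : s.b = (D.A (D.idx u)).b) : D.slk true s u = 0 := by
  have := (h.a_pos (D.idx_le u)).ne'
  simp only [slk, lam, if_true, lp, ha, hb]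
  field_simp
  ring

theorem om_Q_nonneg (h : D.Spec S) : 0 ≤ D.om D.Q := by
  have a1 := h.slk_nn false (h.memA _ (D.idx_le D.Q)).1 (u := D.Q) (abs_of_pos h.Qpos).le
  have a2 := h.slk_vertex (s := D.A (D.idx D.Q)) (u := D.Q) rfl rfl
  have a3 := h.a_pos (D.idx_le D.Q)
  simp only [slk, lam, Bool.false_eq_true, if_false, if_true] at a1 a2
  refine nonneg_of_mul_nonneg_right (a := ((D.A (D.idx D.Q)).a : ℝ)) ?_ a3
  unfold om
  linarith

theorem be_Q_pos (h : D.Spec S) (h0 : D.om D.Q = 0) : 0 < D.be D.Q := by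
  have a1 := inv_pos.2 (h.a_pos (D.idx_le D.Q))
  have a2 := inv_pos.2 (h.a_pos (D.idx_le (-D.Q)))
  rw [om, lp_eq, lp_eq] at h0
  refine pos_of_mul_pos_left (b := D.Q) ?_ h.Qpos.le
  unfold be
  linarith

end Spec

end LD

end Pool.Agent.P.MP_a0f0ad_al.Fi
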