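import Pool.Agent.P.MP_a0f0ad_al.Fi.Z.Defs
import Pool.Agent.P.MP_a0f0ad_al.Fi.Z.Bg

/-! Small tools for the assembly. -/

namespace Pool.Agent.P.MP_a0f0ad_al.Fi

open Finset MeasureTheory

variable {d : ℕ}

theorem asm_near_mono {D : LD d} {S : Finset (G d)} {T e e' b b' : ℝ} {u p : E d} {ρ : RD d}
    {w : List (G d)} (h : Near D S T u p ρ w e b) (he : e ≤ e') (hb : b ≤ b') :
    Near D S T u p ρ w e' b' := by
  obtain ⟨h0, τ1, τ2, qh, h1, h2, h3, h4, h5, h6, h7, h8, h9, h10⟩ := h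
  exact ⟨h0, τ1, τ2, qh, h1, h2, h3, h4, h5.trans he, h6.trans he, h7.trans he, h8.trans hb,
    h9.trans (by linarith), h10.trans hb⟩

theorem asm_fp_mono {F : Frame d} {S YY : Finset (G d)} {K0 : ℕ} {C C' Nu : ℝ} {u p : E d}
    (h : F.FP S K0 YY C u p Nu) (hC : C ≤ C') : F.FP S K0 YY C' u p Nu := by
  obtain ⟨h0, h1, h2, h3, h4, h5, h6⟩ := h
  exact ⟨h0, h1, h2, h3, h4, h5.trans hC, fun i hi =>
    ⟨(h6 i hi).1, (h6 i hi).2.1.trans hC, (h6 i hi).2.2.1.trans hC, (h6 i hi).2.2.2⟩⟩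

theorem asm_pt_mono {S : Finset (G d)} {K : ℕ} {T Nu Ct Ct' δ Rw KK KK' : ℝ} {u p : E d}
    {X : Set (G d)} (h : PT S K T u p Nu Ct δ Rw KK X) (h1 : Ct ≤ Ct') (h4 : KK ≤ KK') :
    PT S K T u p Nu Ct' δ Rw KK' X := by
  obtain ⟨τ, n, a1, a2, a3, a4⟩ := h
  refine ⟨τ, n, a1, fun N => (a2 N).trans h1, a3, fun g hg => ?_⟩
  filter_upwards [a4 g hg] with N hN h hc hn
  refine (hN h hc hn).trans ?_
  split_ifs <;> linarith

theorem asm_frac_mono {T R f f' : ℝ} {u : E d} {X : Set (G d)} (h : Frac T R u X f) (hR : 0 ≤ R)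
    (hf : f ≤ f') : Frac T R u X f' :=
  h.trans (ENNReal.ofReal_le_ofReal (mul_le_mul_of_nonneg_right hf (by positivity)))

theorem asm_frac_empty (T R f : ℝ) (u : E d) : Frac T R u ∅ f := by
  simp [Frac]

theorem asm_small {x M C : ℝ} {m n : ℕ} (hx : 0 < x) (hM : M * x ≤ 1) (h1 : 1 ≤ M) (hC : C ≤ M)
    (h : n < m) : C * x ^ m ≤ x ^ n := by
  have hx1 : x ≤ 1 := by nlinarith
  obtain ⟨l, rfl⟩ := Nat.exists_eq_add_of_lt h
  have h2 : x ^ l ≤ 1 := pow_le_one₀ hx.le hx1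
  have h3 : 0 < x ^ n := by positivity
  have h4 : 0 < x ^ l := by positivity
  have h5 : C * x ≤ 1 := by nlinarith
  calc C * x ^ (n + l + 1) = (C * x) * (x ^ l * x ^ n) := by ring
    _ ≤ 1 * (1 * x ^ n) := by gcongr
    _ = x ^ n := by ring

theorem asm_scale (h : ℕ) (hh : 0 < h) (M : ℝ) :
    ∀ᶠ T : ℕ in Filter.atTop, ∃ x : ℝ, 0 < x ∧ M * x ≤ 1 ∧
      ∀ (m : ℝ) (n : ℕ), m * (2 * h) = n → (T : ℝ) ^ (-m) = x ^ n ∧ (T : ℝ) ^ m * x ^ n = 1 := by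
  have hp : (0 : ℝ) < 1 / (2 * h) := by positivity
  have h1 : Filter.Tendsto (fun T : ℕ => (T : ℝ) ^ (-(1 / (2 * h) : ℝ))) Filter.atTop (nhds 0) :=
    (tendsto_rpow_neg_atTop hp).comp tendsto_natCast_atTop_atTop
  have h2 : Filter.Tendsto (fun T : ℕ => M * (T : ℝ) ^ (-(1 / (2 * h) : ℝ))) Filter.atTop
      (nhds 0) := by simpa using h1.const_mul M
  filter_upwards [h2.eventually (ge_mem_nhds one_pos), Filter.eventually_gt_atTop 0] with T hT h0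
  have hT0 : (0 : ℝ) < T := by exact_mod_cast h0
  refine ⟨_, Real.rpow_pos_of_pos hT0 _, hT, fun m n hmn => ?_⟩
  have e : (T : ℝ) ^ (-m) = ((T : ℝ) ^ (-(1 / (2 * h) : ℝ))) ^ n := by
    rw [← Real.rpow_natCast, ← Real.rpow_mul hT0.le, ← hmn]
    congr 1
    have : (h : ℝ) ≠ 0 := by positivity
    field_simp
  refine ⟨e, ?_⟩
  rw [← e, ← Real.rpow_add hT0]
  simp

theorem asm_le_ell (u : E d) (j : Fin d) (hj : (j : ℕ) ≠ 0) : |u.2 j| ≤ ell u ^ (j : ℕ) := by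
  have h1 : |u.2 j| ^ (((j : ℕ) : ℝ)⁻¹) ≤ ell u := by
    refine le_trans ?_ (le_max_right _ _)
    have := le_ciSup (f := fun j : Fin d =>
      if (j : ℕ) = 0 then (0 : ℝ) else |u.2 j| ^ (((j : ℕ) : ℝ)⁻¹)) (Set.finite_range _).bddAbove j
    simpa [hj] using this
  calc |u.2 j| = (|u.2 j| ^ (((j : ℕ) : ℝ)⁻¹)) ^ (j : ℕ) :=
        (Real.rpow_inv_natCast_pow (abs_nonneg _) hj).symm
    _ ≤ _ := pow_le_pow_left₀ (by positivity) h1 _

theorem asm_box (a : ℝ) (y : Fin d → ℝ) (ha : 0 ≤ a) (hy : ∀ j, 0 ≤ y j) :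
    volume {u : E d | |u.1| ≤ a ∧ ∀ j, |u.2 j| ≤ y j} =
      ENNReal.ofReal (2 * a * ∏ j, (2 * y j)) := by
  have : {u : E d | |u.1| ≤ a ∧ ∀ j, |u.2 j| ≤ y j} =
      Set.Icc (-a) a ×ˢ Set.Icc (-y) y := by
    ext u
    simp only [Set.mem_ofPred_eq, Set.mem_prod, Set.mem_Icc, abs_le, Pi.le_def, Pi.neg_apply,
      forall_and]
  rw [this, Measure.volume_eq_prod, Measure.prod_prod, Real.volume_Icc, Real.volume_Icc_pi,
    ENNReal.ofReal_mul (by positivity), ENNReal.ofReal_prod_of_nonneg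
      (fun j _ => by have := hy j; positivity)]
  congr 1
  · congr 1; ring
  · refine Finset.prod_congr rfl fun j _ => ?_
    congr 1; simp; ring

theorem asm_tail (hd : 2 ≤ d) (L : ℝ) : ∃ C : ℝ, 0 ≤ C ∧ ∀ t : ℝ, 0 < t → t ≤ 1 →
    volume {u : E d | ‖u‖ ≤ L ∧ (|u.1| < t ^ 2 ∨ ell u ^ d < t ^ 2)} ≤ ENNReal.ofReal (C * t) := by
  have hL : 0 ≤ |L| := abs_nonneg L
  let j0 : Fin d := ⟨d - 1, by omega⟩
  refine ⟨2 * ∏ _j : Fin d, (2 * |L|) + 2 * |L| * (2 * ∏ _j ∈ univ.erase j0, (2 * |L|)),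
    by positivity, fun t ht ht1 => ?_⟩
  have hsub : {u : E d | ‖u‖ ≤ L ∧ (|u.1| < t ^ 2 ∨ ell u ^ d < t ^ 2)} ⊆
      {u : E d | |u.1| ≤ t ∧ ∀ j, |u.2 j| ≤ (fun _ => |L|) j} ∪
      {u : E d | |u.1| ≤ |L| ∧ ∀ j, |u.2 j| ≤ (fun j => if j = j0 then t else |L|) j} := by
    rintro u ⟨h1, h2⟩
    have a1 : |u.1| ≤ |L| := (norm_fst_le u).trans (h1.trans (le_abs_self L))
    have a2 : ∀ j, |u.2 j| ≤ |L| := fun j =>
      (norm_le_pi_norm u.2 j).trans ((norm_snd_le u).trans (h1.trans (le_abs_self L)))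
    rcases h2 with h2 | h2
    · exact Or.inl ⟨by nlinarith, a2⟩
    · refine Or.inr ⟨a1, fun j => ?_⟩
      by_cases hj : j = j0
      · subst hj
        simp only [if_true]
        have e0 : 0 ≤ ell u := (abs_nonneg _).trans (le_max_left _ _)
        have e1 : ell u ≤ 1 := by
          by_contra hc
          have : 1 ≤ ell u ^ d := one_le_pow₀ (by linarith)
          nlinarith
        have e2 := asm_le_ell u j0 (by simp [j0]; omega)
        have e3 : (ell u ^ (j0 : ℕ)) ^ 2 ≤ ell u ^ d := by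
          rw [← pow_mul]
          exact pow_le_pow_of_le_one e0 e1 (by simp [j0]; omega)
        exact e2.trans (abs_le_of_sq_le_sq' (e3.trans h2.le) ht.le).2
      · simp only [hj, if_false]
        exact a2 j
  refine (measure_mono hsub).trans ((measure_union_le _ _).trans ?_)
  rw [asm_box _ _ ht.le (fun _ => hL), asm_box _ _ hL (fun j => by split_ifs <;> positivity),
    ← ENNReal.ofReal_add (by positivity)
      (mul_nonneg (by positivity) (Finset.prod_nonneg fun j _ => by split_ifs <;> positivity))]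
  refine ENNReal.ofReal_le_ofReal (le_of_eq ?_)
  rw [← Finset.mul_prod_erase univ (fun j => 2 * if j = j0 then t else |L|) (mem_univ j0),
    Finset.prod_congr rfl (g := fun _ => 2 * |L|)
      (fun j hj => by simp [Finset.ne_of_mem_erase hj] :
        ∀ j ∈ univ.erase j0, (2 * if j = j0 then t else |L|) = 2 * |L|)]
  simp only [if_true]
  ring

theorem asm_expo (a kN kB kA kE kX : ℕ) : ∃ b c z h : ℕ,
    a * kB < b ∧ 16 ≤ b ∧ b * kB < c ∧ a * kA < c ∧ a * kE < c ∧ kX ≤ c ∧ 32 ≤ c ∧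
    c * kA ≤ z ∧ c * kE ≤ z ∧ c * kX ≤ z ∧ a * kN < z ∧ c ≤ z ∧ z * (2 * kN) ≤ h ∧
    z * kN + a + 64 ≤ h ∧ z ≤ h ∧ 80 ≤ h := by
  refine ⟨a * kB + 16, (a * kB + 16) * kB + a * kA + a * kE + kX + 32, ?_⟩
  generalize hc : (a * kB + 16) * kB + a * kA + a * kE + kX + 32 = c
  refine ⟨c * kA + c * kE + c * kX + a * kN + c, ?_⟩
  generalize hz : c * kA + c * kE + c * kX + a * kN + c = z
  refine ⟨z * (2 * kN) + z * kN + a + z + 80, ?_⟩
  omega

end Pool.Agent.P.MP_a0f0ad_al.Fi
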