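import Pool.Agent.P.MP_a0f0ad_al.Fi.Z.Iface
import Pool.Agent.P.MP_a0f0ad_al.Fi.V.Iface
import Pool.Agent.P.MP_a0f0ad_al.Fi.W.Iface
import Pool.Agent.P.MP_a0f0ad_al.Fi.N.Iface
import Pool.Agent.P.MP_a0f0ad_al.Fi.F.Iface
import Pool.Agent.P.MP_a0f0ad_al.Fi.X.Iface
import Pool.Agent.P.MP_a0f0ad_al.Fi.H.Iface
import Pool.Agent.P.MP_a0f0ad_al.Fi.R.Iface
import Pool.Agent.P.MP_a0f0ad_al.Fi.Z.Asm1

/-! Step ASM of the filiform project. -/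

namespace Pool.Agent.P.MP_a0f0ad_al.Fi

open Finset MeasureTheory
open scoped Pointwise

theorem p_ASM (hHOM : S_HOM) (hOPT : S_OPT) (hFB : S_FB) (hQLOW : S_QLOW) (hNEAR : S_NEAR) (hEXR : S_EXR) (hTF : S_TF) (hBIAS : S_BIAS) (hKR : S_KR) (hFLAT : S_FLAT) (hEXA : S_EXA) (hEXB : S_EXB) (hEXN : S_EXN) (hOSCN : S_OSCN) (hGOOD : S_GOOD) (hPTA : S_PTA) (hPTB : S_PTB) (hPTF : S_PTF) :
    S_ASM := by
  obtain ⟨kN, kN0, hNEAR⟩ := hNEAR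
  obtain ⟨kB, kB0, hBIAS⟩ := hBIAS
  obtain ⟨kA, kA0, hEXA⟩ := hEXA
  obtain ⟨kE, kE0, hEXB⟩ := hEXB
  obtain ⟨kX, kX0, hEXN⟩ := hEXN
  obtain ⟨kG, kG0, hGOOD⟩ := hGOOD
  obtain ⟨a, ha⟩ : ∃ a, a = 128 * kG := ⟨_, rfl⟩
  obtain ⟨b, c, z, h, e1, e2, e3, e4, e5, e6, e7, e8, e9, e10, e11, e12, e13, e14, e15, e16⟩ :=
    asm_expo a kN kB kA kE kX
  have hh : (80 : ℝ) ≤ h := by exact_mod_cast e16
  have hh0 : (h : ℝ) ≠ 0 := by positivity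
  obtain ⟨d, hd⟩ : ∃ d, d = 4 * h + 20 := ⟨_, rfl⟩
  have hd2 : 2 ≤ d := by omega
  have hde : Even d := ⟨2 * h + 10, by omega⟩
  refine ⟨8 / h, 2 / h, d, by positivity, ?_, ?_, by omega, fun S D hD => ?_⟩
  · rw [← mul_div_assoc]; gcongr; norm_num
  · rw [div_le_iff₀ (by positivity)]; linarith
  have hS := hD.sym
  have hK0 : 0 < D.K0 := Finset.prod_pos fun k hk => by
    have := (hD.memA k (by simpa [Nat.lt_succ_iff] using hk)).2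
    omega
  obtain ⟨-, -, -, ⟨L, hL⟩, -⟩ := hHOM d S D hD
  obtain ⟨CF, CF0, hFB⟩ := hFB d S D hd2 hD
  obtain ⟨cq, cq0, hQLOW⟩ := hQLOW d S D hD
  obtain ⟨CN, CN0, hNEAR⟩ := hNEAR d S D hd2 hD
  obtain ⟨A, v0, A1, A2, v00, v01, hA⟩ := hEXR d S D (by omega) hde hD
  obtain ⟨YY, CT, hTF⟩ := hTF d S D hd2 hD
  obtain ⟨YL, CL, hFLAT⟩ := hFLAT d S D (by omega) hD
  obtain ⟨CA, CA0, hEXA⟩ := hEXA d S YY D (max CT CN) hd2 hD
  obtain ⟨CE, CE0, hEXB⟩ := hEXB d S YY D (max CT CN) hd2 hD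
  obtain ⟨CX, CX0, hEXN⟩ := hEXN d S YY D (max CT (CN / v0)) v0 (by omega) hde hD v00 v01
  obtain ⟨CO, CO0, hOSCN⟩ := hOSCN d S D hd2 hD
  obtain ⟨CG, hGOOD⟩ := hGOOD d S D (by omega) hde hD
  obtain ⟨K1, K10, hPTA⟩ := hPTA d S YY D.K0 CT hd2 hS hK0
  obtain ⟨K2, K20, hPTB⟩ := hPTB d S YY D.K0 CT cq hd2 hS hK0 cq0
  obtain ⟨K3, K30, hPTF⟩ := hPTF d S YL D.K0 CL hd2 hS hK0
  obtain ⟨CV, CV0, hV⟩ := asm_tail hd2 L
  refine ⟨K1 * K2 * K3, by positivity, fun K K0 hK => ?_⟩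
  obtain ⟨C1, hPTA⟩ := hPTA K K0 (Dvd.dvd.trans ⟨K2 * K3, by ring⟩ hK)
  obtain ⟨C2, KK, KK1, hPTB⟩ := hPTB K K0 (Dvd.dvd.trans ⟨K1 * K3, by ring⟩ hK)
  obtain ⟨C3, hPTF⟩ := hPTF K K0 (Dvd.dvd.trans ⟨K1 * K2, by ring⟩ hK)
  obtain ⟨CB, CB0, hBIAS⟩ := hBIAS d S D K CT hd2 hD K0
  obtain ⟨C, c1, c2, c3, c4, c5, c6, c7⟩ : ∃ C : ℝ, C1 ≤ C ∧ C2 ≤ C ∧ C3 ≤ C ∧ KK ≤ C ∧ CX ≤ C ∧
      1 ≤ C ∧ CV + CO + |CG| ≤ C := by
    have := le_abs_self C1; have := le_abs_self C2; have := le_abs_self C3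
    have := abs_nonneg C1; have := abs_nonneg C2; have := abs_nonneg C3; have := abs_nonneg CG
    refine ⟨|C1| + |C2| + |C3| + KK + CX + CV + CO + |CG|, ?_, ?_, ?_, ?_, ?_, ?_, ?_⟩ <;> linarith
  obtain ⟨M, m1, m2, m3, m4, m5, m6, m7, m8, m9, m10⟩ : ∃ M : ℝ, CF ≤ M ∧ CN ≤ M ∧ CA ≤ M ∧
      CE ≤ M ∧ CX ≤ M ∧ CO ≤ M ∧ CB ≤ M ∧ 4 ≤ M ∧ 12 * (K : ℝ) ≤ M ∧ 12 * (K : ℝ) * d ≤ M := by
    have : (0 : ℝ) ≤ 12 * K := by positivity
    have : (0 : ℝ) ≤ 12 * K * d := by positivity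
    refine ⟨CF + CN + CA + CE + CX + CO + CB + 4 + 12 * K + 12 * K * d,
      ?_, ?_, ?_, ?_, ?_, ?_, ?_, ?_, ?_, ?_⟩ <;> linarith
  have M1 : 1 ≤ M := by linarith
  suffices H : ∀ A' : Set (E d), A' ⊆ A →
      H3 S D.NN (fun u => CF / ell u ^ d) K C (8 / h) (2 / h) A' {u | 0 < u.1} from
    ⟨A, CF, C, A1, A2, fun u hu => ⟨(hA u hu).1, (hA u hu).2.1⟩, H A subset_rfl,
      H ∅ (Set.empty_subset _)⟩
  intro A' hA'
  filter_upwards [asm_scale h (by omega) M] with Tn hT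
  obtain ⟨x, x0, xM, hx⟩ := hT
  generalize (Tn : ℝ) = T at *
  have t1 : T * x ^ (2 * h) = 1 := by simpa using (hx 1 (2 * h) (by push_cast; ring)).2
  obtain ⟨t2, t3⟩ := hx (8 / h) 16 (by push_cast; field_simp; ring)
  obtain ⟨t4, -⟩ := hx (2 / h) 4 (by push_cast; field_simp; ring)
  obtain ⟨t5, -⟩ := hx (4 * (8 / h)) 64 (by push_cast; field_simp; ring)
  obtain ⟨-, t6⟩ := hx (2 * (8 / h)) 32 (by push_cast; field_simp; ring)
  clear hx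
  have sm : ∀ {C : ℝ} {m n : ℕ}, C ≤ M → n < m → C * x ^ m ≤ x ^ n :=
    fun hC hmn => asm_small x0 xM M1 hC hmn
  have x1 : x ≤ 1 := by nlinarith
  have le : ∀ {m n : ℕ}, n ≤ m → x ^ m ≤ x ^ n := fun hmn => pow_le_pow_of_le_one x0.le x1 hmn
  have p0 : ∀ n : ℕ, 0 < x ^ n := fun n => pow_pos x0 n
  have p1 : ∀ n : ℕ, x ^ n ≤ 1 := fun n => pow_le_one₀ x0.le x1
  have T0 : 0 < T := by
    by_contra hc
    have := mul_nonpos_of_nonpos_of_nonneg (not_lt.1 hc) (p0 (2 * h)).le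
    linarith
  have Tge : ∀ n : ℕ, n ≤ 2 * h → 1 ≤ T * x ^ n := fun n hn =>
    t1.symm.le.trans (mul_le_mul_of_nonneg_left (le hn) T0.le)
  have T3 : 3 < T := by
    have h1 := sm m8 (show 0 < 2 * h by omega)
    have h2 := mul_le_mul_of_nonneg_left h1 T0.le
    nlinarith
  have Ti : ∀ y : ℝ, y / T = y * x ^ (2 * h) := fun y => by
    rw [div_eq_iff T0.ne', mul_assoc, mul_comm _ T, t1, mul_one]
  have wn : ∀ {y : ℝ} {n : ℕ}, y ≤ T ^ (2 * (8 / h : ℝ)) → 32 ≤ n → x ^ n * y ≤ 1 :=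
    fun {y n} hy hn => by
      have h1 := mul_le_mul_of_nonneg_left hy (p0 n).le
      have h2 : 0 ≤ T ^ (2 * (8 / h : ℝ)) := Real.rpow_nonneg T0.le _
      have h3 := mul_le_mul_of_nonneg_right (le hn) h2
      linarith
  refine ⟨{u : E d | ‖u‖ ≤ L ∧ (|u.1| < (x ^ 64) ^ 2 ∨ ell u ^ d < (x ^ 64) ^ 2)} ∪
    {u : E d | x ^ a ≤ u.1 ∧ x ^ a ≤ ell u ^ d ∧ D.NN u ≤ 1 ∧
      ¬ ∃ p, Grad D.NN p u ∧ Osc D.NN u p (x ^ h) ((x ^ z) ^ kN)} ∪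
    {u : E d | 0 < u.1 ∧ D.NN u ≤ 1 ∧ ∃ (p : E d) (ρ : RD d), Grad D.NN p u ∧
      ρ.q = p.2 ∧ Nonconst ρ.q ∧ ρ.Opt D u p.1 ∧ ¬ ρ.Good D u p.1 ((x ^ 128) ^ kG)} ∪
    {u : E d | ¬ (0 < u.1 → D.NN u ≤ 1 → ∀ p, Grad D.NN p u → ¬ Nonconst p.2 →
      ∃ F : Frame d, F.FP S D.K0 YL CL u p (D.NN u) ∧
        (∀ e : Fin d → ℝ, co e 0 = 0 → e ∈ F.Cone S D.K0) ∧
        ∀ K : ℕ, 0 < K → ∃ β ρ, 0 < ρ ∧ F.HasB K β ρ ∧ ‖β‖ ≤ 1)}, ?_, fun u u0 hu N1 => ?_⟩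
  · have v1 := hV (x ^ 64) (p0 _) (p1 _)
    have v2 := hOSCN (x ^ a) (x ^ h) ((x ^ z) ^ kN) (p0 _) (p1 _) (p0 _) (sm m6 (by omega))
      (by positivity) (by rw [← pow_mul]; exact p1 _)
    have v3 := hGOOD (x ^ 128) (p0 _) (p1 _)
    have v4 := ae_iff.1 hFLAT
    have w2 : CO * x ^ h / ((x ^ z) ^ kN * x ^ a) ≤ CO * x ^ 64 := by
      rw [div_le_iff₀ (by positivity), mul_assoc, ← pow_mul, ← pow_add, ← pow_add]
      exact mul_le_mul_of_nonneg_left (le (by omega)) CO0.le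
    have w3 : CG * x ^ 128 ≤ |CG| * x ^ 64 :=
      mul_le_mul (le_abs_self _) (le (by omega)) (p0 _).le (abs_nonneg _)
    refine (measure_union_le _ _).trans ?_
    rw [v4, add_zero]
    refine (measure_union_le _ _).trans ?_
    refine (add_le_add ((measure_union_le _ _).trans (add_le_add v1
      (v2.trans (ENNReal.ofReal_le_ofReal w2)))) (v3.trans (ENNReal.ofReal_le_ofReal w3))).trans ?_
    rw [← ENNReal.ofReal_add (by positivity) (by positivity),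
      ← ENNReal.ofReal_add (by positivity) (by positivity), t5]
    refine ENNReal.ofReal_le_ofReal ?_
    have := mul_le_mul_of_nonneg_right c7 (p0 64).le
    linarith
  replace u0 : 0 < u.1 := u0
  have N1' := N1.le
  simp only [Set.mem_union, Set.mem_ofPred_eq, not_or] at hu
  obtain ⟨⟨⟨b1, b2⟩, b3⟩, b4⟩ := hu
  have uL : ‖u‖ ≤ L := hL u u0.le (by linarith)
  have xa : x ^ a ≤ (x ^ 64) ^ 2 := by rw [← pow_mul]; exact le (by omega)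
  have ua : x ^ a ≤ u.1 := by
    by_contra hc
    exact b1 ⟨uL, Or.inl (by rw [abs_of_pos u0]; linarith)⟩
  have ul : x ^ a ≤ ell u ^ d := by
    by_contra hc
    exact b1 ⟨uL, Or.inr (by linarith)⟩
  obtain ⟨p, hp, hO⟩ : ∃ p, Grad D.NN p u ∧ Osc D.NN u p (x ^ h) ((x ^ z) ^ kN) := by
    by_contra hc
    exact b2 ⟨ua, ul, N1', hc⟩
  have good : ∀ ρ : RD d, ρ.q = p.2 → Nonconst ρ.q → ρ.Opt D u p.1 → ρ.Good D u p.1 (x ^ a) := by
    intro ρ r1 r2 r3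
    by_contra hc
    exact b3 ⟨u0, N1', p, ρ, hp, r1, r2, r3, by rwa [← pow_mul, ← ha]⟩
  replace b4 := not_not.1 b4 u0 N1' p hp
  have zk : z ≤ z * kN := Nat.le_mul_of_pos_right z kN0
  have fb : ∀ g : G d, ‖nx T g - T • u‖ ≤ T ^ (2 * (8 / h : ℝ)) →
      ‖p‖ ≤ CF / ell u ^ d ∧ |Fb T (D.NN u) u p (len S g) g| ≤ CF / ell u ^ d := by
    intro g hg
    refine hFB T (x ^ h) ((x ^ z) ^ kN) u p g (by linarith) u0 N1' hp hO ?_ ?_
      ((sm m1 (by omega)).trans ua) ((sm m1 (by omega)).trans ul)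
    · have h1 := wn hg le_rfl
      have h2 := Tge (32 + h) (by omega)
      rw [pow_add] at h2
      refine le_of_mul_le_mul_left ?_ (p0 32)
      linarith
    · rw [← pow_mul]; exact wn hg (by omega)
  have hW : ‖p‖ ≤ CF / ell u ^ d := by
    refine (fb (gam T u) ((norm_nx_gam (by linarith) u).trans ?_)).1
    exact Real.one_le_rpow (by linarith) (by positivity)
  have l0 : 0 < ell u ^ d := (p0 a).trans_le ul
  have nb : CN / ell u ^ d ≤ max CT CN / x ^ a :=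
    (div_le_div_of_nonneg_left CN0.le (p0 a) ul).trans
      (div_le_div_of_nonneg_right (le_max_right _ _) (p0 a).le)
  have fin : ∀ (δ : ℝ) (Ct K' : ℝ), Ct ≤ C → K' ≤ C → δ ≤ x ^ 16 → u ∉ A' →
      PT S K T u p (D.NN u) Ct δ (T ^ (2 * (8 / h : ℝ))) K' ∅ →
      GoodU S D.NN (fun u => CF / ell u ^ d) K C (8 / h) (2 / h) A' T u := by
    intro δ Ct K' h1 h2 h3 h4 h5
    refine ⟨p, δ, ∅, hW, fun g hg => (fb g hg).2, asm_pt_mono h5 h1 h2, ?_,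
      fun h => absurd h h4, fun _ => rfl, fun R _ _ => asm_frac_empty _ _ _ _⟩
    rw [t2]
    have := mul_le_mul_of_nonneg_right c6 (p0 16).le
    linarith
  by_cases hc : Nonconst p.2
  swap
  · obtain ⟨F, f1, f2, f3⟩ := b4 hc
    obtain ⟨β, ρ, r1, r2, r3⟩ := f3 K K0
    exact fin 0 C3 C c3 le_rfl (p0 _).le (fun h => hc ((hA u (hA' h)).2.2.1 p hp))
      (hPTF T u p _ _ _ ρ F β T3 f1 hc r1 r2 r3 f2)
  obtain ⟨ρ, r1, r3⟩ := hOPT d S D hD u p u0 hp hc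
  have r2 : Nonconst ρ.q := r1 ▸ hc
  have near : ∀ w : List (G d), Geo S w → ‖nx T w.prod - T • u‖ ≤ T ^ (2 * (8 / h : ℝ)) →
      Near D S T u p ρ w (x ^ z) (CN / ell u ^ d) ∨
      (ρ.m < 0 ∧ d < ρ.eN D u.1 ∧ ∃ σ : RD d, σ.Opt D u p.1 ∧ σ.q = ρ.q ∧ d < σ.eN D u.1 ∧
        Near D S T u p σ w (x ^ z) (CN / ell u ^ d)) := by
    intro w hw hg
    refine hNEAR (x ^ a) (x ^ z) T (x ^ h) u p ρ w (p0 _) (p1 _) (p0 _)
      (by rw [← pow_mul]; exact sm m2 e11) (p0 _) (le e15) ?_ N1' hp hO r1 r2 r3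
      (good ρ r1 r2 r3) hw (wn hg (by omega))
    rw [← pow_mul, mul_assoc, ← pow_add]
    exact Tge _ (by omega)
  have pn : 3 * K * d * ‖p.2‖ / T ≤ x ^ 17 / 4 := by
    have h1 := (good ρ r1 r2 r3).1.hq
    rw [r1] at h1
    obtain ⟨l, hl⟩ : ∃ l, 2 * h = l + a := ⟨2 * h - a, by omega⟩
    have h2 := sm m10 (show 17 < l by omega)
    have h3 : 0 ≤ 12 * (K : ℝ) * d * x ^ l := by positivity
    have h4 := mul_le_mul_of_nonneg_left h1 h3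
    rw [Ti, hl, pow_add]
    linarith
  have exb : ∀ (σ : RD d) (F : Frame d) (w : List (G d)), σ.q = p.2 → σ.Opt D u p.1 →
      F.FR D S σ u.1 → F.FP S D.K0 YY CT u p (D.NN u) →
      Near D S T u p σ w (x ^ z) (CN / ell u ^ d) →
      ‖nx T w.prod - T • u‖ ≤ T ^ (2 * (8 / h : ℝ)) →
      ∃ τ χ, F.Plan τ χ ∧ dot p.2 (F.Del T w τ χ) ≤ x ^ c := by
    intro σ F w s1 s3 f1 f2 hn hg
    have s2 : Nonconst σ.q := s1 ▸ hc
    exact hEXB (x ^ a) (x ^ c) T u p σ F w (p0 _) (p1 _) (p0 _)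
      (by rw [← pow_mul]; exact sm m4 e5) (by rw [← pow_mul]; exact Tge _ (by omega)) N1' s1 s2 s3
      (good σ s1 s2 s3).1 f1 (asm_fp_mono f2 (le_max_left _ _))
      (asm_near_mono hn (by rw [← pow_mul]; exact le e9) nb) (wn hg e7)
  have frame : ∀ σ : RD d, σ.q = p.2 → σ.Opt D u p.1 → d < σ.eN D u.1 →
      ∃ F : Frame d, F.FR D S σ u.1 ∧ F.FP S D.K0 YY CT u p (D.NN u) ∧ F.KR S D.K0 p.2 ∧
        ∀ η : ℝ, 0 < η → ∃ β ρ, 0 < ρ ∧ F.HasB K β ρ ∧ -dot p.2 β ≤ η := by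
    intro σ s1 s3 s4
    have s2 : Nonconst σ.q := s1 ▸ hc
    have sg := good σ s1 s2 s3
    obtain ⟨F, f1, f2⟩ := hTF (x ^ a) u p σ (p0 _) N1' s1 s2 s3 sg.1
    refine ⟨F, f1, f2, hKR d S YY D CT (x ^ a) u p σ F hd2 hD (p0 _) N1' s1 s2 s3 sg.1 s4
      (sg.2.1 s4) f1 f2, fun η η0 => ?_⟩
    have hm : 0 < min η ((x ^ a) ^ kB / CB) := by positivity
    obtain ⟨β, q1, q2, -⟩ := hBIAS (x ^ a) (min η ((x ^ a) ^ kB / CB)) p.1 u σ F (p0 _) (p1 _) hm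
      (by
        have := mul_le_mul_of_nonneg_left (min_le_right η ((x ^ a) ^ kB / CB)) CB0.le
        rwa [mul_div_cancel₀ _ CB0.ne'] at this) N1' s2 s3 sg.1 f1
      f2.2.2.2.2.2.1 fun i hi => (f2.2.2.2.2.2.2 i hi).2.1
    exact ⟨β, _, pow_pos hm _, q1, s1 ▸ q2.trans (min_le_left _ _)⟩
  have q17 : x ^ 17 ≤ x ^ 16 / 4 := by have := sm m8 (show 16 < 17 by omega); linarith
  by_cases hu : u ∈ A'
  · have nice := (hA u (hA' hu)).2.2.2 p.1 ρ r3 r2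
    have ne : d < ρ.eN D u.1 := nice.2.2.2.2.2.1
    obtain ⟨F, f1, f2, f3, f4⟩ := frame ρ r1 r3 ne
    obtain ⟨X, X1, X2⟩ := hEXN x (x ^ c) T u p ρ F x0 (by nlinarith) (p0 _) (le e6)
      (by rw [← pow_mul]; exact Tge _ (by omega)) N1' r1 r2 r3 nice f1
      (asm_fp_mono f2 (le_max_left _ _))
    have q4 : x ^ 17 ≤ x ^ 4 := le (by omega)
    refine ⟨p, -x ^ 4 / 2, X, hW, fun g hg => (fb g hg).2, asm_pt_mono (hPTB T u p _ _ _ X T3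
      (r1 ▸ hQLOW u p.1 ρ u0 N1' r3 r2 ne.le) fun g hg => ?_) c2 c4, ?_, fun _ => by rw [t4],
      fun h => absurd hu h, fun R R1 R2 => ?_⟩
    · obtain ⟨w, w1, rfl⟩ := hS.exists_geo g
      have hn : Near D S T u p ρ w (x ^ z) (CN / ell u ^ d) := by
        rcases near w w1 hg with h | h
        · exact h
        · exact absurd h.1 (by rw [nice.2.2.1]; exact lt_irrefl _)
      by_cases hX : w.prod ∈ X
      · obtain ⟨τ, χ, a1, a2⟩ := exb ρ F w r1 r3 f1 f2 hn hg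
        refine ⟨F, w, τ, χ, f2, f3, f4, w1, rfl, a1, ?_⟩
        rw [if_pos hX]
        have h1 := sm m8 (show 0 < c by omega)
        have h2 := sm m8 (show 0 < 4 by omega)
        rw [pow_zero] at h1 h2
        linarith
      · obtain ⟨τ, χ, a1, a2⟩ := X2 w (asm_near_mono hn (by rw [← pow_mul]; exact le e10)
          ((div_le_div_of_nonneg_left CN0.le v00 nice.1.hell).trans (le_max_right _ _)))
          (wn hg e7) hX
        refine ⟨F, w, τ, χ, f2, f3, f4, w1, rfl, a1, ?_⟩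
        rw [if_neg hX]
        have := p0 4
        linarith
    · rw [t2]
      have := p0 4
      have := mul_pos (zero_lt_one.trans_le c6) (p0 16)
      linarith
    · have R0 : (1 : ℝ) ≤ R := (Real.one_le_rpow (by linarith) (by positivity)).trans R1
      refine asm_frac_mono (X1 R R0 ?_) (by linarith) ?_
      · have h1 := sm (show (2 : ℝ) ≤ M by linarith) (show 16 < c by omega)
        have h2 := mul_le_mul_of_nonneg_left R2 (p0 c).le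
        have h3 := mul_le_mul_of_nonneg_right h1 (Real.rpow_nonneg T0.le (8 / h : ℝ))
        linarith
      · have h1 : T ^ 2 * x ^ (d - 4) = x ^ 16 := by
          rw [show d - 4 = 2 * h * 2 + 16 by omega, pow_add, pow_mul, ← mul_assoc, ← mul_pow, t1]
          simp
        rw [t2, mul_assoc, h1]
        exact mul_le_mul_of_nonneg_right c5 (p0 _).le
  by_cases he : d < ρ.eN D u.1
  · refine fin (x ^ 16) C2 KK c2 c4 le_rfl hu (hPTB T u p _ _ _ ∅ T3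
      (r1 ▸ hQLOW u p.1 ρ u0 N1' r3 r2 he.le) fun g hg => ?_)
    obtain ⟨w, w1, rfl⟩ := hS.exists_geo g
    obtain ⟨σ, s1, s3, s4, hn⟩ : ∃ σ : RD d, σ.q = p.2 ∧ σ.Opt D u p.1 ∧ d < σ.eN D u.1 ∧
        Near D S T u p σ w (x ^ z) (CN / ell u ^ d) := by
      rcases near w w1 hg with h | ⟨-, -, σ, s3, s1, s4, h⟩
      · exact ⟨ρ, r1, r3, he, h⟩
      · exact ⟨σ, s1.trans r1, s3, s4, h⟩
    obtain ⟨F, f1, f2, f3, f4⟩ := frame σ s1 s3 s4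
    obtain ⟨τ, χ, a1, a2⟩ := exb σ F w s1 s3 f1 f2 hn hg
    refine ⟨F, w, τ, χ, f2, f3, f4, w1, rfl, a1, ?_⟩
    have h1 : x ^ c ≤ x ^ 17 := le (by omega)
    have := p0 16
    simp only [Set.mem_empty_iff_false, if_false]
    linarith
  · have rg := good ρ r1 r2 r3
    obtain ⟨F, f1, f2⟩ := hTF (x ^ a) u p ρ (p0 _) N1' r1 r2 r3 rg.1
    obtain ⟨β, q1, q2, q3⟩ := hBIAS (x ^ a) (x ^ b) p.1 u ρ F (p0 _) (p1 _) (p0 _)
      (by rw [← pow_mul]; exact sm m7 e1) N1' r2 r3 rg.1 f1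
      f2.2.2.2.2.2.1 fun i hi => (f2.2.2.2.2.2.2 i hi).2.1
    refine fin (-dot p.2 β) C1 C c1 le_rfl (r1 ▸ q2.trans (le e2)) hu
      (hPTA T u p _ _ _ (x ^ c) _ F β T3 f2 q1 q3 ?_ (p0 _).le fun g hg => ?_)
    · have h1 := sm m8 e3
      have h2 := sm m9 (show b * kB + 1 < 2 * h by omega)
      have h3 := sm m8 (show b * kB < b * kB + 1 by omega)
      have := p0 (b * kB + 1)
      rw [Ti, ← pow_mul]
      linarith
    · obtain ⟨w, w1, rfl⟩ := hS.exists_geo g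
      have hn : Near D S T u p ρ w (x ^ z) (CN / ell u ^ d) := by
        rcases near w w1 hg with h | h
        · exact h
        · exact absurd h.2.1 he
      obtain ⟨τ, χ, e, a1, a2, a3⟩ := hEXA (x ^ a) (x ^ c) T u p ρ F w (p0 _) (p1 _) (p0 _)
        (by rw [← pow_mul]; exact sm m3 e4) (by rw [← pow_mul]; exact Tge _ (by omega)) N1' r1 r2 r3
        rg.1 (not_lt.1 he) f1 (asm_fp_mono f2 (le_max_left _ _))
        (asm_near_mono hn (by rw [← pow_mul]; exact le e8) nb) (wn hg e7)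
      exact ⟨w, τ, χ, e, w1, rfl, a1, a2, a3⟩

end Pool.Agent.P.MP_a0f0ad_al.Fi
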