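import Pool.Agent.P.MP_a0f0ad_al.Fi.Z.Bg
import Pool.Agent.P.MP_a0f0ad_al.Fi.Z.Bp

/-! The reflection of the filiform group, balls, and monotonicity, for the final assembly. -/

namespace Pool.Agent.P.MP_a0f0ad_al.Fi.TopA

open Finset MeasureTheory
open scoped Pointwise Classical

variable {d : ℕ}

/-- the reflection of the group -/
def phi : G d →* G d where
  toFun g := ⟨fun j => (-1) ^ (j : ℕ) * g.y j, -g.a⟩
  map_one' := G.ext (by funext j; simp) (by simp)
  map_mul' g h := by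
    refine G.ext ?_ (by simp only [G.mul_a]; ring)
    funext j
    simp only [G.mul_y, Pi.add_apply, sh, mul_add, Finset.mul_sum]
    congr 1
    refine Finset.sum_congr rfl fun i _ => ?_
    rcases le_or_gt (i : ℕ) j with hij | hij
    · obtain ⟨n, hn⟩ := Nat.exists_eq_add_of_le hij
      rw [hn, Nat.add_sub_cancel_left, neg_pow g.a, pow_add]
      ring
    · simp [Nat.choose_eq_zero_of_lt hij]

theorem phi_y (g : G d) (j : Fin d) : (phi g).y j = (-1) ^ (j : ℕ) * g.y j := rfl
theorem phi_a (g : G d) : (phi g).a = -g.a := rfl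

theorem phi_phi (g : G d) : phi (phi g) = g := by
  refine G.ext ?_ (by simp [phi_a])
  funext j
  rw [phi_y, phi_y, ← mul_assoc, ← mul_pow]
  simp

theorem sym_phi {S : Finset (G d)} (hS : Sym S) : Sym (S.image phi) := by
  refine ⟨mem_image.2 ⟨1, hS.1, map_one _⟩, fun s hs => ?_, ?_⟩
  · obtain ⟨t, ht, rfl⟩ := mem_image.1 hs
    exact mem_image.2 ⟨t⁻¹, hS.2.1 t ht, map_inv _ _⟩
  · rw [coe_image, ← MonoidHom.map_closure, hS.2.2]
    exact Subgroup.map_top_of_surjective _ fun g => ⟨phi g, phi_phi g⟩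

theorem len_phi (S : Finset (G d)) (g : G d) : len (S.image phi) (phi g) = len S g := by
  unfold len
  congr 1
  ext n
  constructor
  · rintro ⟨w, hw, hl, hp⟩
    refine ⟨w.map phi, fun s hs => ?_, by simpa using hl, ?_⟩
    · obtain ⟨t, ht, rfl⟩ := List.mem_map.1 hs
      obtain ⟨r, hr, rfl⟩ := mem_image.1 (hw t ht)
      rwa [phi_phi]
    · rw [← map_list_prod, hp, phi_phi]
  · rintro ⟨w, hw, hl, hp⟩
    refine ⟨w.map phi, fun s hs => ?_, by simpa using hl, ?_⟩
    · obtain ⟨t, ht, rfl⟩ := List.mem_map.1 hs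
      exact mem_image_of_mem _ (hw t ht)
    · rw [← map_list_prod, hp]

theorem cong_phi {K : ℕ} {g h : G d} (H : Cong K g h) : Cong K (phi g) (phi h) :=
  ⟨H.1.neg, fun j => (H.2 j).mul_left _⟩

/-- the reflection of the limit space -/
def psi (u : E d) : E d := (-u.1, fun j => (-1) ^ (j : ℕ) * u.2 j)

theorem psi_fst (u : E d) : (psi u).1 = -u.1 := rfl

theorem sg_sq (j : ℕ) : ((-1 : ℝ) ^ j) * (-1) ^ j = 1 := by
  rw [← mul_pow]; simp

theorem psi_psi (u : E d) : psi (psi u) = u := by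
  refine Prod.ext (by simp [psi]) ?_
  funext j
  simp only [psi]
  rw [← mul_assoc, sg_sq, one_mul]

theorem psi_sub (u v : E d) : psi (u - v) = psi u - psi v := by
  refine Prod.ext (by simp only [psi, Prod.fst_sub]; ring) ?_
  funext j
  simp only [psi, Prod.snd_sub, Pi.sub_apply]
  ring

theorem psi_smul (c : ℝ) (u : E d) : psi (c • u) = c • psi u := by
  refine Prod.ext (by simp [psi]) ?_
  funext j
  simp only [psi, Prod.smul_snd, Pi.smul_apply, smul_eq_mul]
  ring

theorem abs_psi (u : E d) (j : Fin d) : |(psi u).2 j| = |u.2 j| := by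
  simp [psi, abs_mul]

theorem norm_psi (u : E d) : ‖psi u‖ = ‖u‖ := by
  rw [Prod.norm_def, Prod.norm_def, psi_fst, norm_neg]
  congr 1
  refine le_antisymm ?_ ?_
  · refine (pi_norm_le_iff_of_nonneg (norm_nonneg _)).2 fun j => ?_
    rw [Real.norm_eq_abs, abs_psi]
    exact norm_le_pi_norm u.2 j
  · refine (pi_norm_le_iff_of_nonneg (norm_nonneg _)).2 fun j => ?_
    rw [Real.norm_eq_abs, ← abs_psi]
    exact norm_le_pi_norm (psi u).2 j

theorem pair_psi (p u : E d) : pair (psi p) u = pair p (psi u) := by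
  simp only [pair, dot, psi]
  congr 1
  · ring
  · exact Finset.sum_congr rfl fun j _ => by ring

theorem ell_psi (u : E d) : ell (psi u) = ell u := by
  unfold ell
  simp only [abs_psi, psi_fst, abs_neg]

theorem dil_psi (l : ℝ) (u : E d) : psi (dil l u) = dil l (psi u) := by
  refine Prod.ext (by simp [psi, dil]) ?_
  funext j
  simp only [psi, dil]
  ring

theorem nx_phi (T : ℝ) (g : G d) : nx T (phi g) = psi (nx T g) := by
  refine Prod.ext (by simp [psi, nx, phi_a]) ?_
  funext j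
  simp only [psi, nx, phi_y]
  push_cast
  ring

theorem co_psi (u : E d) : co (psi u).2 0 = co u.2 0 := by
  unfold co
  split_ifs <;> simp [psi]

theorem mp_psi : MeasurePreserving (psi : E d → E d) volume volume := by
  have h1 : ∀ j : Fin d, MeasurePreserving (fun x : ℝ => (-1) ^ (j : ℕ) * x) volume volume := by
    intro j
    rcases neg_one_pow_eq_or ℝ (j : ℕ) with h | h
    · simp only [h, one_mul]
      exact MeasurePreserving.id volume
    · simp only [h, neg_mul, one_mul]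
      exact Measure.measurePreserving_neg volume
  exact (Measure.measurePreserving_neg (volume : Measure ℝ)).prod (volume_preserving_pi h1)

theorem ell_nonneg (u : E d) : 0 ≤ ell u := (abs_nonneg _).trans (le_max_left _ _)

theorem null_axis : volume {u : E d | u.1 = 0} = 0 := by
  have e : {u : E d | u.1 = 0} = ({0} : Set ℝ) ×ˢ (Set.univ : Set (Fin d → ℝ)) := by
    ext u; simp
  rw [e, Measure.volume_eq_prod, Measure.prod_prod]
  simp

theorem nx_sub (T : ℝ) (g : G d) (u : E d) : nx T (phi g) - T • psi u = psi (nx T g - T • u) := by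
  rw [psi_sub, psi_smul, nx_phi]

theorem good_mono {S : Finset (G d)} {N N' W W' : E d → ℝ} {K : ℕ} {C C' θ κ T : ℝ}
    {A : Set (E d)} {u : E d} (h : GoodU S N W K C θ κ A T u) (hN : N' u = N u)
    (hW : W u ≤ W' u) (hC : C ≤ C') (hT : 0 ≤ T) : GoodU S N' W' K C' θ κ A T u := by
  obtain ⟨p, δ, X, h1, h2, ⟨τ, n, a1, a2, a3, a4⟩, h4, h5, h6, h7⟩ := h
  have hp : 0 ≤ T ^ (-θ) := Real.rpow_nonneg hT _
  have hm : C * T ^ (-θ) ≤ C' * T ^ (-θ) := mul_le_mul_of_nonneg_right hC hp
  rw [← hN] at h2 a3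
  refine ⟨p, δ, X, h1.trans hW, fun g hg => (h2 g hg).trans hW,
    ⟨τ, n, a1, fun M => (a2 M).trans hC, a3, fun g hg => ?_⟩, h4.trans hm, h5, h6,
    fun R hR hR' => ?_⟩
  · filter_upwards [a4 g hg] with M hM h hc hn
    refine (hM h hc hn).trans ?_
    split_ifs
    · linarith
    · exact le_rfl
  · exact (h7 R hR hR').trans (ENNReal.ofReal_le_ofReal
      (mul_le_mul_of_nonneg_right hm (by positivity)))

theorem good_psi {S : Finset (G d)} {N N' W W' : E d → ℝ} {K : ℕ} {C θ κ T : ℝ}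
    {A : Set (E d)} {u : E d} (h : GoodU (S.image phi) N W K C θ κ ∅ T (psi u))
    (hN : N' u = N (psi u)) (hW : W' u = W (psi u)) (hA : u ∉ A) :
    GoodU S N' W' K C θ κ A T u := by
  obtain ⟨p, δ, X, h1, h2, ⟨τ, n, a1, a2, a3, a4⟩, h4, -, h6, -⟩ := h
  obtain rfl := h6 (Set.notMem_empty _)
  have e : ∀ (c : ℝ) (v : E d), psi v - c • u = psi (v - c • psi u) := fun c v => by
    rw [psi_sub, psi_smul, psi_psi]
  refine ⟨psi p, δ, ∅, by rwa [norm_psi, hW], fun g hg => ?_,
    ⟨fun M => psi (τ M), n, fun M => ?_, fun M => ?_, fun M => ?_, fun g hg => ?_⟩, h4,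
    fun h => absurd h hA, fun _ => rfl, fun R _ _ => ?_⟩
  · have := h2 (phi g) (by rwa [nx_sub, norm_psi])
    unfold Fb at this ⊢
    rwa [len_phi, nx_sub, ← pair_psi, ← hN, ← hW] at this
  · obtain ⟨ta, tb, b1, b2⟩ := a1 M
    refine ⟨-ta, tb, ?_, by rwa [co_psi]⟩
    rw [psi_fst, b1]
    push_cast
    ring
  · rw [e, norm_psi]
    exact a2 M
  · rw [e, pair_psi, psi_psi, hN]
    exact a3 M
  · filter_upwards [a4 (phi g) (by rwa [nx_sub, norm_psi])] with M hM h hc hn
    have := hM (phi h) (cong_phi hc) (by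
      rw [nx_phi, nx_phi, ← norm_psi, psi_sub, psi_sub, psi_psi, psi_psi]
      exact hn)
    rw [len_phi, len_phi] at this
    simpa using this
  · unfold Frac
    simp

theorem ball_eq {S : Finset (G d)} (hS : Sym S) (n : ℕ) :
    (S : Set (G d)) ^ n = {g | len S g ≤ n} := by
  induction n with
  | zero =>
    ext g
    simp only [pow_zero, Set.mem_one, Set.mem_ofPred_eq]
    refine ⟨fun h => by rw [h, len_one], fun h => ?_⟩
    obtain ⟨w, hw, rfl⟩ := hS.exists_geo g
    rw [← hw.2] at h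
    rw [List.length_eq_zero_iff.1 (Nat.le_zero.1 h), List.prod_nil]
  | succ n ih =>
    rw [pow_succ', ih]
    ext g
    constructor
    · rintro ⟨s, hs, h, hh, rfl⟩
      have a1 := hS.len_mul s h
      have a2 := len_mem (S := S) hs
      have a3 : len S h ≤ n := hh
      show len S (s * h) ≤ n + 1
      omega
    · intro h
      obtain ⟨w, hw, rfl⟩ := hS.exists_geo g
      have h' : w.length ≤ n + 1 := by rw [hw.2]; exact h
      cases w with
      | nil => exact ⟨1, hS.1, 1, by simp [len_one], by simp⟩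
      | cons s w =>
        refine ⟨s, hw.1 s List.mem_cons_self, w.prod, ?_, List.prod_cons.symm⟩
        have a1 := len_le_of_wd (S := S) (w := w) fun t ht => hw.1 t (List.mem_cons_of_mem _ ht)
        rw [List.length_cons] at h'
        show len S w.prod ≤ n
        omega

theorem ball_bound (hd : 1 ≤ d) {S : Finset (G d)} (hS : Sym S) {C : ℝ} (hC : 0 < C)
    (h : ∀ w : List (G d), Wd S w → |(w.prod.a : ℝ)| ≤ C * w.length ∧
      ∀ j : Fin d, |(w.prod.y j : ℝ)| ≤ C * (w.length : ℝ) ^ ((j : ℕ) + 1)) :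
    ∃ C D : ℕ, ∀ n, {g : G d | len S g ≤ n}.ncard ≤ C * (n + 1) ^ D := by
  refine ⟨(2 * ⌈C⌉₊ + 1) ^ (d + 1), d * (d + 1), fun n => ?_⟩
  set B : ℕ := ⌈C⌉₊ * (n + 1) ^ d with hB
  have key : ∀ (x : ℤ) (l k : ℕ), l ≤ n → k ≤ d → |(x : ℝ)| ≤ C * (l : ℝ) ^ k →
      x ∈ Icc (-(B : ℤ)) B := by
    intro x l k hl hk hx
    have a1 : (l : ℝ) ^ k ≤ ((n : ℝ) + 1) ^ d := by
      have b1 : (l : ℝ) ≤ n + 1 := by
        have : (l : ℝ) ≤ n := by exact_mod_cast hl
        linarith
      exact (pow_le_pow_left₀ (Nat.cast_nonneg l) b1 k).trans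
        (pow_le_pow_right₀ (by linarith [Nat.cast_nonneg (α := ℝ) n]) hk)
    have a2 : |(x : ℝ)| ≤ (B : ℝ) := by
      rw [hB]
      push_cast
      exact hx.trans (mul_le_mul (Nat.le_ceil C) a1 (by positivity) (by positivity))
    have a3 : |x| ≤ (B : ℤ) := by exact_mod_cast a2
    exact mem_Icc.2 (abs_le.1 a3)
  have h1 : {g : G d | len S g ≤ n}.ncard ≤
      ((Icc (-(B : ℤ)) B ×ˢ Fintype.piFinset fun _ : Fin d => Icc (-(B : ℤ)) B :
        Finset (ℤ × (Fin d → ℤ))) : Set (ℤ × (Fin d → ℤ))).ncard := by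
    refine Set.ncard_le_ncard_of_injOn (fun g => (g.a, g.y)) (fun g hg => ?_)
      (fun g _ g' _ e => G.ext (Prod.ext_iff.1 e).2 (Prod.ext_iff.1 e).1) (Finset.finite_toSet _)
    obtain ⟨w, hw, rfl⟩ := hS.exists_geo g
    have hl : w.length ≤ n := by rw [hw.2]; exact hg
    obtain ⟨b1, b2⟩ := h w hw.1
    refine mem_coe.2 (mem_product.2 ⟨key _ _ 1 hl hd (by simpa using b1),
      Fintype.mem_piFinset.2 fun j => key _ _ _ hl j.2 (b2 j)⟩)
  rw [Set.ncard_coe_finset, card_product, Fintype.card_piFinset] at h1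
  have e : (Icc (-(B : ℤ)) B).card = 2 * B + 1 := by
    rw [Int.card_Icc]
    omega
  simp only [e, prod_const, card_univ, Fintype.card_fin] at h1
  refine h1.trans ?_
  rw [← pow_succ', pow_mul, ← mul_pow]
  refine Nat.pow_le_pow_left ?_ _
  have : 1 ≤ (n + 1) ^ d := Nat.one_le_pow _ _ (Nat.succ_pos n)
  rw [hB]
  nlinarith

end Pool.Agent.P.MP_a0f0ad_al.Fi.TopA
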