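import Pool.Agent.P.MP_a0f0ad_al.Fi.Z.Iface
import Pool.Agent.P.MP_a0f0ad_al.Fi.W.Iface
import Pool.Agent.P.MP_a0f0ad_al.Fi.I.Iface
import Pool.Agent.P.MP_a0f0ad_al.Fi.V.Iface
import Pool.Agent.P.MP_a0f0ad_al.Fi.Z.Top1

/-! Step TOP of the filiform project. -/

namespace Pool.Agent.P.MP_a0f0ad_al.Fi

open Finset MeasureTheory
open scoped Pointwise

open TopA in
theorem p_TOP (hGRP : S_GRP) (hGRW : S_GRW) (hRAT : S_RAT) (hWL2 : S_WL2) (hINT : S_INT) (hLDX : S_LDX) (hHOM : S_HOM) (hH2N : S_H2N) (hASM : S_ASM) :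
    S_TOP := by
  classical
  intro hall
  obtain ⟨θ, κ, d, hκ, hκθ, hθ, hd, hA⟩ := hASM
  obtain ⟨hfg, hnil⟩ := hGRP d
  obtain ⟨S0, hS0, hPQ⟩ := @hall (G d) _ hfg hnil
  set S : Finset (G d) := insert 1 (S0 ∪ S0.image fun s => s⁻¹) with hSdef
  have hcoe : ({1} : Set (G d)) ∪ (S0 : Set (G d)) ∪ (S0 : Set (G d))⁻¹ = (S : Set (G d)) := by
    ext g
    simp only [hSdef, Set.mem_union, Set.mem_singleton_iff, mem_coe, Set.mem_inv, mem_insert,
      mem_union, mem_image, or_assoc]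
    refine or_congr_right (or_congr_right ⟨fun h => ⟨g⁻¹, h, inv_inv g⟩, ?_⟩)
    rintro ⟨s, hs, rfl⟩
    rwa [inv_inv]
  have hS : Sym S := by
    refine ⟨mem_insert_self _ _, fun s hs => ?_, ?_⟩
    · have h1 : s ∈ (S : Set (G d)) := hs
      show s⁻¹ ∈ (S : Set (G d))
      rw [← hcoe] at h1 ⊢
      rcases h1 with (h | h) | h
      · exact Or.inl (Or.inl (by rw [Set.mem_singleton_iff.1 h, inv_one]; rfl))
      · exact Or.inr (by rwa [Set.mem_inv, inv_inv])
      · exact Or.inl (Or.inr h)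
    · rw [eq_top_iff, ← hS0, ← hcoe]
      exact Subgroup.closure_mono fun s hs => Or.inl (Or.inr hs)
  simp only [hcoe, ball_eq hS] at hPQ
  obtain ⟨Cg, hCg, hgrw⟩ := hGRW d S
  have hpoly := hRAT _ (ball_bound (by omega) hS hCg hgrw) hPQ
  have hS' := sym_phi hS
  obtain ⟨D, hD⟩ := hLDX d S (by omega) hS
  obtain ⟨D', hD'⟩ := hLDX d _ (by omega) hS'
  obtain ⟨Ks, hKs, hA1⟩ := hA S D hD
  obtain ⟨Ks', hKs', hA2⟩ := hA _ D' hD'
  obtain ⟨A, C0, C1, hAo, hAne, hAin, h31, -⟩ :=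
    hA1 (Ks * Ks') (Nat.mul_pos hKs hKs') (Dvd.intro _ rfl)
  obtain ⟨-, C0', C2, -, -, -, -, h32⟩ :=
    hA2 (Ks * Ks') (Nat.mul_pos hKs hKs') (Dvd.intro_left _ rfl)
  obtain ⟨m1, m2, -, ⟨L1, m4⟩, -⟩ := hHOM d S D hD
  obtain ⟨m1', m2', -, ⟨L2, m4'⟩, -⟩ := hHOM d _ D' hD'
  obtain ⟨hell, hL2⟩ := hWL2 d hd
  set N : E d → ℝ := fun u => if 0 ≤ u.1 then D.NN u else D'.NN (psi u) with hN
  have hNp : ∀ u : E d, 0 ≤ u.1 → N u = D.NN u := fun u h => if_pos h
  have hNn : ∀ u : E d, u.1 < 0 → N u = D'.NN (psi u) := fun u h => if_neg h.not_ge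
  have hps : ∀ u : E d, u.1 < 0 → 0 < (psi u).1 := fun u h => by rw [psi_fst]; linarith
  refine hINT d S N θ κ (Ks * Ks') A (by omega) hS hκ hκθ hθ (Nat.mul_pos hKs hKs')
    (fun l u hl => ?_) (fun u => ?_) ⟨max L1 L2, fun u hu => ?_⟩ hAo hAne (fun u hu => ?_)
    (fun L => ?_) hpoly
  · rcases le_or_gt 0 u.1 with h | h
    · rw [hNp u h, hNp _ (mul_nonneg hl.le h), m1 l u hl h]
    · rw [hNn u h, hNn _ (mul_neg_of_pos_of_neg hl h), dil_psi, m1' l _ hl (hps u h).le]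
  · rcases le_or_gt 0 u.1 with h | h
    · rw [hNp u h]; exact m2 u h
    · rw [hNn u h]; exact m2' _ (hps u h).le
  · rcases le_or_gt 0 u.1 with h | h
    · rw [hNp u h] at hu
      exact (m4 u h (by linarith)).trans (le_max_left _ _)
    · rw [hNn u h] at hu
      rw [← norm_psi]
      exact (m4' _ (hps u h).le (by linarith)).trans (le_max_right _ _)
  · rw [hNp u (hAin u hu).1.le]
    exact (hAin u hu).2
  obtain ⟨C3, -, h21⟩ := hH2N d S D L (by omega) hD
  obtain ⟨C4, -, h22⟩ := hH2N d _ D' L (by omega) hD'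
  set Cm : ℝ := max (max C0 C0') (max C3 C4) with hCm
  have hw : ∀ (c : ℝ) (u : E d), c ≤ Cm → c / ell u ^ d ≤ Cm / ell u ^ d := fun c u h =>
    div_le_div_of_nonneg_right h (pow_nonneg (ell_nonneg u) _)
  refine ⟨fun u => Cm / ell u ^ d, |C1| + |C2|, hL2 L Cm, ?_, ?_⟩
  · filter_upwards [hell] with u hu hL T hT g
    rcases le_or_gt 0 u.1 with h | h
    · rw [hNp u h]
      exact (h21 u h hL hu T hT g).trans (mul_le_mul_of_nonneg_right
        (hw _ u ((le_max_left _ _).trans (le_max_right _ _))) (by positivity))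
    · have := h22 (psi u) (hps u h).le (by rwa [norm_psi]) (by rwa [ell_psi]) T hT (phi g)
      rw [len_phi, nx_sub, norm_psi, ell_psi] at this
      rw [hNn u h]
      exact this.trans (mul_le_mul_of_nonneg_right
        (hw _ u ((le_max_right _ _).trans (le_max_right _ _))) (by positivity))
  · filter_upwards [h31, h32] with T ⟨B1, v1, g1⟩ ⟨B2, v2, g2⟩
    have hT : (0 : ℝ) ≤ T := Nat.cast_nonneg T
    have hp : (0 : ℝ) ≤ (T : ℝ) ^ (-(4 * θ)) := Real.rpow_nonneg hT _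
    refine ⟨B1 ∪ psi ⁻¹' B2 ∪ {u | u.1 = 0}, ?_, fun u _ hu hlt => ?_⟩
    · refine (measure_union_le _ _).trans ?_
      rw [null_axis, add_zero]
      refine (measure_union_le _ _).trans ?_
      rw [add_mul, ENNReal.ofReal_add (by positivity) (by positivity)]
      refine add_le_add (v1.trans (ENNReal.ofReal_le_ofReal ?_))
        (((mp_psi.measure_preimage_le B2).trans v2).trans (ENNReal.ofReal_le_ofReal ?_))
      · exact mul_le_mul_of_nonneg_right (le_abs_self _) hp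
      · exact mul_le_mul_of_nonneg_right (le_abs_self _) hp
    · simp only [Set.mem_union, not_or, Set.mem_preimage] at hu
      obtain ⟨⟨n1, n2⟩, n3⟩ := hu
      rcases lt_trichotomy u.1 0 with h | h | h
      · rw [hNn u h] at hlt
        have a1 := g2 (psi u) (hps u h) n2 hlt
        have a2 := good_psi (N' := N) (W' := fun u => C0' / ell u ^ d) (A := A) a1 (hNn u h)
          (by simp only [ell_psi]) fun hu => absurd (hAin u hu).1 h.not_gt
        exact good_mono a2 rfl (hw _ u ((le_max_right _ _).trans (le_max_left _ _)))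
          ((le_abs_self _).trans (le_add_of_nonneg_left (abs_nonneg _))) hT
      · exact absurd h n3
      · rw [hNp u h.le] at hlt
        exact good_mono (g1 u h n1 hlt) (hNp u h.le)
          (hw _ u ((le_max_left _ _).trans (le_max_left _ _)))
          ((le_abs_self _).trans (le_add_of_nonneg_right (abs_nonneg _))) hT

end Pool.Agent.P.MP_a0f0ad_al.Fi
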