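import Pool.Agent.P.MP_a0f0ad_al.Fi.W.Grp
import Pool.Agent.P.MP_a0f0ad_al.Fi.I.Grw
import Pool.Agent.P.MP_a0f0ad_al.Fi.I.Rat
import Pool.Agent.P.MP_a0f0ad_al.Fi.I.Wl2
import Pool.Agent.P.MP_a0f0ad_al.Fi.I.Int
import Pool.Agent.P.MP_a0f0ad_al.Fi.V.Ldx
import Pool.Agent.P.MP_a0f0ad_al.Fi.V.Mark
import Pool.Agent.P.MP_a0f0ad_al.Fi.V.Pen
import Pool.Agent.P.MP_a0f0ad_al.Fi.V.Hom
import Pool.Agent.P.MP_a0f0ad_al.Fi.R.Fo
import Pool.Agent.P.MP_a0f0ad_al.Fi.V.Att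
import Pool.Agent.P.MP_a0f0ad_al.Fi.V.Apr
import Pool.Agent.P.MP_a0f0ad_al.Fi.W.Acc
import Pool.Agent.P.MP_a0f0ad_al.Fi.W.H2n
import Pool.Agent.P.MP_a0f0ad_al.Fi.V.Subg
import Pool.Agent.P.MP_a0f0ad_al.Fi.V.Kkt
import Pool.Agent.P.MP_a0f0ad_al.Fi.V.Pub
import Pool.Agent.P.MP_a0f0ad_al.Fi.V.Opt
import Pool.Agent.P.MP_a0f0ad_al.Fi.W.Lip
import Pool.Agent.P.MP_a0f0ad_al.Fi.W.Fb
import Pool.Agent.P.MP_a0f0ad_al.Fi.N.Qlow
import Pool.Agent.P.MP_a0f0ad_al.Fi.N.Nloc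
import Pool.Agent.P.MP_a0f0ad_al.Fi.N.Nid
import Pool.Agent.P.MP_a0f0ad_al.Fi.N.Ncmp
import Pool.Agent.P.MP_a0f0ad_al.Fi.N.Nom
import Pool.Agent.P.MP_a0f0ad_al.Fi.N.Nyq
import Pool.Agent.P.MP_a0f0ad_al.Fi.N.Natm
import Pool.Agent.P.MP_a0f0ad_al.Fi.N.Npin
import Pool.Agent.P.MP_a0f0ad_al.Fi.N.Nfla
import Pool.Agent.P.MP_a0f0ad_al.Fi.N.Nflb
import Pool.Agent.P.MP_a0f0ad_al.Fi.N.Nfra
import Pool.Agent.P.MP_a0f0ad_al.Fi.N.Nfrb
import Pool.Agent.P.MP_a0f0ad_al.Fi.N.Stabr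
import Pool.Agent.P.MP_a0f0ad_al.Fi.N.Nrng
import Pool.Agent.P.MP_a0f0ad_al.Fi.N.Ntrim
import Pool.Agent.P.MP_a0f0ad_al.Fi.N.Near
import Pool.Agent.P.MP_a0f0ad_al.Fi.N.Exr
import Pool.Agent.P.MP_a0f0ad_al.Fi.F.Fblk
import Pool.Agent.P.MP_a0f0ad_al.Fi.F.Fext
import Pool.Agent.P.MP_a0f0ad_al.Fi.F.Fex
import Pool.Agent.P.MP_a0f0ad_al.Fi.F.Fnode
import Pool.Agent.P.MP_a0f0ad_al.Fi.F.Fjun
import Pool.Agent.P.MP_a0f0ad_al.Fi.F.Fatm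
import Pool.Agent.P.MP_a0f0ad_al.Fi.F.Fint
import Pool.Agent.P.MP_a0f0ad_al.Fi.F.Fzs
import Pool.Agent.P.MP_a0f0ad_al.Fi.F.Fbd
import Pool.Agent.P.MP_a0f0ad_al.Fi.F.Tf
import Pool.Agent.P.MP_a0f0ad_al.Fi.F.Fcov
import Pool.Agent.P.MP_a0f0ad_al.Fi.F.Fhb
import Pool.Agent.P.MP_a0f0ad_al.Fi.F.Flen
import Pool.Agent.P.MP_a0f0ad_al.Fi.F.Bias
import Pool.Agent.P.MP_a0f0ad_al.Fi.F.Frk
import Pool.Agent.P.MP_a0f0ad_al.Fi.F.Kron
import Pool.Agent.P.MP_a0f0ad_al.Fi.F.Fkd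
import Pool.Agent.P.MP_a0f0ad_al.Fi.F.Kr
import Pool.Agent.P.MP_a0f0ad_al.Fi.V.Optc
import Pool.Agent.P.MP_a0f0ad_al.Fi.F.Flat
import Pool.Agent.P.MP_a0f0ad_al.Fi.X.Xfr
import Pool.Agent.P.MP_a0f0ad_al.Fi.X.Xfo
import Pool.Agent.P.MP_a0f0ad_al.Fi.X.Xfs
import Pool.Agent.P.MP_a0f0ad_al.Fi.X.Xct
import Pool.Agent.P.MP_a0f0ad_al.Fi.X.Xcl
import Pool.Agent.P.MP_a0f0ad_al.Fi.X.Xca
import Pool.Agent.P.MP_a0f0ad_al.Fi.X.Xcls
import Pool.Agent.P.MP_a0f0ad_al.Fi.X.Xlen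
import Pool.Agent.P.MP_a0f0ad_al.Fi.X.Xsep
import Pool.Agent.P.MP_a0f0ad_al.Fi.X.Xlam
import Pool.Agent.P.MP_a0f0ad_al.Fi.X.Xsb
import Pool.Agent.P.MP_a0f0ad_al.Fi.X.Xbt
import Pool.Agent.P.MP_a0f0ad_al.Fi.X.Xcut
import Pool.Agent.P.MP_a0f0ad_al.Fi.X.Xld
import Pool.Agent.P.MP_a0f0ad_al.Fi.X.Xlet
import Pool.Agent.P.MP_a0f0ad_al.Fi.X.Xob
import Pool.Agent.P.MP_a0f0ad_al.Fi.X.Xexc
import Pool.Agent.P.MP_a0f0ad_al.Fi.X.Xbal
import Pool.Agent.P.MP_a0f0ad_al.Fi.X.Xplb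
import Pool.Agent.P.MP_a0f0ad_al.Fi.X.Xnat
import Pool.Agent.P.MP_a0f0ad_al.Fi.X.Xr2
import Pool.Agent.P.MP_a0f0ad_al.Fi.X.Xidy
import Pool.Agent.P.MP_a0f0ad_al.Fi.X.Xmass
import Pool.Agent.P.MP_a0f0ad_al.Fi.X.Xmg
import Pool.Agent.P.MP_a0f0ad_al.Fi.X.Xmc
import Pool.Agent.P.MP_a0f0ad_al.Fi.X.Xmid
import Pool.Agent.P.MP_a0f0ad_al.Fi.X.Xstep
import Pool.Agent.P.MP_a0f0ad_al.Fi.X.Xchs
import Pool.Agent.P.MP_a0f0ad_al.Fi.X.Xzc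
import Pool.Agent.P.MP_a0f0ad_al.Fi.X.Xtest
import Pool.Agent.P.MP_a0f0ad_al.Fi.X.Xtay
import Pool.Agent.P.MP_a0f0ad_al.Fi.X.Xpin
import Pool.Agent.P.MP_a0f0ad_al.Fi.X.Xcha
import Pool.Agent.P.MP_a0f0ad_al.Fi.X.Xchi
import Pool.Agent.P.MP_a0f0ad_al.Fi.X.Xll
import Pool.Agent.P.MP_a0f0ad_al.Fi.X.Xlt
import Pool.Agent.P.MP_a0f0ad_al.Fi.X.Xle
import Pool.Agent.P.MP_a0f0ad_al.Fi.X.Xlp
import Pool.Agent.P.MP_a0f0ad_al.Fi.X.Xdec
import Pool.Agent.P.MP_a0f0ad_al.Fi.X.Xdual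
import Pool.Agent.P.MP_a0f0ad_al.Fi.X.Xsig
import Pool.Agent.P.MP_a0f0ad_al.Fi.X.Xboot
import Pool.Agent.P.MP_a0f0ad_al.Fi.X.Exa
import Pool.Agent.P.MP_a0f0ad_al.Fi.X.Xslk
import Pool.Agent.P.MP_a0f0ad_al.Fi.X.Exb
import Pool.Agent.P.MP_a0f0ad_al.Fi.X.Xng
import Pool.Agent.P.MP_a0f0ad_al.Fi.X.Xmeas
import Pool.Agent.P.MP_a0f0ad_al.Fi.X.Xxb
import Pool.Agent.P.MP_a0f0ad_al.Fi.X.Xna
import Pool.Agent.P.MP_a0f0ad_al.Fi.X.Xcoa
import Pool.Agent.P.MP_a0f0ad_al.Fi.X.Xcob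
import Pool.Agent.P.MP_a0f0ad_al.Fi.X.Xcop
import Pool.Agent.P.MP_a0f0ad_al.Fi.X.Xcog
import Pool.Agent.P.MP_a0f0ad_al.Fi.X.Xnb
import Pool.Agent.P.MP_a0f0ad_al.Fi.X.Xnc
import Pool.Agent.P.MP_a0f0ad_al.Fi.X.Xfam
import Pool.Agent.P.MP_a0f0ad_al.Fi.X.Xcov
import Pool.Agent.P.MP_a0f0ad_al.Fi.X.Xrinv
import Pool.Agent.P.MP_a0f0ad_al.Fi.X.Xlat
import Pool.Agent.P.MP_a0f0ad_al.Fi.X.Xtube
import Pool.Agent.P.MP_a0f0ad_al.Fi.X.Xcnt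
import Pool.Agent.P.MP_a0f0ad_al.Fi.X.Exn
import Pool.Agent.P.MP_a0f0ad_al.Fi.S.Proj
import Pool.Agent.P.MP_a0f0ad_al.Fi.S.Uf
import Pool.Agent.P.MP_a0f0ad_al.Fi.S.Null
import Pool.Agent.P.MP_a0f0ad_al.Fi.S.Diff
import Pool.Agent.P.MP_a0f0ad_al.Fi.S.Tail
import Pool.Agent.P.MP_a0f0ad_al.Fi.S.Thin
import Pool.Agent.P.MP_a0f0ad_al.Fi.S.Osc
import Pool.Agent.P.MP_a0f0ad_al.Fi.S.Intg
import Pool.Agent.P.MP_a0f0ad_al.Fi.H.Defn
import Pool.Agent.P.MP_a0f0ad_al.Fi.H.Oscn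
import Pool.Agent.P.MP_a0f0ad_al.Fi.S.Choice
import Pool.Agent.P.MP_a0f0ad_al.Fi.S.Enum
import Pool.Agent.P.MP_a0f0ad_al.Fi.T.Tcp
import Pool.Agent.P.MP_a0f0ad_al.Fi.H.Good
import Pool.Agent.P.MP_a0f0ad_al.Fi.R.Rctk
import Pool.Agent.P.MP_a0f0ad_al.Fi.R.Rcvl
import Pool.Agent.P.MP_a0f0ad_al.Fi.R.Rbtx
import Pool.Agent.P.MP_a0f0ad_al.Fi.R.Rswp
import Pool.Agent.P.MP_a0f0ad_al.Fi.R.Rmov
import Pool.Agent.P.MP_a0f0ad_al.Fi.R.Rseq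
import Pool.Agent.P.MP_a0f0ad_al.Fi.R.Rpar
import Pool.Agent.P.MP_a0f0ad_al.Fi.R.Rrun
import Pool.Agent.P.MP_a0f0ad_al.Fi.R.Rexc
import Pool.Agent.P.MP_a0f0ad_al.Fi.R.Regd
import Pool.Agent.P.MP_a0f0ad_al.Fi.R.Rinv
import Pool.Agent.P.MP_a0f0ad_al.Fi.R.Rjw
import Pool.Agent.P.MP_a0f0ad_al.Fi.R.Rcell
import Pool.Agent.P.MP_a0f0ad_al.Fi.R.Rsd
import Pool.Agent.P.MP_a0f0ad_al.Fi.R.Rvar
import Pool.Agent.P.MP_a0f0ad_al.Fi.R.Rske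
import Pool.Agent.P.MP_a0f0ad_al.Fi.R.Rskp
import Pool.Agent.P.MP_a0f0ad_al.Fi.R.Ryt
import Pool.Agent.P.MP_a0f0ad_al.Fi.R.Rbt
import Pool.Agent.P.MP_a0f0ad_al.Fi.R.Ritl
import Pool.Agent.P.MP_a0f0ad_al.Fi.R.Rita
import Pool.Agent.P.MP_a0f0ad_al.Fi.R.Rtgp
import Pool.Agent.P.MP_a0f0ad_al.Fi.R.Rtgs
import Pool.Agent.P.MP_a0f0ad_al.Fi.R.Rtgc
import Pool.Agent.P.MP_a0f0ad_al.Fi.R.Rtri
import Pool.Agent.P.MP_a0f0ad_al.Fi.R.Rtgb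
import Pool.Agent.P.MP_a0f0ad_al.Fi.R.Rtog
import Pool.Agent.P.MP_a0f0ad_al.Fi.R.Rt0
import Pool.Agent.P.MP_a0f0ad_al.Fi.R.Pta
import Pool.Agent.P.MP_a0f0ad_al.Fi.R.Ptb
import Pool.Agent.P.MP_a0f0ad_al.Fi.R.Ptf
import Pool.Agent.P.MP_a0f0ad_al.Fi.Z.Asm
import Pool.Agent.P.MP_a0f0ad_al.Fi.Z.Top

namespace Pool.Agent.P.MP_a0f0ad_al.Fi

theorem all_GRP : S_GRP := p_GRP
theorem all_GRW : S_GRW := p_GRW
theorem all_RAT : S_RAT := p_RAT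
theorem all_WL2 : S_WL2 := p_WL2
theorem all_INT : S_INT := p_INT all_GRW
theorem all_LDX : S_LDX := p_LDX
theorem all_MARK : S_MARK := p_MARK
theorem all_PEN : S_PEN := p_PEN all_MARK
theorem all_HOM : S_HOM := p_HOM all_MARK all_PEN
theorem all_FO : S_FO := p_FO
theorem all_ATT : S_ATT := p_ATT all_MARK all_PEN all_HOM
theorem all_APR : S_APR := p_APR all_MARK all_PEN
theorem all_ACC : S_ACC := p_ACC all_FO
theorem all_H2N : S_H2N := p_H2N all_FO all_GRW all_MARK all_PEN all_HOM all_ATT all_APR all_ACC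
theorem all_SUBG : S_SUBG := p_SUBG all_PEN all_HOM
theorem all_KKT : S_KKT := p_KKT all_PEN
theorem all_PUB : S_PUB := p_PUB all_PEN
theorem all_OPT : S_OPT := p_OPT all_MARK all_PEN all_HOM all_ATT all_SUBG all_KKT all_PUB
theorem all_LIP : S_LIP := p_LIP all_H2N
theorem all_FB : S_FB := p_FB all_HOM all_H2N all_LIP
theorem all_QLOW : S_QLOW := p_QLOW all_HOM all_PUB
theorem all_NLOC : S_NLOC := p_NLOC
theorem all_NID : S_NID := p_NID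
theorem all_NCMP : S_NCMP := p_NCMP all_NID
theorem all_NOM : S_NOM := p_NOM all_NLOC
theorem all_NYQ : S_NYQ := p_NYQ all_NLOC
theorem all_NATM : S_NATM := p_NATM all_NLOC
theorem all_NPIN : S_NPIN := p_NPIN
theorem all_NFLA : S_NFLA := p_NFLA all_NLOC all_NPIN
theorem all_NFLB : S_NFLB := p_NFLB all_NLOC
theorem all_NFRA : S_NFRA := p_NFRA all_NLOC all_NPIN
theorem all_NFRB : S_NFRB := p_NFRB all_NLOC
theorem all_STABR : S_STABR := p_STABR all_HOM all_PUB all_NLOC all_NCMP all_NOM all_NYQ all_NATM all_NFLA all_NFLB all_NFRA all_NFRB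
theorem all_NRNG : S_NRNG := p_NRNG all_FO all_GRW
theorem all_NTRIM : S_NTRIM := p_NTRIM all_HOM all_PUB all_NID
theorem all_NEAR : S_NEAR := p_NEAR all_MARK all_PEN all_HOM all_KKT all_PUB all_ACC all_FB all_STABR all_NPIN all_NID all_NOM all_NRNG all_NTRIM
theorem all_EXR : S_EXR := p_EXR all_MARK all_PEN all_HOM all_ATT all_SUBG all_KKT all_PUB
theorem all_FBLK : S_FBLK := p_FBLK
theorem all_FEXT : S_FEXT := p_FEXT all_FBLK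
theorem all_FEX : S_FEX := p_FEX all_FEXT
theorem all_FNODE : S_FNODE := p_FNODE
theorem all_FJUN : S_FJUN := p_FJUN
theorem all_FATM : S_FATM := p_FATM
theorem all_FINT : S_FINT := p_FINT all_FATM
theorem all_FZS : S_FZS := p_FZS all_FATM
theorem all_FBD : S_FBD := p_FBD
theorem all_TF : S_TF := p_TF all_HOM all_PUB all_FEX all_FNODE all_FJUN all_FINT all_FZS all_FBD
theorem all_FCOV : S_FCOV := p_FCOV
theorem all_FHB : S_FHB := p_FHB all_FCOV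
theorem all_FLEN : S_FLEN := p_FLEN all_FJUN
theorem all_BIAS : S_BIAS := p_BIAS all_HOM all_PUB all_FHB all_FLEN all_FJUN all_FNODE all_FBD
theorem all_FRK : S_FRK := p_FRK all_FJUN all_FNODE
theorem all_KRON : S_KRON := p_KRON
theorem all_FKD : S_FKD := p_FKD all_KRON all_FJUN all_FNODE
theorem all_KR : S_KR := p_KR all_HOM all_PUB all_FRK all_FKD
theorem all_OPTC : S_OPTC := p_OPTC all_MARK all_PEN all_HOM all_ATT all_SUBG all_KKT all_PUB all_APR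
theorem all_FLAT : S_FLAT := p_FLAT all_MARK all_PEN all_HOM all_KKT all_PUB all_OPTC
theorem all_XFR : S_XFR := p_XFR
theorem all_XFO : S_XFO := p_XFO
theorem all_XFS : S_XFS := p_XFS all_XFO
theorem all_XCT : S_XCT := p_XCT all_XFR all_XFO all_XFS all_NLOC
theorem all_XCL : S_XCL := p_XCL all_XFR all_XFO all_XFS all_NLOC
theorem all_XCA : S_XCA := p_XCA all_XFR all_XFO all_XFS all_NLOC
theorem all_XCLS : S_XCLS := p_XCLS all_XFR all_XFO all_XFS all_NLOC all_XCL all_XCT all_XCA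
theorem all_XLEN : S_XLEN := p_XLEN all_FO all_XFR
theorem all_XSEP : S_XSEP := p_XSEP all_XFR all_XFO all_XFS all_NLOC all_XCLS
theorem all_XLAM : S_XLAM := p_XLAM all_XFO all_XFS all_NPIN
theorem all_XSB : S_XSB := p_XSB all_XFR all_XLAM all_XLEN
theorem all_XBT : S_XBT := p_XBT all_XFR all_XLEN all_XSB all_NOM
theorem all_XCUT : S_XCUT := p_XCUT all_XFO all_XSEP all_XLEN all_XBT
theorem all_XLD : S_XLD := p_XLD all_XFO all_XFS all_XCL all_XSEP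
theorem all_XLET : S_XLET := p_XLET all_XFR all_XFO all_XLD all_XLEN
theorem all_XOB : S_XOB := p_XOB all_XFO all_XLEN all_XSB
theorem all_XEXC : S_XEXC := p_XEXC all_XFR all_XFO all_XLD all_XLEN all_XSB all_XOB
theorem all_XBAL : S_XBAL := p_XBAL all_XFR all_XFO all_XLEN all_XLET all_XEXC
theorem all_XPLB : S_XPLB := p_XPLB all_XFO
theorem all_XNAT : S_XNAT := p_XNAT all_XFO all_XLEN all_XBT all_XPLB
theorem all_XR2 : S_XR2 := p_XR2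
theorem all_XIDY : S_XIDY := p_XIDY all_XFR all_XFO all_XR2 all_XLEN
theorem all_XMASS : S_XMASS := p_XMASS all_XFO
theorem all_XMG : S_XMG := p_XMG all_XFR all_XFO all_XFS all_NLOC all_XSEP
theorem all_XMC : S_XMC := p_XMC all_XFR all_XFO all_XMG all_XLEN all_XSB
theorem all_XMID : S_XMID := p_XMID all_XFR all_XFO all_XFS all_XLEN all_XMC
theorem all_XSTEP : S_XSTEP := p_XSTEP
theorem all_XCHS : S_XCHS := p_XCHS all_XFR all_XFO all_XFS all_XSTEP all_XLEN all_XMC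
theorem all_XZC : S_XZC := p_XZC all_XFO all_XLEN all_XOB all_XLET all_XEXC
theorem all_XTEST : S_XTEST := p_XTEST all_XFR all_XFO all_XCLS
theorem all_XTAY : S_XTAY := p_XTAY all_XFR all_XFO all_XR2 all_XLEN all_XOB all_XLET
theorem all_XPIN : S_XPIN := p_XPIN all_XFR all_XFO all_XTEST all_XLEN all_XOB all_XLET all_XZC all_XIDY all_XTAY all_XMID
theorem all_XCHA : S_XCHA := p_XCHA all_XFR all_XFO all_XCLS all_XLEN all_XOB all_XLET all_XEXC all_XZC all_XPIN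
theorem all_XCHI : S_XCHI := p_XCHI all_XFR all_XFO all_XCHS all_XCHA
theorem all_XLL : S_XLL := p_XLL all_XFR all_XFO all_XCL all_XLEN all_XOB all_XLET all_XEXC all_XZC all_XTAY
theorem all_XLT : S_XLT := p_XLT all_XFR all_XFO all_XCT all_XLEN all_XOB all_XLET all_XEXC all_XTAY all_XPIN
theorem all_XLE : S_XLE := p_XLE all_XFR all_XFO all_XLEN all_XOB all_XLET all_XEXC all_XZC all_XTAY
theorem all_XLP : S_XLP := p_XLP all_XFR all_XFO all_XLEN all_XOB all_XLET all_XEXC all_XTAY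
theorem all_XDEC : S_XDEC := p_XDEC all_XFR all_XCT all_XCLS all_XLEN all_XCUT all_XBAL all_XNAT all_XIDY all_XMASS all_XMID all_XCHI all_XLL all_XLT all_XLE all_XLP
theorem all_XDUAL : S_XDUAL := p_XDUAL
theorem all_XSIG : S_XSIG := p_XSIG all_XFR all_XFO all_XLAM all_XLEN
theorem all_XBOOT : S_XBOOT := p_XBOOT all_XFR all_XFO all_XCLS all_XDUAL all_XLEN all_XOB all_XMASS all_XMID all_XSIG all_XLP
theorem all_EXA : S_EXA := p_EXA all_XDEC all_XBOOT all_XSIG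
theorem all_XSLK : S_XSLK := p_XSLK all_XFR all_XFO all_XFS all_XLEN all_XSB all_XOB all_XEXC all_XMC
theorem all_EXB : S_EXB := p_EXB all_XCUT all_XNAT all_XCHI all_XSIG all_XSLK all_XLEN all_XCT
theorem all_XNG : S_XNG := p_XNG all_XFR all_XFO all_XCL all_XCLS all_XSEP all_NLOC
theorem all_XMEAS : S_XMEAS := p_XMEAS
theorem all_XXB : S_XXB := p_XXB all_XFR all_XFO all_XMEAS
theorem all_XNA : S_XNA := p_XNA all_XFR all_XDEC all_XXB all_XNG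
theorem all_XCOA : S_XCOA := p_XCOA
theorem all_XCOB : S_XCOB := p_XCOB all_XCOA
theorem all_XCOP : S_XCOP := p_XCOP
theorem all_XCOG : S_XCOG := p_XCOG all_XMEAS all_XCOB all_XCOP
theorem all_XNB : S_XNB := p_XNB all_XFR all_XFO all_XSEP all_XLEN all_XMC all_XPLB all_XMASS all_XMID all_XCOG all_XNG
theorem all_XNC : S_XNC := p_XNC all_XFR all_XFO all_XLEN all_XSB all_XOB all_XLET all_XLP all_XNG
theorem all_XFAM : S_XFAM := p_XFAM all_XFR all_XMASS all_XNG all_XNA all_XNB all_XNC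
theorem all_XCOV : S_XCOV := p_XCOV
theorem all_XRINV : S_XRINV := p_XRINV
theorem all_XLAT : S_XLAT := p_XLAT all_XCOV all_XRINV
theorem all_XTUBE : S_XTUBE := p_XTUBE all_XCOV
theorem all_XCNT : S_XCNT := p_XCNT all_XLAT all_XTUBE
theorem all_EXN : S_EXN := p_EXN all_XFAM all_XCNT
theorem all_PROJ : S_PROJ := p_PROJ
theorem all_UF : S_UF := p_UF
theorem all_NULL : S_NULL := p_NULL
theorem all_DIFF : S_DIFF := p_DIFF all_PROJ all_UF all_NULL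
theorem all_TAIL : S_TAIL := p_TAIL all_PROJ all_UF all_NULL
theorem all_THIN : S_THIN := p_THIN all_PROJ all_UF all_NULL
theorem all_OSC : S_OSC := p_OSC all_PROJ all_UF all_NULL all_DIFF all_TAIL all_THIN
theorem all_INTG : S_INTG := p_INTG all_PROJ all_UF
theorem all_DEFN : S_DEFN := p_DEFN all_PROJ all_INTG all_PEN all_HOM all_ATT
theorem all_OSCN : S_OSCN := p_OSCN all_OSC all_DEFN all_HOM all_LIP
theorem all_CHOICE : S_CHOICE := p_CHOICE all_PROJ all_UF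
theorem all_ENUM : S_ENUM := p_ENUM all_PROJ all_UF all_CHOICE
theorem all_TCP : S_TCP := p_TCP all_MARK
theorem all_GOOD : S_GOOD := p_GOOD all_PROJ all_UF all_NULL all_CHOICE all_ENUM all_DIFF all_TAIL all_DEFN all_MARK all_PEN all_HOM all_PUB all_QLOW all_TCP
theorem all_RCTK : S_RCTK := p_RCTK
theorem all_RCVL : S_RCVL := p_RCVL
theorem all_RBTX : S_RBTX := p_RBTX all_RCTK all_RCVL
theorem all_RSWP : S_RSWP := p_RSWP
theorem all_RMOV : S_RMOV := p_RMOV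
theorem all_RSEQ : S_RSEQ := p_RSEQ
theorem all_RPAR : S_RPAR := p_RPAR all_RSWP all_RMOV all_RSEQ
theorem all_RRUN : S_RRUN := p_RRUN all_FO
theorem all_REXC : S_REXC := p_REXC all_RRUN
theorem all_REGD : S_REGD := p_REGD all_REXC
theorem all_RINV : S_RINV := p_RINV
theorem all_RJW : S_RJW := p_RJW all_RINV
theorem all_RCELL : S_RCELL := p_RCELL all_RPAR all_REGD all_RJW all_RINV
theorem all_RSD : S_RSD := p_RSD
theorem all_RVAR : S_RVAR := p_RVAR all_RSD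
theorem all_RSKE : S_RSKE := p_RSKE all_RRUN
theorem all_RSKP : S_RSKP := p_RSKP all_RRUN
theorem all_RYT : S_RYT := p_RYT
theorem all_RBT : S_RBT := p_RBT all_RBTX all_RCELL all_RVAR all_RSKE all_RSKP all_RYT
theorem all_RITL : S_RITL := p_RITL
theorem all_RITA : S_RITA := p_RITA
theorem all_RTGP : S_RTGP := p_RTGP
theorem all_RTGS : S_RTGS := p_RTGS
theorem all_RTGC : S_RTGC := p_RTGC
theorem all_RTRI : S_RTRI := p_RTRI
theorem all_RTGB : S_RTGB := p_RTGB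
theorem all_RTOG : S_RTOG := p_RTOG all_RTGP all_RTGS all_RTGC all_RTRI all_RTGB
theorem all_RT0 : S_RT0 := p_RT0 all_RBT all_RITL all_RITA all_RTOG all_RYT
theorem all_PTA : S_PTA := p_PTA all_RT0
theorem all_PTB : S_PTB := p_PTB all_RT0
theorem all_PTF : S_PTF := p_PTF all_RT0
theorem all_ASM : S_ASM := p_ASM all_HOM all_OPT all_FB all_QLOW all_NEAR all_EXR all_TF all_BIAS all_KR all_FLAT all_EXA all_EXB all_EXN all_OSCN all_GOOD all_PTA all_PTB all_PTF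
theorem all_TOP : S_TOP := p_TOP all_GRP all_GRW all_RAT all_WL2 all_INT all_LDX all_HOM all_H2N all_ASM

end Pool.Agent.P.MP_a0f0ad_al.Fi
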