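import Pool.Agent.P.MP_a0f0ad_al.Fi.Z.Grp

/-! The limit problem: letter data, the dual functional, representations, good points. -/

namespace Pool.Agent.P.MP_a0f0ad_al.Fi

open Finset MeasureTheory
open scoped Classical

noncomputable section

variable {d : ℕ}

/-- letter data: the upward vertices `A 0, ..., A n`, the thresholds `th 0 < ... < th (n-1)`,
the bound `Q` and the waiting letter `C` -/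
structure LD (d : ℕ) where
  n : ℕ
  A : ℕ → G d
  th : ℕ → ℝ
  Q : ℝ
  C : G d

namespace LD

variable (D : LD d)

def idx (u : ℝ) : ℕ := ((range D.n).filter fun k => D.th k < u).card
def kap (k : ℕ) : ℝ := ((D.A k).b : ℝ) / ((D.A k).a : ℝ)
def kp (u : ℝ) : ℝ := D.kap (D.idx u)
def lp (u : ℝ) : ℝ := (1 - ((D.A (D.idx u)).b : ℝ) * u) / ((D.A (D.idx u)).a : ℝ)
def lam (up : Bool) (u : ℝ) : ℝ := if up then D.lp u else -D.lp (-u)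
def om (u : ℝ) : ℝ := D.lp u + D.lp (-u)
def be (u : ℝ) : ℝ := D.kp u - D.kp (-u)
def slk (up : Bool) (s : G d) (u : ℝ) : ℝ := 1 - (s.b : ℝ) * u - (s.a : ℝ) * D.lam up u
def ThA : Set ℝ := {w | w = D.Q ∨ w = -D.Q ∨ ∃ k < D.n, w = D.th k ∨ w = -D.th k}
def K0 : ℕ := ∏ k ∈ range (D.n + 1), (D.A k).a.toNat
def Lam : ℝ := 3 / D.lp 0
/-- the jump of `be` at `u` -/
def Jb (u : ℝ) : ℝ := ∑ k ∈ range D.n,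
  ((if D.th k = u then D.kap (k + 1) - D.kap k else 0) +
    if D.th k = -u then D.kap (k + 1) - D.kap k else 0)

structure Spec (S : Finset (G d)) : Prop where
  sym : Sym S
  Qpos : 0 < D.Q
  memA : ∀ k ≤ D.n, D.A k ∈ S ∧ 0 < (D.A k).a
  thQ : ∀ k < D.n, -D.Q < D.th k ∧ D.th k < D.Q
  thmono : ∀ k, k + 1 < D.n → D.th k < D.th (k + 1)
  kapmono : ∀ k < D.n, D.kap k < D.kap (k + 1)
  cont : ∀ k < D.n, (1 - ((D.A k).b : ℝ) * D.th k) / ((D.A k).a : ℝ) =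
    (1 - ((D.A (k + 1)).b : ℝ) * D.th k) / ((D.A (k + 1)).a : ℝ)
  slk_nonneg : ∀ s ∈ S, ∀ u, |u| ≤ D.Q → 0 ≤ D.slk true s u
  slk_zero : ∀ s ∈ S, ∀ u, |u| < D.Q → (∀ k < D.n, u ≠ D.th k) → D.slk true s u = 0 →
    s.a = (D.A (D.idx u)).a ∧ s.b = (D.A (D.idx u)).b
  wait : 0 < D.om D.Q → D.C ∈ S ∧ D.C.a = 0 ∧ D.Q * (D.C.b : ℝ) = 1

def Feas (q : Fin d → ℝ) (m M : ℝ) : Prop := ∀ x ∈ Set.Icc m M, |ev q 0 x| ≤ D.Q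

/-- the dual functional of the path `0, m, M, a` -/
def Bf (q : Fin d → ℝ) (m M : ℝ) (u : E d) : ℝ :=
  dot q u.2 + (∫ x in m..M, D.lp (ev q 0 x)) + (∫ x in m..0, D.lp (-ev q 0 x)) +
    ∫ x in u.1..M, D.lp (-ev q 0 x)

def Psi (m M : ℝ) (u : E d) : ℝ := sSup {r | ∃ q, D.Feas q m M ∧ r = D.Bf q m M u}

/-- the limit length, for `0 ≤ u.1` -/
def NN (u : E d) : ℝ := sInf {r | ∃ m M, m ≤ 0 ∧ u.1 ≤ M ∧ m < M ∧ r = D.Psi m M u}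

/-- the deposit of the three passes -/
def Yq (q : Fin d → ℝ) (m M a : ℝ) : Fin d → ℝ := fun j =>
  (∫ x in m..M, D.kp (ev q 0 x) * Vd 0 x j) - (∫ x in m..0, D.kp (-ev q 0 x) * Vd 0 x j) -
    ∫ x in a..M, D.kp (-ev q 0 x) * Vd 0 x j

/-- the integral of `be (q) * f` -/
def Ib (q f : Fin d → ℝ) (s t : ℝ) : ℝ := ∫ x in s..t, D.be (ev q 0 x) * ev f 0 x

end LD

/-- dual polynomial, range, atoms and their signed masses -/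
structure RD (d : ℕ) where
  q : Fin d → ℝ
  m : ℝ
  M : ℝ
  Z : Finset ℝ
  mu : ℝ → ℝ

namespace RD

variable (ρ : RD d) (D : LD d)

def muAt (x : ℝ) : ℝ := if x ∈ ρ.Z then ρ.mu x else 0
def DM : ℝ := D.om (ev ρ.q 0 ρ.M) - ρ.muAt ρ.M * ev ρ.q 1 ρ.M
def Dm : ℝ := D.om (ev ρ.q 0 ρ.m) + ρ.muAt ρ.m * ev ρ.q 1 ρ.m

def Rep (u : E d) : Prop :=
  ρ.m ≤ 0 ∧ u.1 ≤ ρ.M ∧ ρ.m < ρ.M ∧ D.Feas ρ.q ρ.m ρ.M ∧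
    (∀ z ∈ ρ.Z, ρ.m ≤ z ∧ z ≤ ρ.M ∧ |ev ρ.q 0 z| = D.Q ∧ 0 < ρ.mu z * ev ρ.q 0 z) ∧
    u.2 = D.Yq ρ.q ρ.m ρ.M u.1 + ∑ z ∈ ρ.Z, ρ.mu z • Vd 0 z

/-- an optimal stationary representation; `pa` is the height component of the covector -/
def Opt (u : E d) (pa : ℝ) : Prop :=
  ρ.Rep D u ∧ D.Bf ρ.q ρ.m ρ.M u = D.NN u ∧ 0 ≤ ρ.DM D ∧ (u.1 < ρ.M → ρ.DM D = 0) ∧
    0 ≤ ρ.Dm D ∧ (ρ.m < 0 → ρ.Dm D = 0) ∧ pa = -D.lp (-ev ρ.q 0 u.1) + ρ.DM D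

/-- a pinned end -/
def Pin (a z : ℝ) : Prop := (z = 0 ∧ ρ.m = 0) ∨ (z = a ∧ ρ.M = a)
/-- a touching atom -/
def IsT (a z : ℝ) : Prop := z ∈ ρ.Z ∧ ¬ ρ.Pin a z ∧ ev ρ.q 1 z = 0

/-- levels and free ends without atom -/
def lev (a : ℝ) : Set ℝ :=
  {x | (ρ.m < x ∧ x < ρ.M ∧ ∃ k < D.n, ev ρ.q 0 x = D.th k) ∨
    (((ρ.m < x ∧ x < 0) ∨ (a < x ∧ x < ρ.M)) ∧ ∃ k < D.n, -ev ρ.q 0 x = D.th k) ∨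
    (x = ρ.m ∧ ρ.m < 0 ∧ ρ.m ∉ ρ.Z) ∨ (x = ρ.M ∧ a < ρ.M ∧ ρ.M ∉ ρ.Z)}

/-- the number of node parameters -/
def eN (a : ℝ) : ℕ := (ρ.lev D a).ncard + ∑ z ∈ ρ.Z, if ρ.Pin a z then 1 else 2

def DEN (a v : ℝ) : Prop :=
  ∀ (f : Fin d → ℝ) (e : ℝ), 0 ≤ e → (∀ x ∈ ρ.lev D a, |ev f 0 x| ≤ e) →
    (∀ z ∈ ρ.Z, |ev f 0 z| ≤ e ∧ (¬ ρ.Pin a z → |ev f 1 z| ≤ e)) → v * ‖f‖ ≤ e

structure Good0 (u : E d) (v : ℝ) : Prop where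
  ha : v ≤ u.1
  hell : v ≤ ell u ^ d
  hlen : v ≤ (ρ.M - ρ.m) ^ d
  hq : v * ‖ρ.q‖ ≤ 1
  r1 : ∀ z, ρ.IsT u.1 z → v ≤ |ρ.mu z| ∧ 2 * v ≤ |z| ∧ 2 * v ≤ |z - u.1| ∧
    ∀ x, |x - z| ≤ v → v ≤ |ev ρ.q 2 x|
  r2 : ∀ x, |x| ≤ D.Lam → ∀ w ∈ D.ThA, |ev ρ.q 0 x - w| ≤ v →
    v ^ 2 ≤ |ev ρ.q 1 x| ∨ ∃ z, ρ.IsT u.1 z ∧ |x - z| ≤ v ∧ ev ρ.q 0 z = w
  r3 : ∀ x, x = 0 ∨ x = u.1 →
    (x ∈ ρ.Z ∧ ρ.Pin u.1 x ∧ v ≤ |ρ.mu x| ∧ |ρ.mu x| * |ev ρ.q 1 x| + v ≤ D.om D.Q) ∨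
      ∀ w ∈ D.ThA, v ≤ |ev ρ.q 0 x - w|
  den : ρ.DEN D u.1 v

/-- no rational relation between the nodes -/
def NR (a : ℝ) : Prop :=
  ∀ f : Fin d → ℝ, (∀ x ∈ ρ.lev D a, ∃ r : ℚ, ev f 0 x = r) →
    (∀ z ∈ ρ.Z, (∃ r : ℚ, ev f 0 z = r) ∧ (ρ.IsT a z → ev f 1 z = 0) ∧
      (¬ ρ.Pin a z → ∃ r : ℚ, ρ.mu z * ev f 1 z = r)) →
    ∃ c0 c1 : ℝ, ∀ x, ev f 0 x = c0 + c1 * ev ρ.q 0 x

/-- the competing range `[α, z]` is excluded or exact -/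
def G6L (u : E d) (pa v : ℝ) : Prop :=
  D.om D.Q = 0 → ρ.IsT u.1 ρ.m → ∀ α z, -D.Lam ≤ α → α < ρ.m → D.Feas ρ.q α ρ.m →
    |ev ρ.q 0 α| = D.Q → ev ρ.q 1 α ≠ 0 → ρ.IsT u.1 z → u.1 < z → z < ρ.M →
    (∃ f : Fin d → ℝ, ‖f‖ ≤ 1 ∧ (∀ x, ρ.IsT u.1 x → x ≤ z → ev f 0 x * ev ρ.q 0 x ≤ 0) ∧
      v ≤ D.Ib ρ.q f z ρ.M - D.Ib ρ.q f α ρ.m + ∑ x ∈ ρ.Z, ρ.mu x * ev f 0 x) ∨
    (d < ρ.eN D u.1 ∧ ∃ ρ' : RD d, ρ'.Opt D u pa ∧ ρ'.q = ρ.q ∧ ρ'.m = α ∧ ρ'.M = z ∧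
      d < ρ'.eN D u.1)

/-- the competing range `[z, α]` is excluded or exact -/
def G6R (u : E d) (pa v : ℝ) : Prop :=
  D.om D.Q = 0 → ρ.IsT u.1 ρ.M → ∀ α z, α ≤ D.Lam → ρ.M < α → D.Feas ρ.q ρ.M α →
    |ev ρ.q 0 α| = D.Q → ev ρ.q 1 α ≠ 0 → ρ.IsT u.1 z → z < 0 → ρ.m < z →
    (∃ f : Fin d → ℝ, ‖f‖ ≤ 1 ∧ (∀ x, ρ.IsT u.1 x → z ≤ x → ev f 0 x * ev ρ.q 0 x ≤ 0) ∧
      v ≤ D.Ib ρ.q f ρ.m z - D.Ib ρ.q f ρ.M α + ∑ x ∈ ρ.Z, ρ.mu x * ev f 0 x) ∨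
    (d < ρ.eN D u.1 ∧ ∃ ρ' : RD d, ρ'.Opt D u pa ∧ ρ'.q = ρ.q ∧ ρ'.m = z ∧ ρ'.M = α ∧
      d < ρ'.eN D u.1)

def Good (u : E d) (pa v : ℝ) : Prop :=
  ρ.Good0 D u v ∧ (d < ρ.eN D u.1 → ρ.NR D u.1) ∧ ρ.G6L D u pa v ∧ ρ.G6R D u pa v

/-- the representations on the open set where the strict gain is found -/
def Nice (u : E d) (v : ℝ) : Prop :=
  ρ.Good0 D u v ∧ (∀ x ∈ Set.Icc ρ.m ρ.M, |ev ρ.q 1 x| ≤ v → v ≤ |ev ρ.q 2 x|) ∧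
    ρ.m = 0 ∧ ρ.M = u.1 ∧ (∀ z ∈ ρ.Z, ρ.IsT u.1 z) ∧ d < ρ.eN D u.1 ∧ ρ.eN D u.1 ≤ d + 2

/-- the number of passes over an atom that carry an atom item -/
def mult (a z : ℝ) : ℝ := if (ρ.m < z ∧ z < 0) ∨ (a < z ∧ z < ρ.M) then 2 else 1

end RD

/-- `s`, `s'` have the least and the largest centred coordinate among the letters over `(a, b)` -/
def Ext (S : Finset (G d)) (s s' : G d) (a b : ℤ) : Prop :=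
  s ∈ S ∧ s' ∈ S ∧ s.a = a ∧ s.b = b ∧ s'.a = a ∧ s'.b = b ∧
    ∀ r ∈ S, r.a = a → r.b = b → s.ct ≤ r.ct ∧ r.ct ≤ s'.ct

namespace Frame

variable (F : Frame d) (D : LD d) (S : Finset (G d)) (ρ : RD d)

/-- item `i` is a run of vertex letters in direction `δ` -/
def Sea (i : ℕ) (δ : ℤ) : Prop :=
  ∃ k ≤ D.n, ∃ s s' : G d, Ext S s s' (δ * (D.A k).a) (δ * (D.A k).b) ∧
    (F.t i : ℤ) * (D.A k).a = D.K0 ∧ F.Y i = s ^ F.t i ∧ F.Yh i = s' ^ F.t i ∧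
    ∀ x, min (F.pos i) (F.pos (i + 1)) < x → x < max (F.pos i) (F.pos (i + 1)) →
      x ∉ ρ.Z ∧ D.idx (δ * ev ρ.q 0 x) = k ∧ ∀ l < D.n, δ * ev ρ.q 0 x ≠ D.th l

def Atom (a : ℝ) (i : ℕ) : Prop :=
  F.pos i ∈ ρ.Z ∧ (F.Y i).a = 0 ∧
    ((F.Y i).b : ℝ) * F.nu i * ρ.mult a (F.pos i) = ρ.mu (F.pos i) ∧
    (F.t i : ℝ) = ((F.Y i).b : ℝ) * ev ρ.q 0 (F.pos i) ∧
    (0 < D.om D.Q → F.t i = 1 ∧ Ext S (F.Y i) (F.Yh i) 0 (F.Y i).b) ∧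
    (D.om D.Q = 0 → F.FreeE S D.K0 i)

/-- the frame is the ideal path of the representation -/
def FR (a : ℝ) : Prop :=
  ∃ i1 i2, i1 ≤ i2 ∧ i2 ≤ F.m ∧ F.pos i1 = ρ.m ∧ F.pos i2 = ρ.M ∧ F.pos F.m = a ∧
    (∀ i < F.m, 0 < F.nu i) ∧
    (∀ i, i1 ≤ i → i < i2 → F.Sea D S ρ i 1 ∨ F.Atom D S ρ a i) ∧
    (∀ i < F.m, i < i1 ∨ i2 ≤ i →
      F.Sea D S ρ i (-1) ∨ (F.Atom D S ρ a i ∧ ρ.mult a (F.pos i) = 2)) ∧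
    (∀ i, i + 1 < F.m → (F.Y i).a = 0 → (F.Y (i + 1)).a ≠ 0) ∧
    (∀ i, i + 1 < F.m → (F.Y i).a ≠ 0 → (F.Y (i + 1)).a = (F.Y i).a →
      (F.Y (i + 1)).b ≠ (F.Y i).b) ∧
    (∀ z ∈ ρ.Z, ∃ i, i1 ≤ i ∧ i < i2 ∧ (F.Y i).a = 0 ∧ F.pos i = z) ∧
    (∀ z ∈ ρ.Z, ρ.mult a z = 2 →
      ∃ i < F.m, (i < i1 ∨ i2 ≤ i) ∧ (F.Y i).a = 0 ∧ F.pos i = z)

end Frame

/-- averaged slack of letter number `k` in the phase given by the times `τ1`, `τ2` -/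
def sb (D : LD d) (T : ℝ) (q : Fin d → ℝ) (w : List (G d)) (τ1 τ2 k : ℕ) : ℝ :=
  ∫ t in (0 : ℝ)..1, D.slk (decide (τ1 ≤ k ∧ k < τ2)) (lt w k)
    (ev q 0 (((ht w k : ℝ) + t * ((lt w k).a : ℝ)) / T))

def SB (D : LD d) (T : ℝ) (q : Fin d → ℝ) (w : List (G d)) (τ1 τ2 : ℕ) : ℝ :=
  ∑ k ∈ range w.length, sb D T q w τ1 τ2 k

def CT (T : ℝ) (q : Fin d → ℝ) (w : List (G d)) : ℝ :=
  ∑ k ∈ range w.length, (lt w k).ct * ev q 1 (mid T w k) / T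

/-- the word follows the representation -/
def Near (D : LD d) (S : Finset (G d)) (T : ℝ) (u p : E d) (ρ : RD d) (w : List (G d))
    (e b0 : ℝ) : Prop :=
  Wd S w ∧ ∃ (τ1 τ2 : ℕ) (qh : Fin d → ℝ), τ1 ≤ τ2 ∧ τ2 ≤ w.length ∧
    (∀ k ≤ w.length, ht w τ1 ≤ ht w k ∧ ht w k ≤ ht w τ2) ∧
    D.Feas qh (ht w τ1 / T) (ht w τ2 / T) ∧ ‖qh - ρ.q‖ ≤ e ∧
    |ht w τ1 / T - ρ.m| ≤ e ∧ |ht w τ2 / T - ρ.M| ≤ e ∧ SB D T qh w τ1 τ2 ≤ b0 ∧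
    SB D T qh w τ1 τ2 - CT T qh w + ρ.DM D * ((ht w τ2 : ℝ) - w.prod.a) -
      ρ.Dm D * (ht w τ1 : ℝ) ≤ Fb T (D.NN u) u p w.length w.prod + e ∧
    Fb T (D.NN u) u p w.length w.prod ≤ b0

/-- the measure of the competition between two ranges -/
def rhoF (D : LD d) (q : Fin d → ℝ) (α m z M : ℝ) (Z : Finset ℝ) (ν : ℝ → ℝ) (f : Fin d → ℝ) : ℝ :=
  D.Ib q f α m - D.Ib q f z M + ∑ x ∈ Z, ν x * ev f 0 x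

/-- the second variation of the competition between two ranges; `L1`, `L2` are the levels -/
def hess (D : LD d) (q : Fin d → ℝ) (α M : ℝ) (L1 L2 Z : Finset ℝ) (ν : ℝ → ℝ)
    (f g : Fin d → ℝ) : ℝ :=
  -(∑ x ∈ L1, D.Jb (ev q 0 x) * (ev f 0 x * ev g 0 x) / |ev q 1 x|) +
    (∑ x ∈ L2, D.Jb (ev q 0 x) * (ev f 0 x * ev g 0 x) / |ev q 1 x|) -
    D.be (ev q 0 α) * (ev f 0 α * ev g 0 α) / ev q 1 α -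
    D.be (ev q 0 M) * (ev f 0 M * ev g 0 M) / ev q 1 M +
    ∑ x ∈ Z, ν x * (ev f 1 x * ev g 1 x) / ev q 2 x

end

end Pool.Agent.P.MP_a0f0ad_al.Fi
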