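import Mathlib

/-! The filiform group, word length, rescaling, frames and plans. -/

namespace Pool.Agent.P.MP_a0f0ad_al.Fi

open Finset MeasureTheory
open scoped Classical

/-- the filiform group: `Z^d` extended by `Z` -/
@[ext] structure G (d : ℕ) where
  y : Fin d → ℤ
  a : ℤ

/-- the action of the height `x` on `Z^d` -/
def sh {d : ℕ} (x : ℤ) (y : Fin d → ℤ) : Fin d → ℤ :=
  fun j => ∑ i : Fin d, (((j : ℕ).choose i : ℕ) : ℤ) * x ^ ((j : ℕ) - (i : ℕ)) * y i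

theorem sh_aux (d j l : ℕ) (hj : j < d) (x z : ℤ) :
    ∑ i ∈ range d, ((j.choose i : ℕ) : ℤ) * x ^ (j - i) * (((i.choose l : ℕ) : ℤ) * z ^ (i - l)) =
      ((j.choose l : ℕ) : ℤ) * (x + z) ^ (j - l) := by
  by_cases hl : l ≤ j
  · obtain ⟨n, rfl⟩ := Nat.exists_eq_add_of_le hl
    have h1 : ∑ i ∈ range d, (((l + n).choose i : ℕ) : ℤ) * x ^ (l + n - i) *
        (((i.choose l : ℕ) : ℤ) * z ^ (i - l)) =
        ∑ i ∈ (range (n + 1)).map (addLeftEmbedding l), (((l + n).choose i : ℕ) : ℤ) *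
          x ^ (l + n - i) * (((i.choose l : ℕ) : ℤ) * z ^ (i - l)) := by
      symm
      apply Finset.sum_subset
      · intro i hi
        simp only [mem_map, mem_range, addLeftEmbedding_apply] at hi ⊢
        obtain ⟨s, hs, rfl⟩ := hi
        omega
      · intro i _ hi
        simp only [mem_map, mem_range, addLeftEmbedding_apply, not_exists, not_and] at hi
        by_cases h : i < l
        · simp [Nat.choose_eq_zero_of_lt h]
        · have : l + n < i := by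
            by_contra h2
            exact hi (i - l) (by omega) (by omega)
          simp [Nat.choose_eq_zero_of_lt this]
    rw [h1, Finset.sum_map, Nat.add_sub_cancel_left, add_comm x z, add_pow, Finset.mul_sum]
    refine Finset.sum_congr rfl fun s hs => ?_
    have hs' : s ≤ n := by simpa [Nat.lt_succ_iff] using hs
    have h2 := Nat.choose_mul (n := l + n) (k := l + s) (s := l) (by omega)
    simp only [Nat.add_sub_cancel_left] at h2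
    have h3 : (((l + n).choose (l + s) : ℕ) : ℤ) * ((l + s).choose l : ℕ) =
        ((l + n).choose l : ℕ) * (n.choose s : ℕ) := by exact_mod_cast h2
    simp only [addLeftEmbedding_apply, Nat.add_sub_cancel_left, Nat.add_sub_add_left]
    linear_combination x ^ (n - s) * z ^ s * h3
  · rw [Nat.choose_eq_zero_of_lt (by omega : j < l)]
    simp only [Nat.cast_zero, zero_mul]
    refine Finset.sum_eq_zero fun i _ => ?_
    by_cases h : i < l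
    · simp [Nat.choose_eq_zero_of_lt h]
    · simp [Nat.choose_eq_zero_of_lt (by omega : j < i)]

theorem sh_sh {d : ℕ} (x z : ℤ) (y : Fin d → ℤ) : sh x (sh z y) = sh (x + z) y := by
  funext j
  simp only [sh, Finset.mul_sum]
  rw [Finset.sum_comm]
  refine Finset.sum_congr rfl fun l _ => ?_
  rw [← sh_aux d j l j.2 x z, ← Fin.sum_univ_eq_sum_range
    (fun i => (((j : ℕ).choose i : ℕ) : ℤ) * x ^ ((j : ℕ) - i) *
      (((i.choose l : ℕ) : ℤ) * z ^ (i - l))), Finset.sum_mul]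
  refine Finset.sum_congr rfl fun i _ => by ring

theorem sh_zero {d : ℕ} (y : Fin d → ℤ) : sh 0 y = y := by
  funext j
  simp only [sh]
  rw [Finset.sum_eq_single j]
  · simp
  · intro i _ hi
    rcases lt_or_gt_of_ne hi with h | h
    · have : (j : ℕ) - i ≠ 0 := by have := Fin.lt_def.1 h; omega
      simp [this]
    · simp [Nat.choose_eq_zero_of_lt (Fin.lt_def.1 h)]
  · simp

theorem sh_add {d : ℕ} (x : ℤ) (y z : Fin d → ℤ) : sh x (y + z) = sh x y + sh x z := by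
  funext j
  simp [sh, mul_add, Finset.sum_add_distrib]

theorem sh_neg {d : ℕ} (x : ℤ) (y : Fin d → ℤ) : sh x (-y) = -sh x y := by
  funext j
  simp [sh]

theorem sh_zero_right {d : ℕ} (x : ℤ) : sh x (0 : Fin d → ℤ) = 0 := by
  funext j
  simp [sh]

variable {d : ℕ}

instance : Mul (G d) := ⟨fun g h => ⟨g.y + sh g.a h.y, g.a + h.a⟩⟩
instance : One (G d) := ⟨⟨0, 0⟩⟩
instance : Inv (G d) := ⟨fun g => ⟨-sh (-g.a) g.y, -g.a⟩⟩

@[simp] theorem G.mul_y (g h : G d) : (g * h).y = g.y + sh g.a h.y := rfl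
@[simp] theorem G.mul_a (g h : G d) : (g * h).a = g.a + h.a := rfl
@[simp] theorem G.one_y : (1 : G d).y = 0 := rfl
@[simp] theorem G.one_a : (1 : G d).a = 0 := rfl
@[simp] theorem G.inv_y (g : G d) : g⁻¹.y = -sh (-g.a) g.y := rfl
@[simp] theorem G.inv_a (g : G d) : g⁻¹.a = -g.a := rfl

instance : Group (G d) :=
  Group.ofLeftAxioms
    (fun a b c => G.ext (by simp [sh_add, sh_sh, add_assoc]) (by simp [add_assoc]))
    (fun a => G.ext (by simp [sh_zero]) (by simp))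
    (fun a => G.ext (by simp) (by simp))

noncomputable section

/-- coordinate `i` of a vector, zero if there is none -/
def co {R : Type} [Zero R] (y : Fin d → R) (i : ℕ) : R := if h : i < d then y ⟨i, h⟩ else 0

def G.b (g : G d) : ℤ := co g.y 0
def G.c (g : G d) : ℤ := co g.y 1
/-- the centred second coordinate, additive on powers -/
def G.ct (g : G d) : ℝ := (g.c : ℝ) - (g.a : ℝ) * (g.b : ℝ) / 2

/-- a symmetric generating set containing the identity -/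
def Sym (S : Finset (G d)) : Prop :=
  (1 : G d) ∈ S ∧ (∀ s ∈ S, s⁻¹ ∈ S) ∧ Subgroup.closure (S : Set (G d)) = ⊤

def Wd (S : Finset (G d)) (w : List (G d)) : Prop := ∀ s ∈ w, s ∈ S

/-- word length -/
def len (S : Finset (G d)) (g : G d) : ℕ :=
  sInf {n | ∃ w : List (G d), Wd S w ∧ w.length = n ∧ w.prod = g}

/-- geodesic words -/
def Geo (S : Finset (G d)) (w : List (G d)) : Prop := Wd S w ∧ w.length = len S w.prod

/-- letter number `k` -/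
def lt (w : List (G d)) (k : ℕ) : G d := w.getD k 1
/-- height before letter number `k` -/
def ht (w : List (G d)) (k : ℕ) : ℤ := (w.take k).prod.a
/-- rescaled midpoint height of letter number `k` -/
def mid (T : ℝ) (w : List (G d)) (k : ℕ) : ℝ := ((ht w k : ℝ) + ((lt w k).a : ℝ) / 2) / T

abbrev E (d : ℕ) : Type := ℝ × (Fin d → ℝ)

def nx (T : ℝ) (g : G d) : E d := ((g.a : ℝ), fun j => (g.y j : ℝ) / T ^ (j : ℕ))
def dil (l : ℝ) (u : E d) : E d := (l * u.1, fun j => l ^ ((j : ℕ) + 1) * u.2 j)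
def gam (T : ℝ) (u : E d) : G d := ⟨fun j => ⌊T ^ ((j : ℕ) + 1) * u.2 j⌋, ⌊T * u.1⌋⟩
def dot (q y : Fin d → ℝ) : ℝ := ∑ j, q j * y j
def pair (p u : E d) : ℝ := p.1 * u.1 + dot p.2 u.2
/-- the `k`-th derivative of the moment curve -/
def Vd (k : ℕ) (x : ℝ) : Fin d → ℝ :=
  fun j => (((j : ℕ).descFactorial k : ℕ) : ℝ) * x ^ ((j : ℕ) - k)
/-- the `k`-th derivative at `x` of the polynomial with coefficients `q` -/
def ev (q : Fin d → ℝ) (k : ℕ) (x : ℝ) : ℝ := dot q (Vd k x)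
def jy (y : Fin d → ℝ) : Fin d → ℝ := fun j => ((j : ℕ) : ℝ) * y j
def Nonconst (q : Fin d → ℝ) : Prop := ∃ j : Fin d, 1 ≤ (j : ℕ) ∧ q j ≠ 0

/-- `p` is the gradient of `N` at `u` -/
def Grad (N : E d → ℝ) (p u : E d) : Prop :=
  ∃ L : E d →L[ℝ] ℝ, HasFDerivAt N L u ∧ ∀ h, L h = pair p h

def Osc (N : E d → ℝ) (u p : E d) (r e : ℝ) : Prop :=
  ∀ u' : E d, ‖u' - u‖ ≤ r → |N u' - N u - pair p (u' - u)| ≤ e * ‖u' - u‖

/-- a lower bound for the height range of any path to `u` -/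
def ell (u : E d) : ℝ :=
  max |u.1| (⨆ j : Fin d, if (j : ℕ) = 0 then 0 else |u.2 j| ^ (((j : ℕ) : ℝ)⁻¹))

/-- a length `n` of `g` minus its affine approximation -/
def Fb (T Nu : ℝ) (u p : E d) (n : ℕ) (g : G d) : ℝ :=
  (n : ℝ) - T * Nu - pair p (nx T g - T • u)

def Cong (K : ℕ) (g h : G d) : Prop :=
  g.a ≡ h.a [ZMOD (K : ℤ)] ∧ ∀ j, g.y j ≡ h.y j [ZMOD (K : ℤ)]

def cube (d : ℕ) (R : ℝ) : Set (E d) := {z | z.1 ∈ Set.Ico 0 R ∧ ∀ j, z.2 j ∈ Set.Ico 0 R}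

/-- `X` fills at most the fraction `f` of the window of side `R` -/
def Frac (T R : ℝ) (u : E d) (X : Set (G d)) (f : ℝ) : Prop :=
  volume {z | z ∈ cube d R ∧ gam T (u + T⁻¹ • z) ∈ X} ≤ ENNReal.ofReal (f * R ^ (d + 1))

/-- path transplant from scale `T` to all large scales -/
def PT (S : Finset (G d)) (K : ℕ) (T : ℝ) (u p : E d) (Nu Ct δ Rw KK : ℝ) (X : Set (G d)) : Prop :=
  ∃ (τ : ℕ → E d) (n : ℕ → ℝ),
    (∀ N, ∃ ta tb : ℤ, (τ N).1 = (K : ℝ) * ta ∧ co (τ N).2 0 = (K : ℝ) * tb) ∧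
    (∀ N : ℕ, ‖τ N - ((N : ℝ) - T) • u‖ ≤ Ct) ∧
    (∀ N : ℕ, n N ≤ ((N : ℝ) - T) * Nu + pair p (τ N - ((N : ℝ) - T) • u) + δ) ∧
    ∀ g : G d, ‖nx T g - T • u‖ ≤ Rw → ∀ᶠ N : ℕ in Filter.atTop, ∀ h : G d, Cong K g h →
      ‖nx N h - nx T g - τ N‖ ≤ 3 * K / T →
      (len S h : ℝ) ≤ len S g + n N + if g ∈ X then KK else 0

/-- the comparison of word length with the limit function -/
def H2 (S : Finset (G d)) (N W : E d → ℝ) (L : ℝ) : Prop :=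
  ∀ᵐ u : E d, ‖u‖ ≤ L → ∀ T : ℝ, 1 ≤ T → ∀ g : G d,
    |(len S g : ℝ) - T * N u| ≤ W u * (1 + ‖nx T g - T • u‖)

def GoodU (S : Finset (G d)) (N W : E d → ℝ) (K : ℕ) (C θ κ : ℝ) (A : Set (E d)) (T : ℝ)
    (u : E d) : Prop :=
  ∃ (p : E d) (δ : ℝ) (X : Set (G d)), ‖p‖ ≤ W u ∧
    (∀ g : G d, ‖nx T g - T • u‖ ≤ T ^ (2 * θ) → |Fb T (N u) u p (len S g) g| ≤ W u) ∧
    PT S K T u p (N u) C δ (T ^ (2 * θ)) C X ∧ δ ≤ C * T ^ (-θ) ∧
    (u ∈ A → δ ≤ -T ^ (-κ) / 2) ∧ (u ∉ A → X = ∅) ∧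
    ∀ R : ℕ, T ^ θ ≤ R → (R : ℝ) ≤ 2 * T ^ θ → Frac T R u X (C * T ^ (-θ))

/-- the one-sided comparison on the region `U` -/
def H3 (S : Finset (G d)) (N W : E d → ℝ) (K : ℕ) (C θ κ : ℝ) (A U : Set (E d)) : Prop :=
  ∀ᶠ T : ℕ in Filter.atTop, ∃ Bad : Set (E d),
    volume Bad ≤ ENNReal.ofReal (C * (T : ℝ) ^ (-(4 * θ))) ∧
    ∀ u ∈ U, u ∉ Bad → N u < 1 → GoodU S N W K C θ κ A T u

/-- the summed growth function is a polynomial along an arithmetic progression -/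
def PolyG (β : ℕ → ℕ) : Prop :=
  ∃ w : ℕ, 0 < w ∧ ∃ f : Polynomial ℝ, ∀ᶠ n : ℕ in Filter.atTop,
    ∑ i ∈ range (w * n), (β i : ℝ) = f.eval (n : ℝ)

/-! ### frames -/

def clamp (x : ℝ) : ℝ := max 0 (min 1 x)

/-- a list of `m` items; item `i` is a run of about `nu i` times the scale blocks `Y i` or `Yh i`,
each of length at most `t i` -/
structure Frame (d : ℕ) where
  m : ℕ
  Y : ℕ → G d
  Yh : ℕ → G d
  t : ℕ → ℕ
  nu : ℕ → ℝ

namespace Frame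

variable (F : Frame d)

def pos (i : ℕ) : ℝ := ∑ l ∈ range i, F.nu l * ((F.Y l).a : ℝ)
def pt (l : ℕ) (s : ℝ) : ℝ := F.pos l + s * (F.nu l * ((F.Y l).a : ℝ))
def posT (τ : ℝ) : ℝ := ∑ l ∈ range F.m, F.nu l * ((F.Y l).a : ℝ) * clamp (τ - l)
def Gam (τ : ℝ) : Fin d → ℝ := fun j =>
  ∑ l ∈ range F.m, ∫ s in clamp (τ - l)..1, F.nu l * ((F.Y l).b : ℝ) * Vd 1 (F.pt l s) j
def yF : Fin d → ℝ := fun j =>
  ∑ l ∈ range F.m, ∫ s in (0 : ℝ)..1, F.nu l * ((F.Y l).b : ℝ) * Vd 0 (F.pt l s) j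
def X (χ : ℕ → ℝ → ℝ) : Fin d → ℝ := fun j =>
  ∑ l ∈ range F.m, ∫ s in (0 : ℝ)..1, F.nu l * χ l s * Vd 1 (F.pt l s) j
/-- first order effect of inserting `g` at frame time `τ` -/
def Dv (g : G d) (τ : ℝ) : Fin d → ℝ := (g.b : ℝ) • Vd 0 (F.posT τ) + (g.a : ℝ) • F.Gam τ
def DvI (i : ℕ) : Fin d → ℝ := F.Dv (F.Y i) i
/-- the commutator coefficient of the junction between the items `j - 1` and `j` -/
def om (j : ℕ) : ℤ := (F.Y (j - 1)).b * (F.Y j).a - (F.Y j).b * (F.Y (j - 1)).a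

def FreeE (S : Finset (G d)) (K0 : ℕ) (i : ℕ) : Prop :=
  F.Yh i = F.Y i ∧ ∃ (P M : G d) (tp tm : ℕ), F.Y i = P * M ∧ P.a = K0 ∧ M.a = -(K0 : ℤ) ∧
    len S P ≤ tp ∧ len S M ≤ tm ∧ tp + tm = F.t i

/-- atoms whose mass can be moved both ways -/
def Free (S : Finset (G d)) (K0 : ℕ) (i : ℕ) : Prop :=
  i < F.m ∧ (F.Y i).a = 0 ∧ (F.FreeE S K0 i ∨
    (1 ≤ i ∧ i + 1 < F.m ∧ (F.Y (i - 1)).a = (F.Y (i + 1)).a ∧ (F.Y (i + 1)).a ≠ 0))

def Cone (S : Finset (G d)) (K0 : ℕ) : Set (Fin d → ℝ) :=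
  {e | ∃ γ α γ' : ℕ → ℝ, (∀ i, 0 ≤ γ i) ∧ (∀ i, 0 ≤ γ' i) ∧
    (∀ i, ¬ F.Free S K0 i → α i = 0 ∧ γ' i = 0) ∧
    e = ∑ j ∈ Ico 1 F.m, (γ j * (F.om j : ℝ)) • Vd 1 (F.pos j) +
      ∑ i ∈ range F.m, (α i • Vd 1 (F.pos i) + (γ' i * ((F.Y i).b : ℝ)) • Vd 2 (F.pos i))}

def OK (S : Finset (G d)) (K0 : ℕ) : Prop :=
  ∀ i < F.m, 0 < F.nu i ∧ len S (F.Y i) ≤ F.t i ∧ len S (F.Yh i) ≤ F.t i ∧
    (F.Yh i).a = (F.Y i).a ∧ (F.Yh i).b = (F.Y i).b ∧ (F.Y i).ct ≤ (F.Yh i).ct ∧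
    (((F.Y i).a = 0 ∧ (F.Y i).b ≠ 0) ∨ (F.Y i).a = K0 ∨ (F.Y i).a = -(K0 : ℤ))

def HasJ : Prop := ∃ j, 1 ≤ j ∧ j < F.m ∧ F.om j ≠ 0

/-- monotone insertion times and a profile of variants -/
def Plan (τ : ℕ → ℝ) (χ : ℕ → ℝ → ℝ) : Prop :=
  Monotone τ ∧ (∀ k, 0 ≤ τ k ∧ τ k ≤ F.m) ∧
    ∀ l < F.m, Measurable (χ l) ∧ ∀ s, (F.Y l).ct ≤ χ l s ∧ χ l s ≤ (F.Yh l).ct

def Del (T : ℝ) (w : List (G d)) (τ : ℕ → ℝ) (χ : ℕ → ℝ → ℝ) : Fin d → ℝ :=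
  (nx T w.prod).2 + T • jy F.yF - ∑ k ∈ range w.length, F.Dv (lt w k) (τ k) - F.X χ

/-- movable units cover the ball of radius `ρ` around `β` in the hyperplane -/
def HasB (K : ℕ) (β : Fin d → ℝ) (ρ : ℝ) : Prop :=
  ∃ (r : ℕ) (it : ℕ → ℕ) (lo hi : ℕ → ℝ),
    (∀ l < r, it l < F.m ∧ ∃ i : ℕ, i < F.m ∧ (i : ℝ) < lo l ∧ hi l < i + 1) ∧
    ∀ e : Fin d → ℝ, co e 0 = 0 → ‖e‖ ≤ ρ → ∃ x : ℕ → ℝ, (∀ l < r, lo l ≤ x l ∧ x l ≤ hi l) ∧
      ∑ l ∈ range r, ((K : ℝ) ^ 2) • (F.Dv (F.Y (it l)) (x l) - F.DvI (it l)) = β + e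

/-- the frame is an ideal path to `u` with zero slack for the covector `p` -/
def FP (S : Finset (G d)) (K0 : ℕ) (YY : Finset (G d)) (C : ℝ) (u p : E d) (Nu : ℝ) : Prop :=
  F.OK S K0 ∧ F.HasJ ∧ F.yF = u.2 ∧ F.pos F.m = u.1 ∧
    ∑ i ∈ range F.m, F.nu i * (F.t i : ℝ) = Nu ∧ (F.m : ℝ) ≤ C ∧
    ∀ i < F.m, F.Y i ∈ YY ∧ (F.t i : ℝ) ≤ C ∧ ‖F.DvI i‖ ≤ C ∧
      (F.t i : ℝ) = dot p.2 (F.DvI i) + p.1 * ((F.Y i).a : ℝ)

/-- rank three, density of the kernel lattice, and a costly cone direction -/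
def KR (S : Finset (G d)) (K0 : ℕ) (q : Fin d → ℝ) : Prop :=
  (∃ i j l, i < F.m ∧ j < F.m ∧ l < F.m ∧
    Matrix.det !![(F.Y i).a, (F.Y i).b, (F.t i : ℤ); (F.Y j).a, (F.Y j).b, (F.t j : ℤ);
      (F.Y l).a, (F.Y l).b, (F.t l : ℤ)] ≠ 0) ∧
  (∀ e : Fin d → ℝ, co e 0 = 0 → dot q e = 0 → ∀ ε : ℝ, 0 < ε →
    ∃ (k : ℕ → ℤ) (α : ℕ → ℝ), ∑ i ∈ range F.m, k i * (F.Y i).a = 0 ∧
      ∑ i ∈ range F.m, k i * (F.Y i).b = 0 ∧ ∑ i ∈ range F.m, k i * (F.t i : ℤ) = 0 ∧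
      (∀ i, ¬ F.Free S K0 i → α i = 0) ∧
      ‖∑ i ∈ range F.m, ((k i : ℝ) • F.DvI i + α i • Vd 1 (F.pos i)) - e‖ ≤ ε) ∧
  ∃ e ∈ F.Cone S K0, dot q e < 0

end Frame

end

end Pool.Agent.P.MP_a0f0ad_al.Fi
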