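import Pool.Agent.P.MP_a0f0ad_al.Fi.Z.Defs

/-! Chapter Z: assembly. -/

namespace Pool.Agent.P.MP_a0f0ad_al.Fi

open Finset MeasureTheory
open scoped Pointwise

-- deps: HOM OPT FB QLOW NEAR EXR TF BIAS KR FLAT EXA EXB EXN OSCN GOOD PTA PTB PTF
/-- the one-sided comparison on the upper half space -/
def S_ASM : Prop :=
  ∃ (θ κ : ℝ) (d : ℕ), 0 < κ ∧ 2 * κ < θ ∧ θ ≤ 1 / 10 ∧ 9 ≤ d ∧
    ∀ (S : Finset (G d)) (D : LD d), D.Spec S → ∃ Ks : ℕ, 0 < Ks ∧ ∀ K : ℕ, 0 < K → Ks ∣ K →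
      ∃ (A : Set (E d)) (C0 C : ℝ), IsOpen A ∧ A.Nonempty ∧ (∀ u ∈ A, 0 < u.1 ∧ D.NN u < 1) ∧
        H3 S D.NN (fun u => C0 / ell u ^ d) K C θ κ A {u | 0 < u.1} ∧
        H3 S D.NN (fun u => C0 / ell u ^ d) K C θ κ ∅ {u | 0 < u.1}

-- deps: GRP GRW RAT WL2 INT LDX HOM H2N ASM
/-- some finitely generated nilpotent group has no generating set with rational growth -/
def S_TOP : Prop :=
  ¬ (∀ (G : Type) [Group G] [Group.FG G] [Group.IsNilpotent G],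
      ∃ S : Finset G, Subgroup.closure (S : Set G) = ⊤ ∧
        ∃ P Q : Polynomial ℚ, Q.coeff 0 ≠ 0 ∧
          (Q : PowerSeries ℚ) *
              PowerSeries.mk (fun n : ℕ =>
                ((((({1} : Set G) ∪ (S : Set G) ∪ (S : Set G)⁻¹) ^ n).ncard : ℕ) : ℚ)) =
            (P : PowerSeries ℚ))

end Pool.Agent.P.MP_a0f0ad_al.Fi
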